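import Mathlib

/-!
Counting tools: supersaturation for complete tripartite 3-graphs, counting sets.
-/

set_option autoImplicit false
set_option linter.unusedSectionVars false

namespace Pool.Agent.R76.B50

open Finset

open Classical in
/-- the number of elements of a finite type with a property -/
noncomputable def cnt {α : Type*} [Fintype α] (P : α → Prop) : ℕ :=
  (univ.filter (fun x => P x)).card

lemma cnt_eq {α : Type*} [Fintype α] (P : α → Prop) [DecidablePred P] :
    cnt P = (univ.filter (fun x => P x)).card := by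
  unfold cnt
  congr

lemma cnt_congr {α β : Type*} [Fintype α] [Fintype β] {P : α → Prop} {Q : β → Prop}
    (e : α ≃ β) (h : ∀ a, P a ↔ Q (e a)) : cnt P = cnt Q := by
  classical
  rw [cnt_eq, cnt_eq]
  refine Finset.card_bij (fun p _ => e p) ?_ ?_ ?_
  · intro p hp
    simpa [← h] using hp
  · intro a _ b _ hab
    exact e.injective hab
  · intro b hb
    refine ⟨e.symm b, ?_, by simp⟩
    simpa [h] using hb

lemma cnt_mono {α : Type*} [Fintype α] {P Q : α → Prop} (h : ∀ a, P a → Q a) :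
    cnt P ≤ cnt Q := by
  classical
  rw [cnt_eq, cnt_eq]
  refine Finset.card_le_card ?_
  intro a ha
  simp only [Finset.mem_filter, Finset.mem_univ, true_and] at ha ⊢
  exact h a ha

lemma cnt_le {α : Type*} [Fintype α] (P : α → Prop) : cnt P ≤ Fintype.card α := by
  classical
  rw [cnt_eq]
  exact (Finset.card_le_univ _)

lemma cnt_or {α : Type*} [Fintype α] (P Q : α → Prop) :
    cnt (fun a => P a ∨ Q a) ≤ cnt P + cnt Q := by
  classical
  rw [cnt_eq, cnt_eq, cnt_eq, Finset.filter_or]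
  exact Finset.card_union_le _ _

lemma cnt_pos {α : Type*} [Fintype α] {P : α → Prop} (h : 0 < cnt P) : ∃ a, P a := by
  classical
  rw [cnt_eq, Finset.card_pos] at h
  obtain ⟨a, ha⟩ := h
  exact ⟨a, by simpa using ha⟩

/-- one Jensen step -/
lemma jensen_step {α β : Type*} [Fintype α] [Fintype β] (R : α → β → Prop) (t : ℕ) :
    cnt (fun p : α × β => R p.1 p.2) ^ (t + 1) ≤
      Fintype.card β ^ t * cnt (fun p : (Fin (t + 1) → α) × β => ∀ i, R (p.1 i) p.2) := by
  classical
  have h1 : cnt (fun p : α × β => R p.1 p.2) =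
      ∑ b : β, (univ.filter (fun a : α => R a b)).card := by
    rw [cnt_eq, Finset.card_filter, Fintype.sum_prod_type_right]
    refine Finset.sum_congr rfl (fun b _ => ?_)
    rw [Finset.card_filter]
  have h2 : cnt (fun p : (Fin (t + 1) → α) × β => ∀ i, R (p.1 i) p.2) =
      ∑ b : β, (univ.filter (fun a : α => R a b)).card ^ (t + 1) := by
    rw [cnt_eq, Finset.card_filter, Fintype.sum_prod_type_right]
    refine Finset.sum_congr rfl (fun b _ => ?_)
    rw [← Finset.card_filter, ← Fintype.card_piFinset_const]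
    congr 1
    ext x
    simp [Fintype.mem_piFinset]
  rw [h1, h2]
  have h3 := pow_sum_le_card_mul_sum_pow (s := (univ : Finset β))
    (f := fun b => (univ.filter (fun a : α => R a b)).card) (fun _ _ => Nat.zero_le _) t
  simpa using h3

/-- Supersaturation: number of labelled complete tripartite copies. -/
theorem supersat {V : Type*} [Fintype V] [Nonempty V] (P : V → V → V → Prop) (t : ℕ) (δ : ℝ)
    (hδ : 0 ≤ δ)
    (h : δ * (Fintype.card V : ℝ) ^ 3 ≤ cnt (fun p : V × V × V => P p.1 p.2.1 p.2.2)) :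
    δ ^ (t + 1) ^ 3 * (Fintype.card V : ℝ) ^ (3 * (t + 1)) ≤
      cnt (fun p : (Fin (t + 1) → V) × (Fin (t + 1) → V) × (Fin (t + 1) → V) =>
        ∀ i j l, P (p.1 i) (p.2.1 j) (p.2.2 l)) := by
  set n : ℝ := (Fintype.card V : ℝ) with hn
  have hn0 : 0 < n := by
    rw [hn]
    exact_mod_cast Fintype.card_pos
  set T := t + 1 with hT
  -- first step
  set S1 : ℕ := cnt (fun p : (Fin T → V) × (V × V) => ∀ i, P (p.1 i) p.2.1 p.2.2) with hS1
  have e1 := jensen_step (fun (x : V) (b : V × V) => P x b.1 b.2) t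
  have e1' : δ ^ T * n ^ (T + 2) ≤ (S1 : ℝ) := by
    have h1 : ((cnt (fun p : V × V × V => P p.1 p.2.1 p.2.2) : ℕ) : ℝ) ^ T ≤
        (n ^ 2) ^ t * S1 := by
      have h2 : ((cnt (fun p : V × V × V => P p.1 p.2.1 p.2.2) : ℕ) : ℝ) ^ T ≤
        ((Fintype.card (V × V) ^ t * S1 : ℕ) : ℝ) := by exact_mod_cast e1
      refine h2.trans (le_of_eq ?_)
      push_cast [Fintype.card_prod]
      rw [← hn]
      ring
    have h3 : (δ * n ^ 3) ^ T ≤ (n ^ 2) ^ t * S1 :=
      (pow_le_pow_left₀ (by positivity) h T).trans h1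
    have h4 : (δ * n ^ 3) ^ T = (n ^ 2) ^ t * (δ ^ T * n ^ (T + 2)) := by
      rw [hT]
      ring
    rw [h4] at h3
    exact le_of_mul_le_mul_left h3 (by positivity)
  -- second step
  set S2 : ℕ := cnt (fun p : (Fin T → V) × ((Fin T → V) × V) =>
    ∀ j i, P (p.2.1 i) (p.1 j) p.2.2) with hS2
  have e2 := jensen_step (fun (y : V) (b : (Fin T → V) × V) => ∀ i, P (b.1 i) y b.2) t
  have c1 : cnt (fun p : V × ((Fin T → V) × V) => ∀ i, P (p.2.1 i) p.1 p.2.2) = S1 := by
    rw [hS1]
    refine cnt_congr ⟨fun p => (p.2.1, (p.1, p.2.2)), fun p => (p.2.1, (p.1, p.2.2)),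
      fun p => rfl, fun p => rfl⟩ (fun p => Iff.rfl)
  rw [c1] at e2
  have e2' : δ ^ T ^ 2 * n ^ (2 * T + 1) ≤ (S2 : ℝ) := by
    have h1 : (S1 : ℝ) ^ T ≤ (n ^ (T + 1)) ^ t * S2 := by
      have h2 : (S1 : ℝ) ^ T ≤ ((Fintype.card ((Fin T → V) × V) ^ t * S2 : ℕ) : ℝ) := by
        exact_mod_cast e2
      refine h2.trans (le_of_eq ?_)
      push_cast [Fintype.card_prod, Fintype.card_pi, Finset.prod_const, Finset.card_univ,
        Fintype.card_fin]
      rw [← hn]
      ring
    have h3 : (δ ^ T * n ^ (T + 2)) ^ T ≤ (n ^ (T + 1)) ^ t * S2 :=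
      (pow_le_pow_left₀ (by positivity) e1' T).trans h1
    have h4 : (δ ^ T * n ^ (T + 2)) ^ T = (n ^ (T + 1)) ^ t * (δ ^ T ^ 2 * n ^ (2 * T + 1)) := by
      rw [hT]
      ring
    rw [h4] at h3
    exact le_of_mul_le_mul_left h3 (by positivity)
  -- third step
  set S3 : ℕ := cnt (fun p : (Fin T → V) × (Fin T → V) × (Fin T → V) =>
        ∀ i j l, P (p.1 i) (p.2.1 j) (p.2.2 l)) with hS3
  have e3 := jensen_step (fun (z : V) (b : (Fin T → V) × (Fin T → V)) =>
    ∀ j i, P (b.2 i) (b.1 j) z) t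
  have c2 : cnt (fun p : V × ((Fin T → V) × (Fin T → V)) =>
      ∀ j i, P (p.2.2 i) (p.2.1 j) p.1) = S2 := by
    rw [hS2]
    refine cnt_congr ⟨fun p => (p.2.1, (p.2.2, p.1)), fun p => (p.2.2, (p.1, p.2.1)),
      fun p => rfl, fun p => rfl⟩ (fun p => Iff.rfl)
  have c3 : cnt (fun p : (Fin T → V) × ((Fin T → V) × (Fin T → V)) =>
      ∀ l j i, P (p.2.2 i) (p.2.1 j) (p.1 l)) = S3 := by
    rw [hS3]
    refine cnt_congr ⟨fun p => (p.2.2, (p.2.1, p.1)), fun p => (p.2.2, (p.2.1, p.1)),
      fun p => rfl, fun p => rfl⟩ (fun p => ?_)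
    exact ⟨fun h i j l => h l j i, fun h i j l => h l j i⟩
  rw [c2, c3] at e3
  have h1 : (S2 : ℝ) ^ T ≤ (n ^ (2 * T)) ^ t * S3 := by
    have h2 : (S2 : ℝ) ^ T ≤
        ((Fintype.card ((Fin T → V) × (Fin T → V)) ^ t * S3 : ℕ) : ℝ) := by
      exact_mod_cast e3
    refine h2.trans (le_of_eq ?_)
    push_cast [Fintype.card_prod, Fintype.card_pi, Finset.prod_const, Finset.card_univ,
      Fintype.card_fin]
    rw [← hn]
    ring
  have h3 : (δ ^ T ^ 2 * n ^ (2 * T + 1)) ^ T ≤ (n ^ (2 * T)) ^ t * S3 :=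
    (pow_le_pow_left₀ (by positivity) e2' T).trans h1
  have h4 : (δ ^ T ^ 2 * n ^ (2 * T + 1)) ^ T =
      (n ^ (2 * T)) ^ t * (δ ^ T ^ 3 * n ^ (3 * T)) := by
    rw [hT]
    ring
  rw [h4] at h3
  exact le_of_mul_le_mul_left h3 (by positivity)

/-! ### Counting sets of vertices -/

section sets

variable {V : Type*} [Fintype V] [DecidableEq V]

/-- there are at least `β n^m` sets of size `m` with the property `P` -/
def many (β : ℝ) (m : ℕ) (P : Finset V → Prop) : Prop :=
  β * (Fintype.card V : ℝ) ^ m ≤ cnt (fun X : Finset V => X.card = m ∧ P X)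

lemma many_mono {β β' : ℝ} {m : ℕ} {P Q : Finset V → Prop} (h : many β m P) (hβ : β' ≤ β)
    (hPQ : ∀ X, X.card = m → P X → Q X) : many β' m Q := by
  unfold many at *
  have h1 : β' * (Fintype.card V : ℝ) ^ m ≤ β * (Fintype.card V : ℝ) ^ m := by
    gcongr
  refine h1.trans (h.trans ?_)
  have h2 : cnt (fun X : Finset V => X.card = m ∧ P X) ≤
      cnt (fun X : Finset V => X.card = m ∧ Q X) :=
    cnt_mono (fun X hX => ⟨hX.1, hPQ X hX.1 hX.2⟩)
  exact_mod_cast h2

lemma cnt_card_le (m : ℕ) : cnt (fun X : Finset V => X.card = m) ≤ Fintype.card V ^ m := by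
  rw [cnt_eq]
  have h1 : (univ.filter (fun X : Finset V => X.card = m)) = powersetCard m univ := by
    ext X
    simp [Finset.mem_powersetCard]
  rw [h1, Finset.card_powersetCard, Finset.card_univ]
  exact Nat.choose_le_pow _ _

/-- few sets contain a given vertex -/
lemma cnt_mem_le (m : ℕ) (v : V) :
    cnt (fun X : Finset V => X.card = m + 1 ∧ v ∈ X) ≤ Fintype.card V ^ m := by
  refine le_trans ?_ (cnt_card_le m)
  rw [cnt_eq, cnt_eq]
  refine Finset.card_le_card_of_injOn (fun X => X.erase v) ?_ ?_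
  · intro X hX
    simp only [Finset.coe_filter, Finset.mem_univ, true_and, Set.mem_ofPred_eq] at hX ⊢
    rw [Finset.card_erase_of_mem hX.2, hX.1]
    rfl
  · intro X hX Y hY hXY
    simp only [Finset.coe_filter, Finset.mem_univ, true_and, Set.mem_ofPred_eq] at hX hY
    have := congrArg (insert v) hXY
    simpa [Finset.insert_erase hX.2, Finset.insert_erase hY.2] using this

lemma cnt_meet_le (m : ℕ) (F : Finset V) :
    cnt (fun X : Finset V => X.card = m + 1 ∧ ¬ Disjoint F X) ≤
      F.card * Fintype.card V ^ m := by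
  rw [cnt_eq]
  have h1 : (univ.filter (fun X : Finset V => X.card = m + 1 ∧ ¬ Disjoint F X)) ⊆
      F.biUnion (fun v => univ.filter (fun X : Finset V => X.card = m + 1 ∧ v ∈ X)) := by
    intro X hX
    simp only [Finset.mem_filter, Finset.mem_univ, true_and, Finset.not_disjoint_iff] at hX
    obtain ⟨hc, v, hv, hvX⟩ := hX
    simp only [Finset.mem_biUnion, Finset.mem_filter, Finset.mem_univ, true_and]
    exact ⟨v, hv, hc, hvX⟩
  refine (Finset.card_le_card h1).trans ?_
  refine Finset.card_biUnion_le_card_mul _ _ _ ?_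
  intro v _
  rw [← cnt_eq]
  exact cnt_mem_le m v

/-- we can avoid a small set -/
lemma many_avoid {β : ℝ} {m : ℕ} {P : Finset V → Prop} (h : many β (m + 1) P) (F : Finset V)
    (hF : (F.card : ℝ) ≤ β / 2 * Fintype.card V) :
    many (β / 2) (m + 1) (fun X => P X ∧ Disjoint F X) := by
  unfold many at *
  have h1 : cnt (fun X : Finset V => X.card = m + 1 ∧ P X) ≤
      cnt (fun X : Finset V => X.card = m + 1 ∧ (P X ∧ Disjoint F X)) +
      cnt (fun X : Finset V => X.card = m + 1 ∧ ¬ Disjoint F X) := by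
    refine le_trans (cnt_mono ?_) (cnt_or _ _)
    intro X hX
    by_cases hd : Disjoint F X
    · exact Or.inl ⟨hX.1, hX.2, hd⟩
    · exact Or.inr ⟨hX.1, hd⟩
  have h2 := cnt_meet_le m F
  have h3 : (cnt (fun X : Finset V => X.card = m + 1 ∧ P X) : ℝ) ≤
      cnt (fun X : Finset V => X.card = m + 1 ∧ (P X ∧ Disjoint F X)) +
      F.card * (Fintype.card V : ℝ) ^ m := by
    have : cnt (fun X : Finset V => X.card = m + 1 ∧ P X) ≤
      cnt (fun X : Finset V => X.card = m + 1 ∧ (P X ∧ Disjoint F X)) +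
        F.card * Fintype.card V ^ m := h1.trans (by omega)
    exact_mod_cast this
  have h4 : F.card * (Fintype.card V : ℝ) ^ m ≤
      β / 2 * (Fintype.card V : ℝ) ^ (m + 1) := by
    calc F.card * (Fintype.card V : ℝ) ^ m
        ≤ (β / 2 * Fintype.card V) * (Fintype.card V : ℝ) ^ m := by gcongr
      _ = β / 2 * (Fintype.card V : ℝ) ^ (m + 1) := by ring
  have h5 : β * (Fintype.card V : ℝ) ^ (m + 1) =
      β / 2 * (Fintype.card V : ℝ) ^ (m + 1) + β / 2 * (Fintype.card V : ℝ) ^ (m + 1) := by ring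
  linarith

/-- products of counts -/
lemma many_union {β1 β2 : ℝ} {m1 m2 : ℕ} (hβ2 : 0 ≤ β2)
    {P R : Finset V → Prop} {Q : Finset V → Finset V → Prop}
    (h1 : many β1 m1 P) (h2 : ∀ X, X.card = m1 → P X → many β2 (m2 + 1) (Q X))
    (hF : (m1 : ℝ) ≤ β2 / 2 * Fintype.card V)
    (hR : ∀ X Y, X.card = m1 → Y.card = m2 + 1 → P X → Q X Y → Disjoint X Y → R (X ∪ Y)) :
    many (β1 * β2 / 2 / 2 ^ (m1 + (m2 + 1))) (m1 + (m2 + 1)) R := by
  classical
  set n : ℝ := (Fintype.card V : ℝ) with hn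
  -- the set of good pairs
  set A : Finset (Finset V) := univ.filter (fun X : Finset V => X.card = m1 ∧ P X) with hA
  set B : Finset V → Finset (Finset V) := fun X => univ.filter (fun Y : Finset V =>
    Y.card = m2 + 1 ∧ (Q X Y ∧ Disjoint X Y)) with hB
  have hAc : β1 * n ^ m1 ≤ (A.card : ℝ) := by
    have := h1
    unfold many at this
    rwa [cnt_eq] at this
  have hBc : ∀ X ∈ A, β2 / 2 * n ^ (m2 + 1) ≤ ((B X).card : ℝ) := by
    intro X hX
    rw [hA, Finset.mem_filter] at hX
    have h3 := many_avoid (h2 X hX.2.1 hX.2.2) X (by rw [hX.2.1]; exact hF)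
    unfold many at h3
    rwa [cnt_eq] at h3
  have hsig : (A.card : ℝ) * (β2 / 2 * n ^ (m2 + 1)) ≤ ((A.sigma B).card : ℝ) := by
    rw [Finset.card_sigma]
    push_cast
    rw [← nsmul_eq_mul]
    exact Finset.card_nsmul_le_sum _ _ _ hBc
  -- the target
  set C : Finset (Finset V) := univ.filter (fun Z : Finset V => Z.card = m1 + (m2 + 1) ∧ R Z)
    with hC
  have hmap : (A.sigma B).card ≤ 2 ^ (m1 + (m2 + 1)) * C.card := by
    refine Finset.card_le_mul_card_image_of_maps_to (f := fun p => p.1 ∪ p.2) ?_ _ ?_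
    · rintro ⟨X, Y⟩ hp
      rw [Finset.mem_sigma, hA, hB] at hp
      simp only [Finset.mem_filter, Finset.mem_univ, true_and] at hp
      rw [hC]
      simp only [Finset.mem_filter, Finset.mem_univ, true_and]
      obtain ⟨⟨hX, hPX⟩, hY, hQ, hd⟩ := hp
      refine ⟨?_, hR X Y hX hY hPX hQ hd⟩
      rw [Finset.card_union_of_disjoint hd, hX, hY]
    · intro Z hZ
      rw [hC, Finset.mem_filter] at hZ
      rw [← hZ.2.1, ← Finset.card_powerset]
      refine Finset.card_le_card_of_injOn (fun p => p.1) ?_ ?_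
      · rintro ⟨X, Y⟩ hp
        simp only [Finset.coe_filter, Set.mem_ofPred_eq] at hp
        rw [Finset.mem_coe, Finset.mem_powerset, ← hp.2]
        exact Finset.subset_union_left
      · rintro ⟨X, Y⟩ hp ⟨X', Y'⟩ hp' hXX
        simp only [Finset.coe_filter, Set.mem_ofPred_eq, Finset.mem_sigma] at hp hp' hXX
        subst hXX
        have hd : Disjoint X Y := by
          have := hp.1.2
          rw [hB] at this
          simp only [Finset.mem_filter] at this
          exact this.2.2.2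
        have hd' : Disjoint X Y' := by
          have := hp'.1.2
          rw [hB] at this
          simp only [Finset.mem_filter] at this
          exact this.2.2.2
        have h5 : Y = Z \ X := by
          rw [← hp.2, Finset.union_sdiff_cancel_left hd]
        have h6 : Y' = Z \ X := by
          rw [← hp'.2, Finset.union_sdiff_cancel_left hd']
        rw [h5, h6]
  unfold many
  rw [cnt_eq]
  change _ ≤ (C.card : ℝ)
  have h7 : ((A.sigma B).card : ℝ) ≤ 2 ^ (m1 + (m2 + 1)) * C.card := by exact_mod_cast hmap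
  have h8 : β1 * n ^ m1 * (β2 / 2 * n ^ (m2 + 1)) ≤ 2 ^ (m1 + (m2 + 1)) * C.card := by
    refine le_trans ?_ (hsig.trans h7)
    gcongr
  have h9 : (0 : ℝ) < 2 ^ (m1 + (m2 + 1)) := by positivity
  rw [← hn]
  rw [div_mul_eq_mul_div, div_le_iff₀ h9]
  calc β1 * β2 / 2 * n ^ (m1 + (m2 + 1)) = β1 * n ^ m1 * (β2 / 2 * n ^ (m2 + 1)) := by
        rw [pow_add]
        ring
    _ ≤ _ := by
        rw [mul_comm (C.card : ℝ)]
        exact h8

/-- few maps are not injective -/
lemma cnt_not_inj_le {ι : Type*} [Fintype ι] [DecidableEq ι] :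
    cnt (fun s : ι → V => ¬ Function.Injective s) ≤
      Fintype.card ι ^ 2 * Fintype.card V ^ (Fintype.card ι - 1) := by
  rw [cnt_eq]
  have h1 : (univ.filter (fun s : ι → V => ¬ Function.Injective s)) ⊆
      ((univ : Finset (ι × ι)).filter (fun p => p.1 ≠ p.2)).biUnion
        (fun p => univ.filter (fun s : ι → V => s p.1 = s p.2)) := by
    intro s hs
    have hs2 := (Finset.mem_filter.1 hs).2
    unfold Function.Injective at hs2
    push Not at hs2
    obtain ⟨i, j, h, hij⟩ := hs2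
    simp only [Finset.mem_biUnion, Finset.mem_filter, Finset.mem_univ, true_and]
    exact ⟨(i, j), hij, h⟩
  refine (Finset.card_le_card h1).trans ?_
  refine (Finset.card_biUnion_le_card_mul _ _ (Fintype.card V ^ (Fintype.card ι - 1)) ?_).trans ?_
  · rintro ⟨i, j⟩ hij
    simp only [Finset.mem_filter, Finset.mem_univ, true_and] at hij
    have h2 : Fintype.card ({l : ι // l ≠ j} → V) = Fintype.card V ^ (Fintype.card ι - 1) := by
      rw [Fintype.card_fun]
      congr 1
      rw [Fintype.card_subtype_compl, Fintype.card_subtype_eq]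
    rw [← h2]
    refine Finset.card_le_card_of_injOn (t := univ) (fun s => fun l : {l : ι // l ≠ j} => s l)
      (fun _ _ => Finset.mem_coe.2 (Finset.mem_univ _)) ?_
    intro s hs s' hs' hss
    simp only [Finset.coe_filter, Finset.mem_univ, true_and, Set.mem_ofPred_eq] at hs hs'
    funext l
    by_cases hl : l = j
    · subst hl
      rw [← hs, ← hs']
      exact congrFun hss ⟨i, hij⟩
    · exact congrFun hss ⟨l, hl⟩
  · gcongr
    refine (Finset.card_filter_le _ _).trans ?_
    rw [Finset.card_univ, Fintype.card_prod, sq]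

/-- `X` is a complete tripartite set for the relation `P`, with parts of size `t` -/
def IsTri (P : V → V → V → Prop) (t : ℕ) (X : Finset V) : Prop :=
  ∃ A B C : Finset V, A.card = t ∧ B.card = t ∧ C.card = t ∧ X = A ∪ B ∪ C ∧
    ∀ a ∈ A, ∀ b ∈ B, ∀ c ∈ C, P a b c

/-- supersaturation, in terms of maps from `Fin 3 × Fin t` -/
lemma supersat' [Nonempty V] (P : V → V → V → Prop) (t : ℕ) (ht : 1 ≤ t) (δ : ℝ)
    (hδ : 0 ≤ δ)
    (h : δ * (Fintype.card V : ℝ) ^ 3 ≤ cnt (fun p : V × V × V => P p.1 p.2.1 p.2.2)) :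
    δ ^ t ^ 3 * (Fintype.card V : ℝ) ^ (3 * t) ≤
      cnt (fun s : Fin 3 × Fin t → V => ∀ i j l, P (s (0, i)) (s (1, j)) (s (2, l))) := by
  obtain ⟨t', rfl⟩ : ∃ t', t = t' + 1 := ⟨t - 1, by omega⟩
  have h1 := supersat P t' δ hδ h
  refine h1.trans (le_of_eq ?_)
  congr 1
  refine cnt_congr ⟨fun p => fun q => ![p.1, p.2.1, p.2.2] q.1 q.2,
    fun s => (fun i => s (0, i), fun i => s (1, i), fun i => s (2, i)), ?_, ?_⟩ ?_
  · intro p
    rfl
  · intro s
    funext q
    obtain ⟨a, b⟩ := q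
    fin_cases a <;> rfl
  · intro p
    exact Iff.rfl

/-- Many complete tripartite sets. -/
theorem many_tri {δ : ℝ} (hδ : 0 < δ) (t : ℕ) (ht : 1 ≤ t) (P : V → V → V → Prop)

    (hn : 2 * (3 * t : ℝ) ^ 2 ≤ δ ^ t ^ 3 * Fintype.card V)
    (h : δ * (Fintype.card V : ℝ) ^ 3 ≤ cnt (fun p : V × V × V => P p.1 p.2.1 p.2.2)) :
    many (δ ^ t ^ 3 / 2 / (3 * t : ℝ) ^ (3 * t)) (3 * t) (IsTri P t) := by
  have hcard : Fintype.card (Fin 3 × Fin t) = 3 * t := by simp
  have hVpos : 0 < (Fintype.card V : ℝ) := by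
    by_contra hcon
    have h0 : (Fintype.card V : ℝ) = 0 := le_antisymm (not_lt.1 hcon) (Nat.cast_nonneg _)
    rw [h0, mul_zero] at hn
    have ht' : (1 : ℝ) ≤ t := by exact_mod_cast ht
    nlinarith
  have hne : Nonempty V := by
    rw [← Fintype.card_pos_iff]
    exact_mod_cast hVpos
  have h1 := supersat' P t ht δ hδ.le h
  set n : ℝ := (Fintype.card V : ℝ) with hnn
  -- injective ones
  have h2 : cnt (fun s : Fin 3 × Fin t → V => ∀ i j l, P (s (0, i)) (s (1, j)) (s (2, l))) ≤
      cnt (fun s : Fin 3 × Fin t → V => Function.Injective s ∧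
        ∀ i j l, P (s (0, i)) (s (1, j)) (s (2, l))) +
      cnt (fun s : Fin 3 × Fin t → V => ¬ Function.Injective s) := by
    refine le_trans (cnt_mono ?_) (cnt_or _ _)
    intro s hs
    by_cases hi : Function.Injective s
    · exact Or.inl ⟨hi, hs⟩
    · exact Or.inr hi
  have h3 := cnt_not_inj_le (V := V) (ι := Fin 3 × Fin t)
  rw [hcard] at h3
  have h4 : δ ^ t ^ 3 / 2 * n ^ (3 * t) ≤
      cnt (fun s : Fin 3 × Fin t → V => Function.Injective s ∧
        ∀ i j l, P (s (0, i)) (s (1, j)) (s (2, l))) := by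
    have h5 : (cnt (fun s : Fin 3 × Fin t → V =>
        ∀ i j l, P (s (0, i)) (s (1, j)) (s (2, l))) : ℝ) ≤
      cnt (fun s : Fin 3 × Fin t → V => Function.Injective s ∧
        ∀ i j l, P (s (0, i)) (s (1, j)) (s (2, l))) + (3 * t : ℝ) ^ 2 * n ^ (3 * t - 1) := by
      have h6 := h2.trans (Nat.add_le_add_left h3 _)
      rw [hnn]
      exact_mod_cast h6
    have h7 : (3 * t : ℝ) ^ 2 * n ^ (3 * t - 1) ≤ δ ^ t ^ 3 / 2 * n ^ (3 * t) := by
      have h8 : n ^ (3 * t) = n * n ^ (3 * t - 1) := by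
        rw [← pow_succ']
        congr 1
        omega
      rw [h8, ← mul_assoc]
      gcongr
      linarith
    have h9 : δ ^ t ^ 3 * n ^ (3 * t) =
      δ ^ t ^ 3 / 2 * n ^ (3 * t) + δ ^ t ^ 3 / 2 * n ^ (3 * t) := by ring
    linarith
  -- to sets
  unfold many
  have h5 : cnt (fun s : Fin 3 × Fin t → V => Function.Injective s ∧
        ∀ i j l, P (s (0, i)) (s (1, j)) (s (2, l))) ≤
      (3 * t) ^ (3 * t) * cnt (fun X : Finset V => X.card = 3 * t ∧ IsTri P t X) := by
    classical
    rw [cnt_eq, cnt_eq]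
    refine Finset.card_le_mul_card_image_of_maps_to (f := fun s => univ.image s) ?_ _ ?_
    · intro s hs
      simp only [Finset.mem_filter, Finset.mem_univ, true_and] at hs ⊢
      obtain ⟨hi, hs⟩ := hs
      refine ⟨by rw [Finset.card_image_of_injective _ hi, Finset.card_univ, hcard], ?_⟩
      have hinj : ∀ m : Fin 3, (univ.image (fun i : Fin t => s (m, i))).card = t := by
        intro m
        rw [Finset.card_image_of_injective, Finset.card_univ, Fintype.card_fin]
        intro i j hij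
        have := hi hij
        simpa using this
      refine ⟨_, _, _, hinj 0, hinj 1, hinj 2, ?_, ?_⟩
      · ext v
        simp only [Finset.mem_image, Finset.mem_univ, true_and, Finset.mem_union, Prod.exists]
        constructor
        · rintro ⟨a, b, rfl⟩
          fin_cases a
          · exact Or.inl (Or.inl ⟨b, rfl⟩)
          · exact Or.inl (Or.inr ⟨b, rfl⟩)
          · exact Or.inr ⟨b, rfl⟩
        · rintro ((⟨b, rfl⟩ | ⟨b, rfl⟩) | ⟨b, rfl⟩)
          · exact ⟨0, b, rfl⟩
          · exact ⟨1, b, rfl⟩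
          · exact ⟨2, b, rfl⟩
      · intro a ha b hb c hc
        simp only [Finset.mem_image, Finset.mem_univ, true_and] at ha hb hc
        obtain ⟨i, rfl⟩ := ha
        obtain ⟨j, rfl⟩ := hb
        obtain ⟨l, rfl⟩ := hc
        exact hs i j l
    · intro X hX
      simp only [Finset.mem_filter, Finset.mem_univ, true_and] at hX
      have h6 : (Fintype.piFinset (fun _ : Fin 3 × Fin t => X)).card = (3 * t) ^ (3 * t) := by
        rw [Fintype.card_piFinset]
        simp [hX.1]
      rw [← h6]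
      refine Finset.card_le_card ?_
      intro s hs
      simp only [Finset.mem_filter, Finset.mem_univ, true_and] at hs
      rw [Fintype.mem_piFinset]
      intro i
      rw [← hs.2]
      exact Finset.mem_image_of_mem _ (Finset.mem_univ i)
  have h6 : (0 : ℝ) < (3 * t : ℝ) ^ (3 * t) := by
    have : (1 : ℝ) ≤ t := by exact_mod_cast ht
    positivity
  rw [div_mul_eq_mul_div, div_le_iff₀ h6]
  refine h4.trans ?_
  have h7 : (cnt (fun s : Fin 3 × Fin t → V => Function.Injective s ∧
        ∀ i j l, P (s (0, i)) (s (1, j)) (s (2, l))) : ℝ) ≤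
      (((3 * t) ^ (3 * t) * cnt (fun X : Finset V => X.card = 3 * t ∧ IsTri P t X) : ℕ) : ℝ) := by
    exact_mod_cast h5
  refine h7.trans (le_of_eq ?_)
  push_cast
  ring

end sets

end Pool.Agent.R76.B50
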