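import Mathlib
import Pool.Agent.R76.B50.Count

/-!
The partition lemma for reachability.
-/

set_option autoImplicit false
set_option linter.unusedSectionVars false

namespace Pool.Agent.R76.B50

open Finset

variable {V : Type*} [Fintype V] [DecidableEq V]

/-- `X` is independent for `R` -/
def Indep (R : V → V → Prop) (X : Finset V) : Prop :=
  ∀ u ∈ X, ∀ w ∈ X, u ≠ w → ¬ R u w

/-- The partition lemma. -/
theorem partition_lemma [Nonempty V] (N : ℕ) (δ ε γ : ℝ) (hε : 0 ≤ ε)
    (R : ℕ → V → V → Prop)
    (hsymm : ∀ j u w, R j u w → R j w u)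
    (hmono : ∀ j ≤ N, ∀ u w, R j u w → R (j + 1) u w)
    (hcomp : ∀ j ≤ N, ∀ u w, u ≠ w →
      ε * Fintype.card V ≤ (cnt (fun y => R j u y ∧ R j y w) : ℝ) → R (j + 1) u w)
    (hdeg : ∀ v, δ * Fintype.card V ≤ (cnt (fun w => R 0 v w) : ℝ))
    (hind : ∀ X : Finset V, Indep (R 0) X → X.card ≤ N)
    (h1 : (N : ℝ) ^ 2 * (ε * Fintype.card V + 2) + N * (γ * Fintype.card V) ≤
      δ / 2 * Fintype.card V)
    (h2 : N * (ε * Fintype.card V + 1) ≤ δ / 2 * Fintype.card V)
    (h3 : ε ≤ γ) :
    ∃ cl : V → Fin N, (∀ u w, u ≠ w → cl u = cl w → R (N + 1) u w) ∧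
      ∀ v, γ * Fintype.card V ≤ (cnt (fun w => cl w = cl v) : ℝ) := by
  classical
  have hγ0 : 0 ≤ γ := hε.trans h3
  set n : ℝ := (Fintype.card V : ℝ) with hn
  have hn0 : 0 < n := by
    rw [hn]
    exact_mod_cast Fintype.card_pos
  have hmono' : ∀ i j, i ≤ j → j ≤ N + 1 → ∀ u w, R i u w → R j u w := by
    intro i j hij hjN u w h
    induction j, hij using Nat.le_induction with
    | base => exact h
    | succ j _ ih => exact hmono j (by omega) u w (ih (by omega))
  -- maximal sizes of independent sets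
  have hex : ∀ j, ∃ X : Finset V, Indep (R j) X ∧ ∀ Y : Finset V, Indep (R j) Y →
      Y.card ≤ X.card := by
    intro j
    have hne : (univ.filter (fun X : Finset V => Indep (R j) X)).Nonempty :=
      ⟨∅, by rw [Finset.mem_filter]; exact ⟨Finset.mem_univ _, fun u hu => absurd hu (by simp)⟩⟩
    obtain ⟨X, hX, hmax⟩ := Finset.exists_max_image _ (fun X : Finset V => X.card) hne
    refine ⟨X, (Finset.mem_filter.1 hX).2, fun Y hY => hmax Y ?_⟩
    simp [hY]
  choose Z hZ hZmax using hex
  have hanti : ∀ j ≤ N, (Z (j + 1)).card ≤ (Z j).card := by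
    intro j hjN
    apply hZmax j
    intro u hu w hw huw hR
    exact hZ (j + 1) u hu w hw huw (hmono j hjN u w hR)
  have ha0 : (Z 0).card ≤ N := hind _ (hZ 0)
  have hapos : ∀ j, 1 ≤ (Z j).card := by
    intro j
    obtain ⟨v⟩ := ‹Nonempty V›
    have : ({v} : Finset V).card ≤ (Z j).card := by
      apply hZmax j
      intro u hu w hw huw
      rw [Finset.mem_singleton] at hu hw
      exact absurd (hu.trans hw.symm) huw
    simpa using this
  obtain ⟨j, hjN, hj⟩ : ∃ j < N, (Z (j + 1)).card = (Z j).card := by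
    by_contra hcon
    push Not at hcon
    have h4 : ∀ i ≤ N, (Z i).card + i ≤ (Z 0).card := by
      intro i hi
      induction i with
      | zero => omega
      | succ i ih =>
        have h5 := ih (by omega)
        have h6 := hcon i (by omega)
        have h7 := hanti i (by omega)
        omega
    have h5 := h4 N le_rfl
    have h6 := hapos N
    omega
  set X := Z (j + 1) with hX
  have hXind : Indep (R (j + 1)) X := hZ (j + 1)
  have hXindj : Indep (R j) X := fun u hu w hw huw hR =>
    hXind u hu w hw huw (hmono j hjN.le u w hR)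
  have hmaxj : ∀ Y : Finset V, Indep (R j) Y → Y.card ≤ X.card := by
    intro Y hY
    rw [hj]
    exact hZmax j Y hY
  have hXN : X.card ≤ N := by
    refine le_trans ?_ ha0
    apply hZmax 0
    intro u hu w hw huw hR
    exact hXind u hu w hw huw (hmono' 0 (j + 1) (by omega) (by omega) u w hR)
  -- the sets U and Uo
  set U : V → Finset V := fun x => univ.filter (fun v => R j v x ∨ v = x) with hU
  have hmemU : ∀ x v, v ∈ U x ↔ (R j v x ∨ v = x) := by
    intro x v
    rw [hU]
    simp
  set Uo : V → Finset V := fun x => (U x).filter (fun v => ∀ x' ∈ X, x' ≠ x → v ∉ U x')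
    with hUo
  have hmemUo : ∀ x v, v ∈ Uo x ↔ (v ∈ U x ∧ ∀ x' ∈ X, x' ≠ x → v ∉ U x') := by
    intro x v
    rw [hUo]
    simp
  have hcover : ∀ v, ∃ x ∈ X, v ∈ U x := by
    intro v
    by_cases hv : v ∈ X
    · exact ⟨v, hv, (hmemU v v).2 (Or.inr rfl)⟩
    · by_contra hcon
      push Not at hcon
      have h4 : Indep (R j) (insert v X) := by
        intro u hu w hw huw hR
        rw [Finset.mem_insert] at hu hw
        rcases hu with rfl | hu <;> rcases hw with rfl | hw
        · exact huw rfl
        · exact hcon w hw ((hmemU w _).2 (Or.inl hR))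
        · exact hcon u hu ((hmemU u _).2 (Or.inl (hsymm j _ _ hR)))
        · exact hXindj u hu w hw huw hR
      have h5 := hmaxj _ h4
      rw [Finset.card_insert_of_notMem hv] at h5
      omega
  have hfact2 : ∀ x ∈ X, ∀ x' ∈ X, x ≠ x' → ((U x ∩ U x').card : ℝ) ≤ ε * n + 2 := by
    intro x hx x' hx' hne
    have h4 : ¬ ε * n ≤ (cnt (fun y => R j x y ∧ R j y x') : ℝ) := fun h =>
      hXind x hx x' hx' hne (hcomp j hjN.le x x' hne h)
    have h5 : U x ∩ U x' ⊆ (univ.filter (fun y => R j x y ∧ R j y x')) ∪ {x, x'} := by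
      intro y hy
      rw [Finset.mem_inter, hmemU, hmemU] at hy
      rw [Finset.mem_union]
      by_cases hyx : y = x
      · right
        simp [hyx]
      · by_cases hyx' : y = x'
        · right
          simp [hyx']
        · left
          simp only [Finset.mem_filter, Finset.mem_univ, true_and]
          exact ⟨hsymm j _ _ (hy.1.resolve_right hyx), hy.2.resolve_right hyx'⟩
    have h6 := (Finset.card_le_card h5).trans (Finset.card_union_le _ _)
    rw [← cnt_eq] at h6
    have h7 : ({x, x'} : Finset V).card ≤ 2 := Finset.card_le_two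
    have h8 : ((U x ∩ U x').card : ℝ) ≤ (cnt (fun y => R j x y ∧ R j y x') : ℝ) + 2 := by
      exact_mod_cast h6.trans (Nat.add_le_add_left h7 _)
    linarith [not_le.1 h4]
  have hfact3 : ∀ x ∈ X, ∀ u ∈ Uo x, ∀ w ∈ Uo x, u ≠ w → R j u w := by
    intro x hx u hu w hw huw
    by_contra hR
    rw [hmemUo] at hu hw
    have hself : ∀ x', x' ∈ U x' := fun x' => (hmemU x' x').2 (Or.inr rfl)
    have hu' : ∀ x' ∈ X.erase x, u ≠ x' := by
      intro x' hx' h
      rw [Finset.mem_erase] at hx'
      exact hu.2 x' hx'.2 hx'.1 (h ▸ hself x')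
    have hw' : ∀ x' ∈ X.erase x, w ≠ x' := by
      intro x' hx' h
      rw [Finset.mem_erase] at hx'
      exact hw.2 x' hx'.2 hx'.1 (h ▸ hself x')
    have h4 : Indep (R j) (insert u (insert w (X.erase x))) := by
      have hux : ∀ x' ∈ X.erase x, ¬ R j u x' := by
        intro x' hx' h
        rw [Finset.mem_erase] at hx'
        exact hu.2 x' hx'.2 hx'.1 ((hmemU x' u).2 (Or.inl h))
      have hwx : ∀ x' ∈ X.erase x, ¬ R j w x' := by
        intro x' hx' h
        rw [Finset.mem_erase] at hx'
        exact hw.2 x' hx'.2 hx'.1 ((hmemU x' w).2 (Or.inl h))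
      intro a ha b hb hab hRab
      rw [Finset.mem_insert, Finset.mem_insert] at ha hb
      rcases ha with rfl | rfl | ha <;> rcases hb with rfl | rfl | hb
      · exact hab rfl
      · exact hR hRab
      · exact hux b hb hRab
      · exact hR (hsymm j _ _ hRab)
      · exact hab rfl
      · exact hwx b hb hRab
      · exact hux a ha (hsymm j _ _ hRab)
      · exact hwx a ha (hsymm j _ _ hRab)
      · exact hXindj a (Finset.mem_of_mem_erase ha) b (Finset.mem_of_mem_erase hb) hab hRab
    have h5 := hmaxj _ h4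
    rw [Finset.card_insert_of_notMem, Finset.card_insert_of_notMem, Finset.card_erase_of_mem hx]
      at h5
    · have := hapos (j + 1)
      omega
    · intro h
      exact hw' w h rfl
    · intro h
      rw [Finset.mem_insert] at h
      rcases h with h | h
      · exact huw h
      · exact hu' u h rfl
  -- the bad vertices
  set L : Finset V := X.filter (fun x => γ * n ≤ ((Uo x).card : ℝ)) with hL
  set B : Finset V := univ.filter (fun v => ∀ x ∈ L, v ∉ Uo x) with hB
  have hBcard : (B.card : ℝ) ≤ (N : ℝ) ^ 2 * (ε * n + 2) + N * (γ * n) := by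
    have h4 : B ⊆ ((X ×ˢ X).filter (fun p => p.1 ≠ p.2)).biUnion (fun p => U p.1 ∩ U p.2) ∪
        (X \ L).biUnion Uo := by
      intro v hv
      rw [hB, Finset.mem_filter] at hv
      have hv2 := hv.2
      obtain ⟨x, hx, hvx⟩ := hcover v
      by_cases h5 : v ∈ Uo x
      · rw [Finset.mem_union]
        right
        rw [Finset.mem_biUnion]
        refine ⟨x, ?_, h5⟩
        rw [Finset.mem_sdiff]
        exact ⟨hx, fun h => hv2 x h h5⟩
      · rw [Finset.mem_union]
        left
        rw [hmemUo] at h5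
        push Not at h5
        obtain ⟨x', hx', hne, hvx'⟩ := h5 hvx
        rw [Finset.mem_biUnion]
        refine ⟨(x, x'), ?_, Finset.mem_inter.2 ⟨hvx, hvx'⟩⟩
        rw [Finset.mem_filter, Finset.mem_product]
        exact ⟨⟨hx, hx'⟩, fun h => hne h.symm⟩
    have h5 : (B.card : ℝ) ≤
        ((((X ×ˢ X).filter (fun p => p.1 ≠ p.2)).biUnion (fun p => U p.1 ∩ U p.2)).card : ℝ) +
        (((X \ L).biUnion Uo).card : ℝ) := by
      exact_mod_cast (Finset.card_le_card h4).trans (Finset.card_union_le _ _)
    have hXX : (((X ×ˢ X).filter (fun p => p.1 ≠ p.2)).card : ℝ) ≤ (N : ℝ) ^ 2 := by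
      have h6 : ((X ×ˢ X).filter (fun p => p.1 ≠ p.2)).card ≤ N ^ 2 := by
        refine (Finset.card_filter_le _ _).trans ?_
        rw [Finset.card_product, sq]
        exact Nat.mul_le_mul hXN hXN
      exact_mod_cast h6
    have h6 : ((((X ×ˢ X).filter (fun p => p.1 ≠ p.2)).biUnion
        (fun p => U p.1 ∩ U p.2)).card : ℝ) ≤ (N : ℝ) ^ 2 * (ε * n + 2) := by
      have h7 : ((((X ×ˢ X).filter (fun p => p.1 ≠ p.2)).biUnion
        (fun p => U p.1 ∩ U p.2)).card : ℝ) ≤
          ∑ p ∈ (X ×ˢ X).filter (fun p => p.1 ≠ p.2), ((U p.1 ∩ U p.2).card : ℝ) := by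
        exact_mod_cast Finset.card_biUnion_le
      refine h7.trans ?_
      calc ∑ p ∈ (X ×ˢ X).filter (fun p => p.1 ≠ p.2), ((U p.1 ∩ U p.2).card : ℝ)
          ≤ ∑ p ∈ (X ×ˢ X).filter (fun p => p.1 ≠ p.2), (ε * n + 2) := by
            refine Finset.sum_le_sum (fun p hp => ?_)
            rw [Finset.mem_filter, Finset.mem_product] at hp
            exact hfact2 p.1 hp.1.1 p.2 hp.1.2 hp.2
        _ = (((X ×ˢ X).filter (fun p => p.1 ≠ p.2)).card : ℝ) * (ε * n + 2) := by
            rw [Finset.sum_const, nsmul_eq_mul]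
        _ ≤ _ := by gcongr
    have h7 : (((X \ L).biUnion Uo).card : ℝ) ≤ N * (γ * n) := by
      have h8 : (((X \ L).biUnion Uo).card : ℝ) ≤ ∑ x ∈ X \ L, ((Uo x).card : ℝ) := by
        exact_mod_cast Finset.card_biUnion_le
      refine h8.trans ?_
      calc ∑ x ∈ X \ L, ((Uo x).card : ℝ) ≤ ∑ x ∈ X \ L, (γ * n) := by
            refine Finset.sum_le_sum (fun x hx => ?_)
            rw [Finset.mem_sdiff, hL, Finset.mem_filter] at hx
            have := hx.2
            push Not at this
            exact (this hx.1).le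
        _ = ((X \ L).card : ℝ) * (γ * n) := by rw [Finset.sum_const, nsmul_eq_mul]
        _ ≤ N * (γ * n) := by
            have h9 : ((X \ L).card : ℝ) ≤ N := by
              exact_mod_cast (Finset.card_le_card Finset.sdiff_subset).trans hXN
            have h10 : 0 ≤ γ * n := by positivity
            gcongr
    linarith
  have hBδ : (B.card : ℝ) ≤ δ / 2 * n := hBcard.trans h1
  -- uniqueness of the class of a good vertex
  have huniq : ∀ v, ∀ x ∈ X, ∀ x' ∈ X, v ∈ Uo x → v ∈ Uo x' → x = x' := by
    intro v x hx x' hx' h4 h5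
    by_contra hne
    exact ((hmemUo x v).1 h4).2 x' hx' (fun h => hne h.symm) ((hmemUo x' v).1 h5).1
  have hLX : ∀ x ∈ L, x ∈ X := fun x hx => (Finset.mem_filter.1 hx).1
  have hLbig : ∀ x ∈ L, γ * n ≤ ((Uo x).card : ℝ) := fun x hx => (Finset.mem_filter.1 hx).2
  have hN1 : 1 ≤ N := by omega
  have hNr : (1 : ℝ) ≤ N := by exact_mod_cast hN1
  -- every vertex has many neighbours in a large part
  have hchoice : ∀ v, ∃ x ∈ L, ε * n + 1 ≤ (((Uo x).filter (fun w => R 0 v w)).card : ℝ) := by
    intro v
    by_contra hcon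
    push Not at hcon
    have h4 : (univ.filter (fun w => R 0 v w)) ⊆
        B ∪ L.biUnion (fun x => (Uo x).filter (fun w => R 0 v w)) := by
      intro w hw
      rw [Finset.mem_filter] at hw
      rw [Finset.mem_union]
      by_cases h5 : w ∈ B
      · exact Or.inl h5
      · right
        have h6 : ¬ ∀ x ∈ L, w ∉ Uo x := by
          intro h7
          apply h5
          rw [hB, Finset.mem_filter]
          exact ⟨Finset.mem_univ _, h7⟩
        push Not at h6
        obtain ⟨x, hx, hwx⟩ := h6
        rw [Finset.mem_biUnion]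
        exact ⟨x, hx, Finset.mem_filter.2 ⟨hwx, hw.2⟩⟩
    have h5 := (Finset.card_le_card h4).trans (Finset.card_union_le _ _)
    rw [← cnt_eq] at h5
    have h6 := hdeg v
    have h7 : (cnt (fun w => R 0 v w) : ℝ) ≤
        (B.card : ℝ) + ∑ x ∈ L, (((Uo x).filter (fun w => R 0 v w)).card : ℝ) := by
      have h8 : cnt (fun w => R 0 v w) ≤
          B.card + ∑ x ∈ L, ((Uo x).filter (fun w => R 0 v w)).card :=
        h5.trans (Nat.add_le_add_left Finset.card_biUnion_le _)
      exact_mod_cast h8
    have hLne : L.Nonempty := by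
      rw [Finset.nonempty_iff_ne_empty]
      intro hLe
      rw [hLe] at h7
      simp only [Finset.sum_empty, add_zero] at h7
      have h9 : B = univ := by
        rw [hB, hLe]
        simp
      -- then `B` is everything
      have h10 : (B.card : ℝ) = n := by
        rw [h9, Finset.card_univ]
      have h11 : 0 < δ := by
        by_contra h12
        have : δ / 2 * n ≤ 0 := by
          have h13 : δ / 2 ≤ 0 := by linarith [not_lt.1 h12]
          exact mul_nonpos_of_nonpos_of_nonneg h13 hn0.le
        linarith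
      have h12 : δ * n ≤ n := by
        refine (hdeg v).trans ?_
        have := cnt_le (fun w => R 0 v w)
        rw [hn]
        exact_mod_cast this
      have h13 : δ / 2 * n < n := by
        have h14 : 0 < δ * n := mul_pos h11 hn0
        linarith
      linarith
    have h8 : ∑ x ∈ L, (((Uo x).filter (fun w => R 0 v w)).card : ℝ) <
        ∑ x ∈ L, (ε * n + 1) := Finset.sum_lt_sum_of_nonempty hLne (fun x hx => hcon x hx)
    rw [Finset.sum_const, nsmul_eq_mul] at h8
    have h9 : (L.card : ℝ) ≤ N := by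
      exact_mod_cast (Finset.card_le_card (Finset.filter_subset _ _)).trans hXN
    have h10 : (L.card : ℝ) * (ε * n + 1) ≤ N * (ε * n + 1) := by
      have : 0 ≤ ε * n + 1 := by positivity
      gcongr
    linarith
  choose f hfL hf using hchoice
  -- the class of a vertex
  set g : V → V := fun v => if h : ∃ x ∈ L, v ∈ Uo x then h.choose else f v with hg
  have hgL : ∀ v, g v ∈ L := by
    intro v
    by_cases h : ∃ x ∈ L, v ∈ Uo x
    · rw [hg]
      simp only [h, dif_pos]
      exact h.choose_spec.1
    · rw [hg]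
      simp only [h, dif_neg, not_false_iff]
      exact hfL v
  have hg1 : ∀ v, ∀ x ∈ L, v ∈ Uo x → g v = x := by
    intro v x hx hv
    have h : ∃ x ∈ L, v ∈ Uo x := ⟨x, hx, hv⟩
    have h4 : g v = h.choose := by
      rw [hg]
      simp only [h, dif_pos]
    rw [h4]
    exact huniq v _ (hLX _ h.choose_spec.1) x (hLX x hx) h.choose_spec.2 hv
  have hg2 : ∀ v, v ∉ Uo (g v) →
      ε * n + 1 ≤ (((Uo (g v)).filter (fun w => R 0 v w)).card : ℝ) := by
    intro v hv
    by_cases h : ∃ x ∈ L, v ∈ Uo x
    · exfalso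
      obtain ⟨x, hx, hvx⟩ := h
      rw [hg1 v x hx hvx] at hv
      exact hv hvx
    · have h4 : g v = f v := by
        rw [hg]
        simp only [h, dif_neg, not_false_iff]
      rw [h4]
      exact hf v
  -- relations within a class
  have haa : ∀ x ∈ L, ∀ u ∈ Uo x, ∀ w ∈ Uo x, u ≠ w → R j u w := fun x hx =>
    hfact3 x (hLX x hx)
  have hab : ∀ v, v ∉ Uo (g v) → ∀ u ∈ Uo (g v), R (j + 1) v u := by
    intro v hv u hu
    have hvu : v ≠ u := by
      rintro rfl
      exact hv hu
    apply hcomp j hjN.le v u hvu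
    have h4 := hg2 v hv
    have h5 : ((Uo (g v)).filter (fun w => R 0 v w)).erase u ⊆
        univ.filter (fun y => R j v y ∧ R j y u) := by
      intro y hy
      rw [Finset.mem_erase, Finset.mem_filter] at hy
      rw [Finset.mem_filter]
      exact ⟨Finset.mem_univ _, hmono' 0 j (by omega) (by omega) _ _ hy.2.2,
        haa (g v) (hgL v) y hy.2.1 u hu hy.1⟩
    have h6 := Finset.card_le_card h5
    rw [← cnt_eq] at h6
    have h7 := Finset.pred_card_le_card_erase (s := (Uo (g v)).filter (fun w => R 0 v w)) (a := u)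
    have h8 : (((Uo (g v)).filter (fun w => R 0 v w)).card : ℝ) ≤
        (cnt (fun y => R j v y ∧ R j y u) : ℝ) + 1 := by
      have : ((Uo (g v)).filter (fun w => R 0 v w)).card ≤
        cnt (fun y => R j v y ∧ R j y u) + 1 := by omega
      exact_mod_cast this
    linarith
  have hbb : ∀ v v', v ≠ v' → g v = g v' → v ∉ Uo (g v) → v' ∉ Uo (g v) →
      R (j + 2) v v' := by
    intro v v' hne hgg hv hv'
    apply hcomp (j + 1) (by omega) v v' hne
    have h5 : Uo (g v) ⊆ univ.filter (fun y => R (j + 1) v y ∧ R (j + 1) y v') := by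
      intro y hy
      rw [Finset.mem_filter]
      refine ⟨Finset.mem_univ _, hab v hv y hy, hsymm _ _ _ (hab v' ?_ y ?_)⟩
      · rw [← hgg]
        exact hv'
      · rw [← hgg]
        exact hy
    have h6 := Finset.card_le_card h5
    rw [← cnt_eq] at h6
    have h7 := hLbig (g v) (hgL v)
    have h8 : ((Uo (g v)).card : ℝ) ≤ (cnt (fun y => R (j + 1) v y ∧ R (j + 1) y v') : ℝ) := by
      exact_mod_cast h6
    have h9 : ε * n ≤ γ * n := by gcongr
    linarith
  have hrel : ∀ u w, u ≠ w → g u = g w → R (N + 1) u w := by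
    intro u w hne hgg
    by_cases hu : u ∈ Uo (g u)
    · by_cases hw : w ∈ Uo (g w)
      · rw [← hgg] at hw
        exact hmono' j (N + 1) (by omega) le_rfl _ _ (haa (g u) (hgL u) u hu w hw hne)
      · have h4 := hab w hw u (by rw [← hgg]; exact hu)
        exact hmono' (j + 1) (N + 1) (by omega) le_rfl _ _ (hsymm _ _ _ h4)
    · by_cases hw : w ∈ Uo (g w)
      · have h4 := hab u hu w (by rw [hgg]; exact hw)
        exact hmono' (j + 1) (N + 1) (by omega) le_rfl _ _ h4
      · have h4 := hbb u w hne hgg hu (by rw [hgg]; exact hw)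
        exact hmono' (j + 2) (N + 1) (by omega) le_rfl _ _ h4
  -- embed the set of classes into `Fin N`
  have hgX : ∀ v, g v ∈ X := fun v => hLX _ (hgL v)
  have hemb : Fintype.card X ≤ Fintype.card (Fin N) := by
    rw [Fintype.card_coe, Fintype.card_fin]
    exact hXN
  obtain ⟨ι⟩ := Function.Embedding.nonempty_of_card_le hemb
  refine ⟨fun v => ι ⟨g v, hgX v⟩, ?_, ?_⟩
  · intro u w hne h
    apply hrel u w hne
    have := ι.injective h
    exact congrArg Subtype.val this
  · intro v
    have h4 : Uo (g v) ⊆ univ.filter (fun w =>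
        (fun v => ι ⟨g v, hgX v⟩) w = (fun v => ι ⟨g v, hgX v⟩) v) := by
      intro w hw
      rw [Finset.mem_filter]
      refine ⟨Finset.mem_univ _, ?_⟩
      have h5 := hg1 w (g v) (hgL v) hw
      simp only
      congr 1
      exact Subtype.ext h5
    have h5 := Finset.card_le_card h4
    rw [← cnt_eq] at h5
    refine (hLbig (g v) (hgL v)).trans ?_
    exact_mod_cast h5

end Pool.Agent.R76.B50
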