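import Mathlib
import Pool.Agent.R76.B50.Part

/-!
Tilings and reachability.
-/

set_option autoImplicit false
set_option linter.unusedSectionVars false

namespace Pool.Agent.R76.B50

open Finset

variable {V : Type*} [Fintype V] [DecidableEq V]

/-- symmetric irreflexive ternary relations -/
structure Sym3 (E : V → V → V → Prop) : Prop where
  s12 : ∀ {x y z}, E x y z → E y x z
  s23 : ∀ {x y z}, E x y z → E x z y
  ne12 : ∀ {x y z}, E x y z → x ≠ y

lemma Sym3.ne13 {E : V → V → V → Prop} (hE : Sym3 E) {x y z : V} (h : E x y z) : x ≠ z :=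
  hE.ne12 (hE.s23 h)

lemma Sym3.ne23 {E : V → V → V → Prop} (hE : Sym3 E) {x y z : V} (h : E x y z) : y ≠ z :=
  hE.ne13 (hE.s12 h)

/-- `X` is a disjoint union of members of `K` -/
inductive Tile (K : Finset V → Prop) : Finset V → Prop
  | empty : Tile K ∅
  | add {X S : Finset V} : Tile K X → K S → Disjoint S X → Tile K (S ∪ X)

lemma Tile.single {K : Finset V → Prop} {S : Finset V} (h : K S) : Tile K S := by
  have := Tile.add Tile.empty h (Finset.disjoint_empty_right S)
  rwa [Finset.union_empty] at this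

lemma Tile.union {K : Finset V → Prop} {X Y : Finset V} (hX : Tile K X) (hY : Tile K Y)
    (hd : Disjoint X Y) : Tile K (X ∪ Y) := by
  induction hX with
  | empty => rwa [Finset.empty_union]
  | @add X S hX hS hSX ih =>
    rw [Finset.disjoint_union_left] at hd
    rw [Finset.union_assoc]
    refine Tile.add (ih hd.2) hS ?_
    rw [Finset.disjoint_union_right]
    exact ⟨hSX, hd.1⟩

/-- `S` connects `u` and `w` -/
def Conn (K : Finset V → Prop) (u w : V) (S : Finset V) : Prop :=
  u ∉ S ∧ w ∉ S ∧ Tile K (insert u S) ∧ Tile K (insert w S)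

lemma Conn.symm {K : Finset V → Prop} {u w : V} {S : Finset V} (h : Conn K u w S) :
    Conn K w u S := ⟨h.2.1, h.1, h.2.2.2, h.2.2.1⟩

/-- composition of connections -/
lemma conn_comp {K : Finset V → Prop} {β ε : ℝ} (hβ : 0 < β) {m : ℕ} {u w : V}
    (hn1 : 4 * (m + 2 : ℝ) ≤ β * Fintype.card V) (hn2 : 4 ≤ ε * Fintype.card V)
    (h : ε * Fintype.card V ≤
      (cnt (fun y => many β (m + 1) (Conn K u y) ∧ many β (m + 1) (Conn K y w)) : ℝ)) :
    many (ε / 2 * (β / 2) / 2 / 2 ^ (1 + (m + 1)) * (β / 2) / 2 /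
      2 ^ ((1 + (m + 1)) + (m + 1))) ((1 + (m + 1)) + (m + 1)) (Conn K u w) := by
  classical
  set n : ℝ := (Fintype.card V : ℝ) with hn
  have hn0 : 0 < n := by
    by_contra hcon
    have : n = 0 := le_antisymm (not_lt.1 hcon) (by rw [hn]; exact Nat.cast_nonneg _)
    rw [this] at hn2
    linarith
  set Y : V → Prop := fun y => many β (m + 1) (Conn K u y) ∧ many β (m + 1) (Conn K y w) with hY
  have hm0 : (0 : ℝ) ≤ m := Nat.cast_nonneg _
  -- first: single vertices
  have h1 : many (ε / 2) 1 (fun Z : Finset V => ∃ y, Z = {y} ∧ Y y ∧ y ≠ u ∧ y ≠ w) := by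
    unfold many
    have h2 : cnt Y ≤ cnt (fun y => Y y ∧ y ≠ u ∧ y ≠ w) + 2 := by
      have h3 : cnt Y ≤ cnt (fun y => Y y ∧ y ≠ u ∧ y ≠ w) + cnt (fun y => y = u ∨ y = w) := by
        refine le_trans (cnt_mono ?_) (cnt_or _ _)
        intro y hy
        by_cases h4 : y = u ∨ y = w
        · exact Or.inr h4
        · push Not at h4
          exact Or.inl ⟨hy, h4⟩
      have h4 : cnt (fun y => y = u ∨ y = w) ≤ 2 := by
        refine (cnt_or _ _).trans ?_
        rw [cnt_eq, cnt_eq]
        simp [Finset.filter_eq']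
      omega
    have h3 : cnt (fun y => Y y ∧ y ≠ u ∧ y ≠ w) ≤
        cnt (fun X : Finset V => X.card = 1 ∧ ∃ y, X = {y} ∧ Y y ∧ y ≠ u ∧ y ≠ w) := by
      rw [cnt_eq, cnt_eq]
      refine Finset.card_le_card_of_injOn (fun y => ({y} : Finset V)) ?_ ?_
      · intro y hy
        simp only [Finset.coe_filter, Finset.mem_univ, true_and, Set.mem_ofPred_eq] at hy ⊢
        exact ⟨Finset.card_singleton _, y, rfl, hy⟩
      · intro y _ y' _ h
        exact Finset.singleton_injective h
    have h4 : (cnt Y : ℝ) ≤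
        (cnt (fun X : Finset V => X.card = 1 ∧ ∃ y, X = {y} ∧ Y y ∧ y ≠ u ∧ y ≠ w) : ℝ) + 2 := by
      exact_mod_cast h2.trans (Nat.add_le_add_right h3 2)
    rw [pow_one]
    linarith
  -- second
  have h2 : many (ε / 2 * (β / 2) / 2 / 2 ^ (1 + (m + 1))) (1 + (m + 1))
      (fun Z : Finset V => ∃ y ∈ Z, w ∉ Z ∧ u ∉ Z ∧ Y y ∧ Conn K u y (Z.erase y)) := by
    refine many_union (P := fun Z : Finset V => ∃ y, Z = {y} ∧ Y y ∧ y ≠ u ∧ y ≠ w)
      (Q := fun Z S => ∀ y ∈ Z, Conn K u y S ∧ w ∉ S) (by positivity) h1 ?_ ?_ ?_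
    · rintro X - ⟨y, rfl, hy, -, -⟩
      have h3 := many_avoid hy.1 {w} (by
        rw [Finset.card_singleton, ← hn]
        push_cast
        nlinarith)
      refine many_mono h3 le_rfl ?_
      rintro S - ⟨h4, h5⟩ z hz
      rw [Finset.mem_singleton] at hz
      subst hz
      rw [Finset.disjoint_singleton_left] at h5
      exact ⟨h4, h5⟩
    · rw [← hn]
      push_cast
      nlinarith
    · rintro X S - - ⟨y, rfl, hy, hyu, hyw⟩ hQ hd
      obtain ⟨h4, h5⟩ := hQ y (Finset.mem_singleton_self y)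
      rw [Finset.disjoint_singleton_left] at hd
      refine ⟨y, by simp, ?_, ?_, hy, ?_⟩
      · simp only [Finset.mem_union, Finset.mem_singleton, not_or]
        exact ⟨fun h => hyw h.symm, h5⟩
      · simp only [Finset.mem_union, Finset.mem_singleton, not_or]
        exact ⟨fun h => hyu h.symm, h4.1⟩
      · have h6 : ({y} ∪ S).erase y = S := by
          rw [← Finset.insert_eq, Finset.erase_insert hd]
        rw [h6]
        exact h4
  -- third
  refine many_union (P := fun Z : Finset V =>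
      ∃ y ∈ Z, w ∉ Z ∧ u ∉ Z ∧ Y y ∧ Conn K u y (Z.erase y))
    (Q := fun Z S => ∃ y ∈ Z, w ∉ Z ∧ u ∉ Z ∧ Conn K u y (Z.erase y) ∧ Conn K y w S ∧ u ∉ S)
    (by positivity) h2 ?_ ?_ ?_
  · rintro Z - ⟨y, hyZ, hw, hu, hy, hc⟩
    have h3 := many_avoid hy.2 {u} (by
      rw [Finset.card_singleton, ← hn]
      push_cast
      nlinarith)
    refine many_mono h3 le_rfl ?_
    rintro S - ⟨h4, h5⟩
    rw [Finset.disjoint_singleton_left] at h5
    exact ⟨y, hyZ, hw, hu, hc, h4, h5⟩
  · rw [← hn]
    push_cast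
    linarith
  · rintro Z S - - - ⟨y, hyZ, hw, hu, ⟨-, hyS, hT1, hT2⟩, ⟨hyS', hwS', hT3, hT4⟩, huS'⟩ hd
    have hZ : insert y (Z.erase y) = Z := Finset.insert_erase hyZ
    refine ⟨?_, ?_, ?_, ?_⟩
    · rw [Finset.mem_union]
      rintro (h | h)
      · exact hu h
      · exact huS' h
    · rw [Finset.mem_union]
      rintro (h | h)
      · exact hw h
      · exact hwS' h
    · have h3 : insert u (Z ∪ S) = insert u (Z.erase y) ∪ insert y S := by
        conv_lhs => rw [← hZ]
        ext a
        simp only [Finset.mem_insert, Finset.mem_union]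
        tauto
      rw [h3]
      refine Tile.union hT1 hT3 ?_
      rw [Finset.disjoint_left]
      intro a ha hb
      rw [Finset.mem_insert] at ha hb
      rcases ha with rfl | ha <;> rcases hb with rfl | hb
      · exact hu hyZ
      · exact huS' hb
      · exact hyS ha
      · exact Finset.disjoint_left.1 hd (Finset.mem_of_mem_erase ha) hb
    · have h3 : insert w (Z ∪ S) = Z ∪ insert w S := by
        ext a
        simp only [Finset.mem_insert, Finset.mem_union]
        tauto
      rw [h3]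
      rw [hZ] at hT2
      refine Tile.union hT2 hT4 ?_
      rw [Finset.disjoint_left]
      intro a ha hb
      rw [Finset.mem_insert] at hb
      rcases hb with rfl | hb
      · exact hw ha
      · exact Finset.disjoint_left.1 hd ha hb

/-- padding of connections -/
lemma conn_pad {K : Finset V → Prop} {β κ : ℝ} (hκ : 0 < κ) {m p : ℕ} {u w : V}
    (hn1 : 4 * (m + 2 : ℝ) ≤ κ * Fintype.card V)
    (h : many β m (Conn K u w)) (hT : many κ (p + 1) (Tile K)) :
    many (β * (κ / 2) / 2 / 2 ^ (m + (p + 1))) (m + (p + 1)) (Conn K u w) := by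
  have hm0 : (0 : ℝ) ≤ m := Nat.cast_nonneg _
  refine many_union (P := Conn K u w) (Q := fun _ S => Tile K S ∧ Disjoint {u, w} S)
    (by positivity) h ?_ ?_ ?_
  · intro X _ _
    refine many_avoid hT {u, w} ?_
    have h2 : (({u, w} : Finset V).card : ℝ) ≤ 2 := by exact_mod_cast Finset.card_le_two
    linarith
  · linarith
  · rintro X Y - - ⟨hu, hw, hT1, hT2⟩ ⟨hY, hd⟩ hXY
    have huY : u ∉ Y := Finset.disjoint_left.1 hd (by simp)
    have hwY : w ∉ Y := Finset.disjoint_left.1 hd (by simp)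
    refine ⟨?_, ?_, ?_, ?_⟩
    · simp [hu, huY]
    · simp [hw, hwY]
    · rw [← Finset.insert_union]
      exact Tile.union hT1 hY (by
        rw [Finset.disjoint_insert_left]
        exact ⟨huY, hXY⟩)
    · rw [← Finset.insert_union]
      exact Tile.union hT2 hY (by
        rw [Finset.disjoint_insert_left]
        exact ⟨hwY, hXY⟩)

/-- many tileable sets -/
lemma tile_double {K : Finset V → Prop} {κ : ℝ} (hκ : 0 < κ) {p : ℕ}
    (hn1 : 4 * (p + 1 : ℝ) ≤ κ * Fintype.card V) (hT : many κ (p + 1) (Tile K)) :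
    many (κ * κ / 2 / 2 ^ ((p + 1) + (p + 1))) ((p + 1) + (p + 1)) (Tile K) := by
  have hm0 : (0 : ℝ) ≤ p := Nat.cast_nonneg _
  refine many_union (P := Tile K) (Q := fun _ S => Tile K S) hκ.le hT (fun _ _ _ => hT) ?_ ?_
  · push_cast
    linarith
  · intro X Y _ _ hX hY hd
    exact Tile.union hX hY hd

end Pool.Agent.R76.B50
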