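import Mathlib
import Pool.Agent.R76.B50.Reach

/-!
The closed partition.
-/

set_option autoImplicit false
set_option linter.unusedSectionVars false

namespace Pool.Agent.R76.B50

open Finset

universe u

section base

variable {V : Type u} [Fintype V] [DecidableEq V]

lemma cnt_prod_ge {α β : Type*} [Fintype α] [Fintype β] (P : α → β → Prop) (Q : β → Prop)
    (x : ℝ) (h : ∀ b, Q b → x ≤ (cnt (fun a => P a b) : ℝ)) :
    (cnt Q : ℝ) * x ≤ (cnt (fun p : α × β => P p.1 p.2) : ℝ) := by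
  classical
  have h1 : cnt (fun p : α × β => P p.1 p.2) = ∑ b : β, cnt (fun a => P a b) := by
    rw [cnt_eq, Finset.card_filter, Fintype.sum_prod_type_right]
    refine Finset.sum_congr rfl (fun b _ => ?_)
    rw [cnt_eq, Finset.card_filter]
  rw [h1, cnt_eq, ← nsmul_eq_mul]
  push_cast
  calc (univ.filter (fun b => Q b)).card • x ≤
      ∑ b ∈ univ.filter (fun b => Q b), (cnt (fun a => P a b) : ℝ) := by
        refine Finset.card_nsmul_le_sum _ _ _ (fun b hb => ?_)
        exact h b (Finset.mem_filter.1 hb).2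
    _ ≤ ∑ b : β, (cnt (fun a => P a b) : ℝ) :=
        Finset.sum_le_sum_of_subset_of_nonneg (Finset.filter_subset _ _)
          (fun _ _ _ => Nat.cast_nonneg _)

lemma cnt_ne (u : V) : (cnt (fun y : V => y ≠ u) : ℝ) = Fintype.card V - 1 := by
  rw [cnt_eq, Finset.filter_ne' univ u, Finset.card_erase_of_mem (Finset.mem_univ u),
    Finset.card_univ]
  have : 1 ≤ Fintype.card V := Fintype.card_pos_iff.2 ⟨u⟩
  push_cast [this]
  ring

/-- vertex degrees from pair degrees -/
lemma cnt_link {E : V → V → V → Prop} {c : ℝ}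
    (hpair : ∀ u v, u ≠ v → c * Fintype.card V ≤ (cnt (fun w => E u v w) : ℝ)) (u : V) :
    (Fintype.card V - 1 : ℝ) * (c * Fintype.card V) ≤
      (cnt (fun p : V × V => E u p.2 p.1) : ℝ) := by
  have := cnt_prod_ge (fun (z : V) (y : V) => E u y z) (fun y : V => y ≠ u)
    (c * Fintype.card V) (fun y hy => hpair u y (Ne.symm hy))
  rwa [cnt_ne] at this

/-- rooted supersaturation -/
lemma rooted {E : V → V → V → Prop} (hE : Sym3 E) {c : ℝ} (hc : 0 < c)
    (hpair : ∀ u v, u ≠ v → c * Fintype.card V ≤ (cnt (fun w => E u v w) : ℝ))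
    (k : ℕ) (hk : 1 ≤ k)
    (hn2 : (2 : ℝ) ≤ Fintype.card V)
    (hn : 2 * (3 * k : ℝ) ^ 2 ≤ (c ^ 2 / 2) ^ k ^ 3 * Fintype.card V) (u : V) :
    many ((c ^ 2 / 2) ^ k ^ 3 / 2 / (3 * k : ℝ) ^ (3 * k)) (3 * k)
      (IsTri (fun x y z => E x y z ∧ E u y z) k) := by
  refine many_tri (by positivity) k hk _ hn ?_
  set n : ℝ := (Fintype.card V : ℝ) with hnn
  have h1 := cnt_prod_ge (fun (x : V) (p : V × V) => E x p.1 p.2 ∧ E u p.1 p.2)
    (fun p : V × V => E u p.1 p.2) (c * n) (by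
      rintro ⟨y, z⟩ hyz
      simp only at hyz
      refine (hpair y z (hE.ne23 hyz)).trans ?_
      have : cnt (fun w => E y z w) ≤ cnt (fun a => E a y z ∧ E u y z) :=
        cnt_mono (fun w hw => ⟨hE.s12 (hE.s23 hw), hyz⟩)
      exact_mod_cast this)
  have h2 := cnt_link hpair u
  have h3 : cnt (fun p : V × V => E u p.2 p.1) = cnt (fun p : V × V => E u p.1 p.2) :=
    cnt_congr (Equiv.prodComm V V) (fun p => Iff.rfl)
  rw [h3] at h2
  refine le_trans ?_ h1
  have h4 : n / 2 * (c * n) ≤ (cnt (fun p : V × V => E u p.1 p.2) : ℝ) := by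
    refine le_trans ?_ h2
    have : 0 ≤ c * n := by positivity
    gcongr
    linarith
  calc c ^ 2 / 2 * n ^ 3 = (n / 2 * (c * n)) * (c * n) := by ring
    _ ≤ _ := by
      have : 0 ≤ c * n := by positivity
      gcongr

lemma isTri_card {E : V → V → V → Prop} (hE : Sym3 E) {k : ℕ} (hk : 1 ≤ k) {X : Finset V}
    (h : IsTri E k X) : X.card = 3 * k := by
  obtain ⟨A, B, C, hA, hB, hC, rfl, h⟩ := h
  obtain ⟨a0, ha0⟩ : A.Nonempty := Finset.card_pos.1 (by omega)
  obtain ⟨b0, hb0⟩ : B.Nonempty := Finset.card_pos.1 (by omega)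
  obtain ⟨c0, hc0⟩ : C.Nonempty := Finset.card_pos.1 (by omega)
  have hAB : Disjoint A B := by
    rw [Finset.disjoint_left]
    intro x hx hx'
    exact hE.ne12 (h x hx x hx' c0 hc0) rfl
  have hAC : Disjoint A C := by
    rw [Finset.disjoint_left]
    intro x hx hx'
    exact hE.ne13 (h x hx b0 hb0 x hx') rfl
  have hBC : Disjoint B C := by
    rw [Finset.disjoint_left]
    intro x hx hx'
    exact hE.ne23 (h a0 ha0 x hx x hx') rfl
  rw [Finset.card_union_of_disjoint, Finset.card_union_of_disjoint hAB, hA, hB, hC]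
  · ring
  · rw [Finset.disjoint_union_left]
    exact ⟨hAC, hBC⟩

/-- the total number of connections from `u` -/
lemma sum_conn {E : V → V → V → Prop} (hE : Sym3 E) {c : ℝ} (hc : 0 < c)
    (hpair : ∀ u v, u ≠ v → c * Fintype.card V ≤ (cnt (fun w => E u v w) : ℝ))
    (k : ℕ) (hk : 1 ≤ k)
    (hn2 : (2 : ℝ) ≤ Fintype.card V)
    (hn : 2 * (3 * k : ℝ) ^ 2 ≤ (c ^ 2 / 2) ^ k ^ 3 * Fintype.card V)
    (hn3 : (1 : ℝ) ≤ (c ^ 2 / 2) ^ k ^ 3 / 2 / (3 * k : ℝ) ^ (3 * k) / 2 * Fintype.card V)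
    (u : V) :
    (c ^ 2 / 2) ^ k ^ 3 / 2 / (3 * k : ℝ) ^ (3 * k) / 2 * (Fintype.card V : ℝ) ^ (3 * k) ≤
      ∑ w : V, (cnt (fun S : Finset V => S.card = 3 * k - 1 ∧
        Conn (IsTri E k) u w S) : ℝ) := by
  classical
  have h1 := rooted hE hc hpair k hk hn2 hn u
  obtain ⟨m, hm⟩ : ∃ m, 3 * k = m + 1 := ⟨3 * k - 1, by omega⟩
  rw [hm] at h1
  have h2 := many_avoid h1 {u} (by
    rw [Finset.card_singleton]
    rw [hm] at hn3
    exact_mod_cast hn3)
  unfold many at h2
  rw [hm]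
  refine h2.trans ?_
  have h3 : cnt (fun X : Finset V => X.card = m + 1 ∧
      (IsTri (fun x y z => E x y z ∧ E u y z) k X ∧ Disjoint {u} X)) ≤
      (univ.sigma (fun w : V => univ.filter (fun S : Finset V => S.card = m + 1 - 1 ∧
        Conn (IsTri E k) u w S))).card := by
    rw [cnt_eq]
    -- choose a vertex of the first part
    have hex : ∀ X : Finset V, ∃ w : V, (X.card = m + 1 ∧
      (IsTri (fun x y z => E x y z ∧ E u y z) k X ∧ Disjoint {u} X)) →
      w ∈ X ∧ Conn (IsTri E k) u w (X.erase w) := by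
      intro X
      by_cases hX : X.card = m + 1 ∧
        (IsTri (fun x y z => E x y z ∧ E u y z) k X ∧ Disjoint {u} X)
      · obtain ⟨-, ⟨A, B, C, hA, hB, hC, rfl, h⟩, hd⟩ := hX
        rw [Finset.disjoint_singleton_left] at hd
        obtain ⟨w, hw⟩ : A.Nonempty := Finset.card_pos.1 (by omega)
        obtain ⟨b0, hb0⟩ : B.Nonempty := Finset.card_pos.1 (by omega)
        obtain ⟨c0, hc0⟩ : C.Nonempty := Finset.card_pos.1 (by omega)
        have hwB : w ∉ B := fun hx => hE.ne12 (h w hw w hx c0 hc0).1 rfl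
        have hwC : w ∉ C := fun hx => hE.ne13 (h w hw b0 hb0 w hx).1 rfl
        refine ⟨w, fun _ => ⟨by simp [hw], ?_, ?_, ?_, ?_⟩⟩
        · intro h'
          exact hd (Finset.mem_of_mem_erase h')
        · exact Finset.notMem_erase _ _
        · have h4 : insert u ((A ∪ B ∪ C).erase w) = (insert u (A.erase w)) ∪ B ∪ C := by
            ext a
            simp only [Finset.mem_insert, Finset.mem_erase, Finset.mem_union]
            constructor
            · rintro (h' | ⟨h', (h'' | h'') | h''⟩)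
              · exact Or.inl (Or.inl (Or.inl h'))
              · exact Or.inl (Or.inl (Or.inr ⟨h', h''⟩))
              · exact Or.inl (Or.inr h'')
              · exact Or.inr h''
            · rintro (((h' | ⟨h', h''⟩) | h'') | h'')
              · exact Or.inl h'
              · exact Or.inr ⟨h', Or.inl (Or.inl h'')⟩
              · exact Or.inr ⟨fun h5 => hwB (h5 ▸ h''), Or.inl (Or.inr h'')⟩
              · exact Or.inr ⟨fun h5 => hwC (h5 ▸ h''), Or.inr h''⟩
          rw [h4]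
          apply Tile.single
          refine ⟨insert u (A.erase w), B, C, ?_, hB, hC, rfl, ?_⟩
          · rw [Finset.card_insert_of_notMem, Finset.card_erase_of_mem hw, hA]
            · omega
            · intro h5
              exact hd (by simp [Finset.mem_of_mem_erase h5])
          · intro a ha b hb c' hc'
            rw [Finset.mem_insert] at ha
            rcases ha with rfl | ha
            · exact (h w hw b hb c' hc').2
            · exact (h a (Finset.mem_of_mem_erase ha) b hb c' hc').1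
        · rw [Finset.insert_erase (by simp [hw])]
          apply Tile.single
          exact ⟨A, B, C, hA, hB, hC, rfl, fun a ha b hb c' hc' => (h a ha b hb c' hc').1⟩
      · exact ⟨u, fun h => absurd h hX⟩
    choose f hf using hex
    refine Finset.card_le_card_of_injOn (fun X => ⟨f X, X.erase (f X)⟩) ?_ ?_
    · intro X hX
      rw [Finset.mem_coe, Finset.mem_filter] at hX
      rw [Finset.mem_coe, Finset.mem_sigma, Finset.mem_filter]
      have h4 := hf X hX.2
      refine ⟨Finset.mem_univ _, Finset.mem_univ _, ?_, h4.2⟩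
      rw [Finset.card_erase_of_mem h4.1, hX.2.1]
    · intro X hX Y hY hXY
      rw [Finset.mem_coe, Finset.mem_filter] at hX hY
      simp only [Sigma.mk.injEq, heq_eq_eq] at hXY
      have h4 := (hf X hX.2).1
      have h5 := (hf Y hY.2).1
      rw [← Finset.insert_erase h4, ← Finset.insert_erase h5, hXY.2, hXY.1]
  rw [Finset.card_sigma] at h3
  have h4 : ∀ w : V, (univ.filter (fun S : Finset V => S.card = m + 1 - 1 ∧
        Conn (IsTri E k) u w S)).card = cnt (fun S : Finset V => S.card = m + 1 - 1 ∧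
        Conn (IsTri E k) u w S) := fun w => (cnt_eq _).symm
  simp_rw [h4] at h3
  exact_mod_cast h3

/-- many vertices are reachable -/
lemma base_deg {K : Finset V → Prop} {α b : ℝ} {m : ℕ} (u : V)
    (h : α * (Fintype.card V : ℝ) ^ (m + 1) ≤
      ∑ w : V, (cnt (fun S : Finset V => S.card = m ∧ Conn K u w S) : ℝ)) (hb : 0 ≤ b)
    (hn0 : 0 < (Fintype.card V : ℝ)) :
    (α - b) * Fintype.card V ≤ (cnt (fun w => many b m (Conn K u w)) : ℝ) := by
  classical
  set n : ℝ := (Fintype.card V : ℝ) with hn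
  have h1 : ∀ w : V, (cnt (fun S : Finset V => S.card = m ∧ Conn K u w S) : ℝ) ≤
      (if many b m (Conn K u w) then 1 else 0) * n ^ m + b * n ^ m := by
    intro w
    by_cases hw : many b m (Conn K u w)
    · rw [if_pos hw, one_mul]
      have h2 : cnt (fun S : Finset V => S.card = m ∧ Conn K u w S) ≤ Fintype.card V ^ m :=
        (cnt_mono (fun S hS => hS.1)).trans (cnt_card_le m)
      have h3 : (cnt (fun S : Finset V => S.card = m ∧ Conn K u w S) : ℝ) ≤ n ^ m := by
        rw [hn]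
        exact_mod_cast h2
      have h4 : 0 ≤ b * n ^ m := by positivity
      linarith
    · rw [if_neg hw, zero_mul, zero_add]
      unfold many at hw
      exact (not_le.1 hw).le
  have h2 : α * n ^ (m + 1) ≤ (cnt (fun w => many b m (Conn K u w)) : ℝ) * n ^ m +
      n * (b * n ^ m) := by
    refine h.trans ((Finset.sum_le_sum (fun w _ => h1 w)).trans (le_of_eq ?_))
    rw [Finset.sum_add_distrib, ← Finset.sum_mul, Finset.sum_const, Finset.card_univ,
      nsmul_eq_mul, cnt_eq, Finset.card_filter]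
    push_cast
    rfl
  have h3 : 0 < n ^ m := by positivity
  have h4 : (α - b) * n * n ^ m ≤ (cnt (fun w => many b m (Conn K u w)) : ℝ) * n ^ m := by
    have : α * n ^ (m + 1) = α * n * n ^ m := by ring
    rw [this] at h2
    nlinarith
  exact le_of_mul_le_mul_right h4 h3

/-- a bounded number of pairwise non-reachable vertices -/
lemma base_ind {K : Finset V → Prop} {α b : ℝ} {m : ℕ} {N : ℕ}
    (h : ∀ u, α * (Fintype.card V : ℝ) ^ m ≤
      (cnt (fun S : Finset V => S.card = m ∧ u ∉ S ∧ Tile K (insert u S)) : ℝ))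
    (hN : 2 ≤ α * (N + 1)) (hb : b * (N + 1) ^ 2 ≤ 1)
    (hn0 : 0 < (Fintype.card V : ℝ))
    (X : Finset V) (hX : Indep (fun u w => many b m (Conn K u w)) X) : X.card ≤ N := by
  classical
  by_contra hcon
  obtain ⟨Y, hYX, hYc⟩ := Finset.exists_subset_card_eq (s := X) (n := N + 1) (by omega)
  set n : ℝ := (Fintype.card V : ℝ) with hn
  set 𝒮 : Finset (Finset V) := univ.filter (fun S : Finset V => S.card = m) with hS
  set x : Finset V → V → ℝ := fun S v => if v ∉ S ∧ Tile K (insert v S) then 1 else 0 with hx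
  have h1 : ∀ S : Finset V, 2 * (∑ v ∈ Y, x S v) - 1 ≤ (∑ v ∈ Y, x S v) ^ 2 := by
    intro S
    nlinarith [sq_nonneg ((∑ v ∈ Y, x S v) - 1)]
  have h2 : 2 * (∑ S ∈ 𝒮, ∑ v ∈ Y, x S v) - 𝒮.card ≤ ∑ S ∈ 𝒮, (∑ v ∈ Y, x S v) ^ 2 := by
    calc 2 * (∑ S ∈ 𝒮, ∑ v ∈ Y, x S v) - 𝒮.card =
        ∑ S ∈ 𝒮, (2 * (∑ v ∈ Y, x S v) - 1) := by
          rw [Finset.sum_sub_distrib, ← Finset.mul_sum, Finset.sum_const, nsmul_eq_mul, mul_one]
      _ ≤ _ := Finset.sum_le_sum (fun S _ => h1 S)
  have h3 : ∑ S ∈ 𝒮, ∑ v ∈ Y, x S v = ∑ v ∈ Y,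
      (cnt (fun S : Finset V => S.card = m ∧ v ∉ S ∧ Tile K (insert v S)) : ℝ) := by
    rw [Finset.sum_comm]
    refine Finset.sum_congr rfl (fun v _ => ?_)
    rw [cnt_eq, hS, Finset.sum_filter, Finset.card_filter]
    push_cast
    refine Finset.sum_congr rfl (fun S _ => ?_)
    rw [hx]
    by_cases h4 : S.card = m <;> by_cases h5 : v ∉ S ∧ Tile K (insert v S) <;> simp [h4, h5]
  have h4 : ∑ S ∈ 𝒮, (∑ v ∈ Y, x S v) ^ 2 = ∑ v ∈ Y, ∑ w ∈ Y, ∑ S ∈ 𝒮, x S v * x S w := by
    have h5 : ∀ S, (∑ v ∈ Y, x S v) ^ 2 = ∑ v ∈ Y, ∑ w ∈ Y, x S v * x S w := by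
      intro S
      rw [sq, Finset.sum_mul_sum]
    simp_rw [h5]
    rw [Finset.sum_comm]
    refine Finset.sum_congr rfl (fun v _ => ?_)
    rw [Finset.sum_comm]
  have h5 : ∀ v ∈ Y, ∀ w ∈ Y, v ≠ w → ∑ S ∈ 𝒮, x S v * x S w ≤ b * n ^ m := by
    intro v hv w hw hvw
    have h6 := hX v (hYX hv) w (hYX hw) hvw
    unfold many at h6
    refine le_trans (le_of_eq ?_) (not_le.1 h6).le
    rw [cnt_eq, hS, Finset.sum_filter, Finset.card_filter]
    push_cast
    refine Finset.sum_congr rfl (fun S _ => ?_)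
    rw [hx]
    unfold Conn
    by_cases h4 : S.card = m
    · rw [if_pos h4]
      simp only [h4, true_and]
      by_cases h5 : v ∉ S ∧ Tile K (insert v S)
      · by_cases h6 : w ∉ S ∧ Tile K (insert w S)
        · rw [if_pos h5, if_pos h6, if_pos ⟨h5.1, h6.1, h5.2, h6.2⟩]
          norm_num
        · rw [if_neg h6, mul_zero, if_neg (fun h => h6 ⟨h.2.1, h.2.2.2⟩)]
      · rw [if_neg h5, zero_mul, if_neg (fun h => h5 ⟨h.1, h.2.2.1⟩)]
    · rw [if_neg h4, if_neg (fun h => h4 h.1)]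
  have h6 : ∀ v ∈ Y, ∑ S ∈ 𝒮, x S v * x S v ≤
      (cnt (fun S : Finset V => S.card = m ∧ v ∉ S ∧ Tile K (insert v S)) : ℝ) := by
    intro v _
    refine le_of_eq ?_
    rw [cnt_eq, hS, Finset.sum_filter, Finset.card_filter]
    push_cast
    refine Finset.sum_congr rfl (fun S _ => ?_)
    rw [hx]
    by_cases h4 : S.card = m <;> by_cases h5 : v ∉ S ∧ Tile K (insert v S) <;> simp [h4, h5]
  have h7 : ∑ v ∈ Y, ∑ w ∈ Y, ∑ S ∈ 𝒮, x S v * x S w ≤
      ∑ v ∈ Y, ((cnt (fun S : Finset V => S.card = m ∧ v ∉ S ∧ Tile K (insert v S)) : ℝ) +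
        N * (b * n ^ m)) := by
    refine Finset.sum_le_sum (fun v hv => ?_)
    rw [← Finset.add_sum_erase Y _ hv]
    refine add_le_add (h6 v hv) ?_
    calc ∑ w ∈ Y.erase v, ∑ S ∈ 𝒮, x S v * x S w ≤ ∑ w ∈ Y.erase v, b * n ^ m := by
          refine Finset.sum_le_sum (fun w hw => ?_)
          rw [Finset.mem_erase] at hw
          exact h5 v hv w hw.2 (Ne.symm hw.1)
      _ = N * (b * n ^ m) := by
          rw [Finset.sum_const, Finset.card_erase_of_mem hv, hYc, nsmul_eq_mul]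
          simp
  rw [Finset.sum_add_distrib, Finset.sum_const, hYc, nsmul_eq_mul] at h7
  have h8 : (𝒮.card : ℝ) ≤ n ^ m := by
    rw [hS, ← cnt_eq, hn]
    exact_mod_cast cnt_card_le m
  have h9 : ∑ v ∈ Y, α * n ^ m ≤ ∑ v ∈ Y,
      (cnt (fun S : Finset V => S.card = m ∧ v ∉ S ∧ Tile K (insert v S)) : ℝ) :=
    Finset.sum_le_sum (fun v _ => h v)
  rw [Finset.sum_const, hYc, nsmul_eq_mul] at h9
  rw [h4, h3] at h2
  push_cast at h7 h9
  have h10 : 0 < n ^ m := by positivity
  have h11 : (N + 1 : ℝ) * (N * (b * n ^ m)) < n ^ m := by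
    have hN0 : (0 : ℝ) ≤ N := Nat.cast_nonneg _
    by_cases hb0 : b ≤ 0
    · have : (N + 1 : ℝ) * (N * (b * n ^ m)) ≤ 0 := by
        have h12 : b * n ^ m ≤ 0 := mul_nonpos_of_nonpos_of_nonneg hb0 h10.le
        have h13 : N * (b * n ^ m) ≤ 0 := mul_nonpos_of_nonneg_of_nonpos hN0 h12
        exact mul_nonpos_of_nonneg_of_nonpos (by linarith) h13
      linarith
    · have hb1 : 0 < b := not_le.1 hb0
      have h12 : (N + 1 : ℝ) * N * b < 1 := by
        have : (N + 1 : ℝ) * N * b < b * (N + 1) ^ 2 := by nlinarith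
        linarith
      calc (N + 1 : ℝ) * (N * (b * n ^ m)) = ((N + 1 : ℝ) * N * b) * n ^ m := by ring
        _ < 1 * n ^ m := by gcongr
        _ = n ^ m := one_mul _
  have h12 : 2 * n ^ m ≤ (N + 1 : ℝ) * (α * n ^ m) := by
    calc 2 * n ^ m ≤ (α * (N + 1)) * n ^ m := by gcongr
      _ = _ := by ring
  linarith

end base

end Pool.Agent.R76.B50
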