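import Mathlib
import Pool.Agent.R76.B50.Closed

/-!
The closed partition theorem.
-/

set_option autoImplicit false
set_option linter.unusedSectionVars false

namespace Pool.Agent.R76.B50

open Finset

universe u

/-- sizes of connections -/
def ms (k : ℕ) : ℕ → ℕ
  | 0 => 3 * k - 2
  | j + 1 => 2 * ms k j + 2

/-- densities of connections and of tileable sets -/
noncomputable def bs (k : ℕ) (ε b0 κ0 : ℝ) : ℕ → ℝ × ℝ
  | 0 => (b0, κ0)
  | j + 1 =>
    (min (ε / 2 * ((bs k ε b0 κ0 j).1 / 2) / 2 / 2 ^ (1 + (ms k j + 1)) *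
        ((bs k ε b0 κ0 j).1 / 2) / 2 / 2 ^ ((1 + (ms k j + 1)) + (ms k j + 1)))
      ((bs k ε b0 κ0 j).1 * ((bs k ε b0 κ0 j).2 / 2) / 2 /
        2 ^ ((ms k j + 1) + ((ms k j + 1) + 1))),
     (bs k ε b0 κ0 j).2 * (bs k ε b0 κ0 j).2 / 2 /
        2 ^ (((ms k j + 1) + 1) + ((ms k j + 1) + 1)))

lemma bs_pos (k : ℕ) {ε b0 κ0 : ℝ} (hε : 0 < ε) (hb : 0 < b0) (hκ : 0 < κ0) (j : ℕ) :
    0 < (bs k ε b0 κ0 j).1 ∧ 0 < (bs k ε b0 κ0 j).2 := by
  induction j with
  | zero => exact ⟨hb, hκ⟩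
  | succ j ih =>
    obtain ⟨h1, h2⟩ := ih
    refine ⟨?_, ?_⟩
    · change 0 < min _ _
      rw [lt_min_iff]
      constructor <;> positivity
    · change 0 < _ * _ / 2 / _
      positivity

lemma ev_le {A B : ℝ} (hB : 0 < B) : ∀ᶠ n : ℕ in Filter.atTop, A ≤ B * (n : ℝ) := by
  have h := (tendsto_natCast_atTop_atTop (R := ℝ)).const_mul_atTop hB
  exact h.eventually_ge_atTop A

/-- The closed partition theorem. -/
theorem closed_partition (k : ℕ) (hk : 1 ≤ k) (c : ℝ) (hc : 0 < c) :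
    ∃ (N t : ℕ) (β γ : ℝ) (n0 : ℕ), 0 < β ∧ 0 < γ ∧
      ∀ (V : Type u) [Fintype V] [DecidableEq V] (E : V → V → V → Prop), Sym3 E →
        n0 ≤ Fintype.card V →
        (∀ u v, u ≠ v → c * Fintype.card V ≤ (cnt (fun w => E u v w) : ℝ)) →
        ∃ cl : V → Fin N,
          (∀ u w, u ≠ w → cl u = cl w → many β (t + 1) (Conn (IsTri E k) u w)) ∧
          ∀ v, γ * Fintype.card V ≤ (cnt (fun w => cl w = cl v) : ℝ) := by
  set β0 : ℝ := (c ^ 2 / 2) ^ k ^ 3 / 2 / (3 * k : ℝ) ^ (3 * k) with hβ0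
  have hk' : (1 : ℝ) ≤ k := by exact_mod_cast hk
  have hβ0pos : 0 < β0 := by positivity
  set N : ℕ := ⌈4 / β0⌉₊ with hN
  have hN1 : 4 / β0 ≤ N := Nat.le_ceil _
  have hNpos : (0 : ℝ) < N := lt_of_lt_of_le (by positivity) hN1
  have hN1' : (1 : ℝ) ≤ N := by
    have : 0 < N := by exact_mod_cast hNpos
    exact_mod_cast this
  set b0 : ℝ := min (β0 / 4) (1 / (N + 1) ^ 2) with hb0
  have hb0pos : 0 < b0 := by
    rw [hb0, lt_min_iff]
    constructor <;> positivity
  set δ : ℝ := β0 / 4 with hδ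
  have hδpos : 0 < δ := by positivity
  set ε : ℝ := δ / (8 * N ^ 2) with hε
  have hεpos : 0 < ε := by positivity
  set γ : ℝ := δ / (8 * N) with hγ
  have hγpos : 0 < γ := by positivity
  set s : ℕ → ℝ × ℝ := bs k ε b0 β0 with hs
  have hspos : ∀ j, 0 < (s j).1 ∧ 0 < (s j).2 := bs_pos k hεpos hb0pos hβ0pos
  have hc0 : 0 < (c ^ 2 / 2) ^ k ^ 3 := by positivity
  -- largeness conditions
  have hev : ∀ᶠ n : ℕ in Filter.atTop, (2 : ℝ) ≤ n ∧
      2 * (3 * k : ℝ) ^ 2 ≤ (c ^ 2 / 2) ^ k ^ 3 * n ∧ (1 : ℝ) ≤ β0 / 2 * n ∧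
      (∀ j ∈ Finset.range (N + 1), 4 * (ms k j + 2 : ℝ) ≤ (s j).1 * n) ∧
      (∀ j ∈ Finset.range (N + 1), 4 * (ms k j + 3 : ℝ) ≤ (s j).2 * n) ∧
      4 ≤ ε * (n : ℝ) ∧ 2 * (N : ℝ) ^ 2 ≤ δ / 4 * n ∧ (N : ℝ) ≤ δ / 4 * n := by
    refine (ev_le (A := 2) one_pos).mp ?_
    refine (ev_le (A := 2 * (3 * k : ℝ) ^ 2) hc0).mp ?_
    refine (ev_le (A := 1) (B := β0 / 2) (by positivity)).mp ?_
    have h1 : ∀ᶠ n : ℕ in Filter.atTop,
        ∀ j ∈ Finset.range (N + 1), 4 * (ms k j + 2 : ℝ) ≤ (s j).1 * n :=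
      (Filter.eventually_all_finset _).2 (fun j _ => ev_le (hspos j).1)
    have h2 : ∀ᶠ n : ℕ in Filter.atTop,
        ∀ j ∈ Finset.range (N + 1), 4 * (ms k j + 3 : ℝ) ≤ (s j).2 * n :=
      (Filter.eventually_all_finset _).2 (fun j _ => ev_le (hspos j).2)
    refine h1.mp (h2.mp ?_)
    refine (ev_le (A := 4) hεpos).mp ?_
    refine (ev_le (A := 2 * (N : ℝ) ^ 2) (B := δ / 4) (by positivity)).mp ?_
    refine (ev_le (A := (N : ℝ)) (B := δ / 4) (by positivity)).mono ?_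
    intro n a1 a2 a3 a4 a5 a6 a7 a8
    exact ⟨by linarith, a7, a6, a5, a4, a3, a2, a1⟩
  obtain ⟨n0, hn0⟩ := Filter.eventually_atTop.1 hev
  refine ⟨N, ms k (N + 1), (s (N + 1)).1, γ, n0, (hspos _).1, hγpos, ?_⟩
  intro V _ _ E hE hcard hpair
  obtain ⟨hn2, hn3, hn4, hn5, hn6, hn7, hn8, hn9⟩ := hn0 _ hcard
  set n : ℝ := (Fintype.card V : ℝ) with hn
  have hnpos : 0 < n := by linarith
  have hne : Nonempty V := by
    rw [← Fintype.card_pos_iff]
    have h0 : (0 : ℝ) < (Fintype.card V : ℝ) := hnpos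
    exact_mod_cast h0
  set K := IsTri E k with hK
  have h3k : 3 * k = (3 * k - 2) + 2 := by omega
  have h3k' : 3 * k - 1 = (3 * k - 2) + 1 := by omega
  -- tileable sets
  have htile : ∀ j ≤ N + 1, many (s j).2 (ms k j + 2) (Tile K) := by
    intro j hj
    induction j with
    | zero =>
      obtain ⟨u⟩ := hne
      have h1 := rooted hE hc hpair k hk hn2 hn3 u
      rw [h3k] at h1
      refine many_mono h1 ?_ ?_
      · change β0 ≤ _
        rw [← h3k]
      · rintro X - ⟨A, B, C, hA, hB, hC, hX, h⟩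
        exact Tile.single ⟨A, B, C, hA, hB, hC, hX, fun a ha b hb c hc => (h a ha b hb c hc).1⟩
    | succ j ih =>
      have h1 := ih (by omega)
      have h2 := hn6 j (by rw [Finset.mem_range]; omega)
      have h3 := tile_double (K := K) (κ := (s j).2) (p := ms k j + 1) (hspos j).2
        (by push_cast; linarith) h1
      have h4 : (ms k j + 1 + 1) + (ms k j + 1 + 1) = ms k (j + 1) + 2 := by
        change _ = (2 * ms k j + 2) + 2
        omega
      rw [h4] at h3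
      refine many_mono h3 ?_ (fun _ _ h => h)
      rw [← h4]
      exact le_rfl
  have hrelmono : ∀ j ≤ N, ∀ u w, many (s j).1 (ms k j + 1) (Conn K u w) →
      many (s (j + 1)).1 (ms k (j + 1) + 1) (Conn K u w) := by
    intro j hj u w h
    have h2 := hn6 j (by rw [Finset.mem_range]; omega)
    have h3 := conn_pad (K := K) (β := (s j).1) (κ := (s j).2) (hspos j).2 (m := ms k j + 1)
      (p := ms k j + 1) (u := u) (w := w) (by push_cast; linarith) h (htile j (by omega))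
    have h4 : (ms k j + 1) + (ms k j + 1 + 1) = ms k (j + 1) + 1 := by
      change _ = (2 * ms k j + 2) + 1
      omega
    rw [h4] at h3
    refine many_mono h3 ?_ (fun _ _ h => h)
    rw [← h4]
    exact min_le_right _ _
  have hrelcomp : ∀ j ≤ N, ∀ u w, u ≠ w →
      ε * n ≤ (cnt (fun y => many (s j).1 (ms k j + 1) (Conn K u y) ∧
        many (s j).1 (ms k j + 1) (Conn K y w)) : ℝ) →
      many (s (j + 1)).1 (ms k (j + 1) + 1) (Conn K u w) := by
    intro j hj u w _ h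
    have h2 := hn5 j (by rw [Finset.mem_range]; omega)
    have h3 := conn_comp (K := K) (β := (s j).1) (ε := ε) (hspos j).1 (m := ms k j)
      (u := u) (w := w) h2 hn7 h
    have h4 : (1 + (ms k j + 1)) + (ms k j + 1) = ms k (j + 1) + 1 := by
      change _ = (2 * ms k j + 2) + 1
      omega
    rw [h4] at h3
    refine many_mono h3 ?_ (fun _ _ h => h)
    rw [← h4]
    exact min_le_left _ _
  -- base estimates
  have hsum : ∀ u : V, β0 / 2 * n ^ (ms k 0 + 1 + 1) ≤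
      ∑ w : V, (cnt (fun S : Finset V => S.card = ms k 0 + 1 ∧ Conn K u w S) : ℝ) := by
    intro u
    have h1 := sum_conn hE hc hpair k hk hn2 hn3 hn4 u
    have h4 : ms k 0 + 1 + 1 = 3 * k := by
      change (3 * k - 2) + 1 + 1 = 3 * k
      omega
    have h5 : ms k 0 + 1 = 3 * k - 1 := by
      change (3 * k - 2) + 1 = 3 * k - 1
      omega
    rw [h4, h5]
    exact h1
  have hb04 : b0 ≤ β0 / 4 := min_le_left _ _
  have hdeg : ∀ v : V, δ * n ≤
      (cnt (fun w => many (s 0).1 (ms k 0 + 1) (Conn K v w)) : ℝ) := by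
    intro v
    have h1 := base_deg (K := K) (α := β0 / 2) (b := b0) v (hsum v) hb0pos.le hnpos
    refine le_trans ?_ h1
    rw [← hn]
    gcongr
    rw [hδ]
    linarith
  have hind : ∀ X : Finset V,
      Indep (fun u w => many (s 0).1 (ms k 0 + 1) (Conn K u w)) X → X.card ≤ N := by
    intro X hX
    refine base_ind (K := K) (α := β0 / 2) (b := b0) (N := N) ?_ ?_ ?_ hnpos X hX
    · intro u
      have h1 := hsum u
      have h2 : ∑ w : V, (cnt (fun S : Finset V => S.card = ms k 0 + 1 ∧ Conn K u w S) : ℝ) ≤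
          ∑ w : V, (cnt (fun S : Finset V => S.card = ms k 0 + 1 ∧ u ∉ S ∧
            Tile K (insert u S)) : ℝ) := by
        refine Finset.sum_le_sum (fun w _ => ?_)
        have : cnt (fun S : Finset V => S.card = ms k 0 + 1 ∧ Conn K u w S) ≤
            cnt (fun S : Finset V => S.card = ms k 0 + 1 ∧ u ∉ S ∧ Tile K (insert u S)) :=
          cnt_mono (fun S hS => ⟨hS.1, hS.2.1, hS.2.2.2.1⟩)
        exact_mod_cast this
      rw [Finset.sum_const, Finset.card_univ, nsmul_eq_mul, ← hn] at h2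
      have h3 : n * (β0 / 2 * n ^ (ms k 0 + 1)) ≤ n * (cnt (fun S : Finset V =>
          S.card = ms k 0 + 1 ∧ u ∉ S ∧ Tile K (insert u S)) : ℝ) := by
        refine le_trans (le_of_eq ?_) (h1.trans h2)
        ring
      exact le_of_mul_le_mul_left h3 hnpos
    · rw [div_le_iff₀ hβ0pos] at hN1
      nlinarith
    · have h1 : b0 ≤ 1 / (N + 1) ^ 2 := min_le_right _ _
      have h2 : (0 : ℝ) < (N + 1) ^ 2 := by positivity
      calc b0 * (N + 1) ^ 2 ≤ 1 / (N + 1) ^ 2 * (N + 1) ^ 2 := by gcongr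
        _ = 1 := by field_simp
  have hNε : (N : ℝ) ^ 2 * ε = δ / 8 := by
    rw [hε]
    field_simp
  have hNγ : (N : ℝ) * γ = δ / 8 := by
    rw [hγ]
    field_simp
  have hNε' : (N : ℝ) * ε ≤ δ / 8 := by
    rw [← hNε]
    have : (N : ℝ) ≤ N ^ 2 := by nlinarith
    gcongr
  obtain ⟨cl, h1, h2⟩ := partition_lemma N δ ε γ hεpos.le
    (fun j u w => many (s j).1 (ms k j + 1) (Conn K u w))
    (fun j u w h => many_mono h le_rfl (fun _ _ h => h.symm))
    hrelmono hrelcomp hdeg hind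
    (by
      rw [← hn]
      have e1 : (N : ℝ) ^ 2 * (ε * n + 2) + N * (γ * n) =
        ((N : ℝ) ^ 2 * ε) * n + 2 * (N : ℝ) ^ 2 + (N * γ) * n := by ring
      rw [e1, hNε, hNγ]
      linarith)
    (by
      rw [← hn]
      have e1 : (N : ℝ) * (ε * n + 1) = (N * ε) * n + N := by ring
      rw [e1]
      have e2 : (N * ε) * n ≤ δ / 8 * n := by gcongr
      have e3 : 0 < δ * n := by positivity
      linarith)
    (by
      have e1 : (N : ℝ) * ε ≤ N * γ := by
        rw [hNγ]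
        exact hNε'
      exact le_of_mul_le_mul_left e1 hNpos)
  exact ⟨cl, h1, h2⟩

end Pool.Agent.R76.B50
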