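import Mathlib

/-!
The lattice generated by the types.
-/

set_option autoImplicit false
set_option linter.unusedSectionVars false

namespace Pool.Agent.R76.B50

open Finset

/-- multiplicity vector of a type -/
def mlt {N : ℕ} (τ : Fin N × Fin N × Fin N) (x : Fin N) : ℕ :=
  (if τ.1 = x then 1 else 0) + (if τ.2.1 = x then 1 else 0) + (if τ.2.2 = x then 1 else 0)

lemma clear_den {ι : Type*} [Fintype ι] (c : ι → ℚ) :
    ∃ D : ℕ, 0 < D ∧ ∃ z : ι → ℤ, ∀ i, (D : ℚ) * c i = z i := by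
  classical
  refine ⟨∏ i, (c i).den, Finset.prod_pos (fun i _ => (c i).den_pos),
    fun i => (∏ j ∈ univ.erase i, ((c j).den : ℤ)) * (c i).num, fun i => ?_⟩
  rw [← Finset.mul_prod_erase univ (fun i => (c i).den) (Finset.mem_univ i)]
  push_cast
  have h := Rat.mul_den_eq_num (c i)
  calc ((c i).den : ℚ) * (∏ j ∈ univ.erase i, ((c j).den : ℚ)) * c i
      = (∏ j ∈ univ.erase i, ((c j).den : ℚ)) * (c i * (c i).den) := by ring
    _ = _ := by rw [h]

lemma lattice_one {N : ℕ} (I : Finset (Fin N)) (𝒟 : Finset (Fin N × Fin N × Fin N))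
    (h : ∀ i ∈ I, ∀ j ∈ I, ∃ l ∈ I, (i, j, l) ∈ 𝒟) :
    ∃ D : ℕ, 0 < D ∧ ∃ co : Fin N → (Fin N × Fin N × Fin N) → ℤ,
      (∀ i τ, τ ∉ 𝒟 → co i τ = 0) ∧
      ∀ i ∈ I, ∀ x, ∑ τ, co i τ * (mlt τ x : ℤ) = if i = x then (D : ℤ) else 0 := by
  classical
  set v : (Fin N × Fin N × Fin N) → (Fin N → ℚ) :=
    fun τ x => if τ ∈ 𝒟 then (mlt τ x : ℚ) else 0 with hv
  set W : Subspace ℚ (Fin N → ℚ) := Submodule.span ℚ (Set.range v) with hW
  have hmem : ∀ i ∈ I, (Pi.single i 1 : Fin N → ℚ) ∈ W := by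
    intro i hi
    rw [← Subspace.forall_mem_dualAnnihilator_apply_eq_zero_iff]
    intro φ hφ
    rw [Submodule.mem_dualAnnihilator] at hφ
    set f : Fin N → ℚ := fun x => φ (Pi.single x 1) with hf
    have hsum : ∀ y : Fin N → ℚ, φ y = ∑ x, y x * f x := by
      intro y
      rw [LinearMap.pi_apply_eq_sum_univ φ y]
      refine Finset.sum_congr rfl (fun x _ => ?_)
      rw [smul_eq_mul, hf]
      congr 2
      funext z
      simp only [Pi.single_apply]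
      congr 1
      exact propext eq_comm
    have hrel : ∀ a b l, (a, b, l) ∈ 𝒟 → f a + f b + f l = 0 := by
      intro a b l hd
      have h1 := hφ (v (a, b, l)) (Submodule.subset_span ⟨_, rfl⟩)
      rw [hsum] at h1
      simp only [hv, hd, if_true, mlt] at h1
      push_cast at h1
      simp only [add_mul, Finset.sum_add_distrib, ite_mul, one_mul, zero_mul,
        Finset.sum_ite_eq, Finset.mem_univ, if_true] at h1
      exact h1
    obtain ⟨p, hp, hpm⟩ := Finset.exists_max_image I f ⟨i, hi⟩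
    obtain ⟨q, hq, hqm⟩ := Finset.exists_min_image I f ⟨i, hi⟩
    obtain ⟨l1, hl1, hd1⟩ := h p hp p hp
    obtain ⟨l2, hl2, hd2⟩ := h q hq q hq
    have e1 := hrel _ _ _ hd1
    have e2 := hrel _ _ _ hd2
    have e3 := hqm l1 hl1
    have e4 := hpm l2 hl2
    have e5 := hpm i hi
    have e6 := hqm i hi
    have e7 : f i = 0 := by
      apply le_antisymm <;> linarith
    exact e7
  have hc : ∀ i : Fin N, ∃ c : (Fin N × Fin N × Fin N) → ℚ, i ∈ I →
      ∑ τ, c τ • v τ = Pi.single i 1 := by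
    intro i
    by_cases hi : i ∈ I
    · obtain ⟨c, hc⟩ := (Submodule.mem_span_range_iff_exists_fun ℚ).1 (hmem i hi)
      exact ⟨c, fun _ => hc⟩
    · exact ⟨0, fun h => absurd h hi⟩
  choose c hc using hc
  obtain ⟨D, hD, z, hz⟩ := clear_den (fun p : Fin N × (Fin N × Fin N × Fin N) => c p.1 p.2)
  refine ⟨D, hD, fun i τ => if τ ∈ 𝒟 then z (i, τ) else 0, ?_, ?_⟩
  · intro i τ hτ
    exact if_neg hτ
  · intro i hi x
    have h1 := congrFun (hc i hi) x
    rw [Finset.sum_apply] at h1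
    have h2 : ((∑ τ, (if τ ∈ 𝒟 then z (i, τ) else 0) * (mlt τ x : ℤ) : ℤ) : ℚ) =
        ((if i = x then (D : ℤ) else 0 : ℤ) : ℚ) := by
      push_cast
      have h3 : ∀ τ, (if τ ∈ 𝒟 then (z (i, τ) : ℚ) else 0) * (mlt τ x : ℚ) =
          D * ((c i τ • v τ) x) := by
        intro τ
        simp only [Pi.smul_apply, smul_eq_mul, hv]
        split_ifs with h4
        · rw [← hz (i, τ)]
          ring
        · ring
      simp_rw [h3]
      rw [← Finset.mul_sum, h1, Pi.single_apply]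
      by_cases h5 : i = x
      · rw [if_pos h5, if_pos h5.symm, mul_one]
      · rw [if_neg h5, if_neg (fun h => h5 h.symm), mul_zero]
    exact_mod_cast h2

/-- uniform version -/
theorem lattice_all (N : ℕ) : ∃ D0 N0 : ℕ, 0 < D0 ∧
    ∀ (I : Finset (Fin N)) (𝒟 : Finset (Fin N × Fin N × Fin N)),
      (∀ i ∈ I, ∀ j ∈ I, ∃ l ∈ I, (i, j, l) ∈ 𝒟) →
      ∃ co : Fin N → (Fin N × Fin N × Fin N) → ℤ,
      (∀ i τ, |co i τ| ≤ N0) ∧ (∀ i τ, τ ∉ 𝒟 → co i τ = 0) ∧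
      ∀ i ∈ I, ∀ x, ∑ τ, co i τ * (mlt τ x : ℤ) = if i = x then (D0 : ℤ) else 0 := by
  classical
  have h1 : ∀ p : Finset (Fin N) × Finset (Fin N × Fin N × Fin N),
      ∃ D : ℕ, 0 < D ∧ ∃ co : Fin N → (Fin N × Fin N × Fin N) → ℤ,
      (∀ i τ, τ ∉ p.2 → co i τ = 0) ∧
      ((∀ i ∈ p.1, ∀ j ∈ p.1, ∃ l ∈ p.1, (i, j, l) ∈ p.2) →
        ∀ i ∈ p.1, ∀ x, ∑ τ, co i τ * (mlt τ x : ℤ) = if i = x then (D : ℤ) else 0) := by
    intro p
    by_cases h : ∀ i ∈ p.1, ∀ j ∈ p.1, ∃ l ∈ p.1, (i, j, l) ∈ p.2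
    · obtain ⟨D, hD, co, h2, h3⟩ := lattice_one p.1 p.2 h
      exact ⟨D, hD, co, h2, fun _ => h3⟩
    · exact ⟨1, one_pos, fun _ _ => 0, fun _ _ _ => rfl, fun h' => absurd h' h⟩
  choose D hD co h2 h3 using h1
  set D0 : ℕ := ∏ p, D p with hD0
  set co' : (Finset (Fin N) × Finset (Fin N × Fin N × Fin N)) → Fin N →
    (Fin N × Fin N × Fin N) → ℤ := fun p i τ => (∏ p' ∈ univ.erase p, (D p' : ℤ)) * co p i τ
    with hco'
  refine ⟨D0, ∑ p, ∑ i, ∑ τ, (co' p i τ).natAbs, Finset.prod_pos (fun p _ => hD p), ?_⟩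
  intro I 𝒟 hI
  refine ⟨co' (I, 𝒟), ?_, ?_, ?_⟩
  · intro i τ
    rw [Int.abs_eq_natAbs]
    norm_cast
    calc (co' (I, 𝒟) i τ).natAbs ≤ ∑ τ, (co' (I, 𝒟) i τ).natAbs :=
          Finset.single_le_sum (f := fun τ => (co' (I, 𝒟) i τ).natAbs)
            (fun _ _ => Nat.zero_le _) (Finset.mem_univ τ)
      _ ≤ ∑ i, ∑ τ, (co' (I, 𝒟) i τ).natAbs :=
          Finset.single_le_sum (f := fun i => ∑ τ, (co' (I, 𝒟) i τ).natAbs)
            (fun _ _ => Nat.zero_le _) (Finset.mem_univ i)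
      _ ≤ _ := Finset.single_le_sum (f := fun p => ∑ i, ∑ τ, (co' p i τ).natAbs)
            (fun _ _ => Nat.zero_le _) (Finset.mem_univ (I, 𝒟))
  · intro i τ hτ
    rw [hco']
    simp only
    rw [h2 (I, 𝒟) i τ hτ, mul_zero]
  · intro i hi x
    have h4 := h3 (I, 𝒟) hI i hi x
    rw [hco']
    simp only
    simp_rw [mul_assoc]
    rw [← Finset.mul_sum, h4]
    split_ifs with h5
    · rw [hD0, ← Finset.mul_prod_erase univ D (Finset.mem_univ (I, 𝒟))]
      push_cast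
      ring
    · ring

end Pool.Agent.R76.B50
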