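import Mathlib
import Pool.Agent.R76.B50.Closed2
import Pool.Agent.R76.B50.Lattice

/-!
Absorbers: counting, greedy choice, absorption.
-/

set_option autoImplicit false
set_option linter.unusedSectionVars false

namespace Pool.Agent.R76.B50

open Finset

universe u

variable {V : Type u} [Fintype V] [DecidableEq V]

/-- constants -/
noncomputable def cb (β : ℝ) (t : ℕ) : ℕ → ℝ
  | 0 => 1
  | j + 1 => cb β t j * (β / 2) / 2 / 2 ^ (j * (t + 1) + (t + 1))

lemma cb_pos {β : ℝ} (hβ : 0 < β) (t j : ℕ) : 0 < cb β t j := by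
  induction j with
  | zero => exact one_pos
  | succ j ih =>
    change 0 < cb β t j * (β / 2) / 2 / 2 ^ (j * (t + 1) + (t + 1))
    positivity

/-- `S` connects the sets `U` and `W` -/
def ConnS (K : Finset V → Prop) (U W S : Finset V) : Prop :=
  Disjoint U S ∧ Disjoint W S ∧ Tile K (U ∪ S) ∧ Tile K (W ∪ S)

lemma tile_join {K : Finset V → Prop} {U X Y : Finset V} {a : V} (h1 : Tile K (U ∪ X))
    (h2 : Tile K (insert a Y)) (haU : a ∉ U) (haX : a ∉ X) (hUY : Disjoint U Y)
    (hXY : Disjoint X Y) : Tile K (insert a U ∪ (X ∪ Y)) := by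
  have h3 : insert a U ∪ (X ∪ Y) = (U ∪ X) ∪ insert a Y := by
    ext v
    simp only [Finset.mem_union, Finset.mem_insert]
    tauto
  rw [h3]
  refine Tile.union h1 h2 ?_
  rw [Finset.disjoint_insert_right, Finset.disjoint_union_left, Finset.mem_union, not_or]
  exact ⟨⟨haU, haX⟩, hUY, hXY⟩

lemma many_connS {ι : Type*} [DecidableEq ι] {K : Finset V → Prop} {β : ℝ} (hβ : 0 < β)
    {t : ℕ} (u w : ι → V) (s : Finset ι) :
    ∀ F : Finset V, (∀ a ∈ s, ∀ b ∈ s, u a = u b → a = b) →
      (∀ a ∈ s, ∀ b ∈ s, w a = w b → a = b) →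
      (∀ a ∈ s, ∀ b ∈ s, u a ≠ w b) →
      (∀ a ∈ s, many β (t + 1) (Conn K (u a) (w a))) →
      ((F.card : ℝ) + 2 * s.card ≤ β / 2 * Fintype.card V) →
      ((s.card : ℝ) * (t + 1) ≤ β / 4 * Fintype.card V) →
      many (cb β t s.card) (s.card * (t + 1))
        (fun S => Disjoint F S ∧ ConnS K (s.image u) (s.image w) S) := by
  classical
  induction s using Finset.induction_on with
  | empty =>
    intro F _ _ _ _ _ _
    unfold many
    have h1 : 0 < cnt (fun X : Finset V => X.card = (∅ : Finset ι).card * (t + 1) ∧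
        (Disjoint F X ∧ ConnS K ((∅ : Finset ι).image u) ((∅ : Finset ι).image w) X)) := by
      rw [cnt_eq, Finset.card_pos]
      refine ⟨∅, ?_⟩
      rw [Finset.mem_filter]
      refine ⟨Finset.mem_univ _, by simp, Finset.disjoint_empty_right _, ?_⟩
      refine ⟨Finset.disjoint_empty_right _, Finset.disjoint_empty_right _, ?_, ?_⟩
      · simpa using Tile.empty
      · simpa using Tile.empty
    rw [Finset.card_empty] at h1 ⊢
    rw [zero_mul, pow_zero, mul_one]
    change (1 : ℝ) ≤ _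
    rw [zero_mul] at h1
    exact_mod_cast h1
  | insert a s ha ih =>
    intro F hu hw huw hconn hF hs
    rw [Finset.card_insert_of_notMem ha] at hF hs ⊢
    push_cast at hF hs
    have hcF : ((insert (u a) (insert (w a) F)).card : ℝ) ≤ F.card + 2 := by
      have h1 := Finset.card_insert_le (u a) (insert (w a) F)
      have h2 := Finset.card_insert_le (w a) F
      have h3 : (insert (u a) (insert (w a) F)).card ≤ F.card + 2 := by omega
      exact_mod_cast h3
    have hβn : 0 ≤ β / 2 * (Fintype.card V : ℝ) := by positivity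
    have hs0 : (0 : ℝ) ≤ s.card := Nat.cast_nonneg _
    have ht0 : (0 : ℝ) ≤ t := Nat.cast_nonneg _
    have ih' := ih (insert (u a) (insert (w a) F))
      (fun x hx y hy => hu x (Finset.mem_insert_of_mem hx) y (Finset.mem_insert_of_mem hy))
      (fun x hx y hy => hw x (Finset.mem_insert_of_mem hx) y (Finset.mem_insert_of_mem hy))
      (fun x hx y hy => huw x (Finset.mem_insert_of_mem hx) y (Finset.mem_insert_of_mem hy))
      (fun x hx => hconn x (Finset.mem_insert_of_mem hx))
      (by linarith) (by nlinarith)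
    have hua : u a ∉ s.image u := by
      intro h
      obtain ⟨b, hb, hb'⟩ := Finset.mem_image.1 h
      have := hu b (Finset.mem_insert_of_mem hb) a (Finset.mem_insert_self a s) hb'
      exact ha (this ▸ hb)
    have hwa : w a ∉ s.image w := by
      intro h
      obtain ⟨b, hb, hb'⟩ := Finset.mem_image.1 h
      have := hw b (Finset.mem_insert_of_mem hb) a (Finset.mem_insert_self a s) hb'
      exact ha (this ▸ hb)
    have e1 : (s.card + 1) * (t + 1) = s.card * (t + 1) + (t + 1) := by ring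
    rw [e1]
    change many (cb β t s.card * (β / 2) / 2 / 2 ^ (s.card * (t + 1) + (t + 1))) _ _
    refine many_union (P := fun S => Disjoint (insert (u a) (insert (w a) F)) S ∧
        ConnS K (s.image u) (s.image w) S)
      (Q := fun _ Y => Conn K (u a) (w a) Y ∧ Disjoint (F ∪ s.image u ∪ s.image w) Y)
      (by positivity) ih' ?_ ?_ ?_
    · intro X _ _
      refine many_avoid (hconn a (Finset.mem_insert_self a s)) _ ?_
      have h1 : (F ∪ s.image u ∪ s.image w).card ≤ F.card + s.card + s.card := by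
        refine (Finset.card_union_le _ _).trans (add_le_add ?_ Finset.card_image_le)
        exact (Finset.card_union_le _ _).trans (add_le_add le_rfl Finset.card_image_le)
      have h2 : ((F ∪ s.image u ∪ s.image w).card : ℝ) ≤ F.card + s.card + s.card := by
        exact_mod_cast h1
      linarith
    · push_cast
      nlinarith
    · rintro X Y - - ⟨hFX, hc1, hc2, hc3, hc4⟩ ⟨⟨hY1, hY2, hY3, hY4⟩, hFY⟩ hXY
      rw [Finset.disjoint_insert_left, Finset.disjoint_insert_left] at hFX
      rw [Finset.disjoint_union_left, Finset.disjoint_union_left] at hFY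
      refine ⟨?_, ?_, ?_, ?_, ?_⟩
      · rw [Finset.disjoint_union_right]
        exact ⟨hFX.2.2, hFY.1.1⟩
      · rw [Finset.image_insert, Finset.disjoint_insert_left, Finset.disjoint_union_right,
          Finset.mem_union, not_or]
        exact ⟨⟨hFX.1, hY1⟩, hc1, hFY.1.2⟩
      · rw [Finset.image_insert, Finset.disjoint_insert_left, Finset.disjoint_union_right,
          Finset.mem_union, not_or]
        exact ⟨⟨hFX.2.1, hY2⟩, hc2, hFY.2⟩
      · rw [Finset.image_insert]
        exact tile_join hc3 hY3 hua hFX.1 hFY.1.2 hXY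
      · rw [Finset.image_insert]
        exact tile_join hc4 hY4 hwa hFX.2.1 hFY.2 hXY

lemma exists_lab {k : ℕ} {A B C : Finset V} (hA : A.card = k) (hB : B.card = k)
    (hC : C.card = k) :
    ∃ w : Fin 3 × Fin k → V, (∀ j, w (0, j) ∈ A) ∧ (∀ j, w (1, j) ∈ B) ∧ (∀ j, w (2, j) ∈ C) ∧
      univ.image w = A ∪ B ∪ C := by
  classical
  set f : Fin k → V := fun j => ((Finset.equivFinOfCardEq hA).symm j : V) with hf
  set g : Fin k → V := fun j => ((Finset.equivFinOfCardEq hB).symm j : V) with hg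
  set h : Fin k → V := fun j => ((Finset.equivFinOfCardEq hC).symm j : V) with hh
  refine ⟨fun q => ![f q.2, g q.2, h q.2] q.1, ?_, ?_, ?_, ?_⟩
  · intro j
    exact ((Finset.equivFinOfCardEq hA).symm j).2
  · intro j
    exact ((Finset.equivFinOfCardEq hB).symm j).2
  · intro j
    exact ((Finset.equivFinOfCardEq hC).symm j).2
  · ext v
    simp only [Finset.mem_image, Finset.mem_univ, true_and, Finset.mem_union, Prod.exists]
    constructor
    · rintro ⟨a, b, rfl⟩
      fin_cases a
      · exact Or.inl (Or.inl ((Finset.equivFinOfCardEq hA).symm b).2)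
      · exact Or.inl (Or.inr ((Finset.equivFinOfCardEq hB).symm b).2)
      · exact Or.inr ((Finset.equivFinOfCardEq hC).symm b).2
    · rintro ((hv | hv) | hv)
      · refine ⟨0, Finset.equivFinOfCardEq hA ⟨v, hv⟩, ?_⟩
        change f _ = v
        rw [hf]
        simp
      · refine ⟨1, Finset.equivFinOfCardEq hB ⟨v, hv⟩, ?_⟩
        change g _ = v
        rw [hg]
        simp
      · refine ⟨2, Finset.equivFinOfCardEq hC ⟨v, hv⟩, ?_⟩
        change h _ = v
        rw [hh]
        simp

/-- the classes of a labelled family -/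
def HasType {N k : ℕ} (cl : V → Fin N) (T : Fin 3 × Fin k → V)
    (τ : Fin N × Fin N × Fin N) : Prop :=
  ∀ j, cl (T (0, j)) = τ.1 ∧ cl (T (1, j)) = τ.2.1 ∧ cl (T (2, j)) = τ.2.2

/-- absorption -/
def Absorbs (K : Finset V → Prop) (T Z : Finset V) : Prop :=
  Disjoint T Z ∧ Tile K Z ∧ Tile K (Z ∪ T)

/-- edges of a given type -/
def EType {N : ℕ} (E : V → V → V → Prop) (cl : V → Fin N) (τ : Fin N × Fin N × Fin N)
    (a b c : V) : Prop := E a b c ∧ cl a = τ.1 ∧ cl b = τ.2.1 ∧ cl c = τ.2.2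

lemma isTri_mono {P Q : V → V → V → Prop} (h : ∀ a b c, P a b c → Q a b c) {k : ℕ}
    {X : Finset V} (hX : IsTri P k X) : IsTri Q k X := by
  obtain ⟨A, B, C, hA, hB, hC, hX', hP⟩ := hX
  exact ⟨A, B, C, hA, hB, hC, hX', fun a ha b hb c hc => h _ _ _ (hP a ha b hb c hc)⟩

lemma lab_of_tri {N k : ℕ} (hk : 1 ≤ k) {E : V → V → V → Prop} (hE : Sym3 E) (cl : V → Fin N)
    (τ : Fin N × Fin N × Fin N) {X : Finset V} (hX : IsTri (EType E cl τ) k X) :
    ∃ w : Fin 3 × Fin k → V, Function.Injective w ∧ HasType cl w τ ∧ univ.image w = X := by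
  classical
  have hcard := isTri_card hE hk (isTri_mono (fun a b c h => h.1) hX)
  obtain ⟨A, B, C, hA, hB, hC, rfl, hP⟩ := hX
  obtain ⟨w, hw0, hw1, hw2, hw⟩ := exists_lab hA hB hC
  refine ⟨w, ?_, ?_, hw⟩
  · have hinj : Set.InjOn w ((univ : Finset (Fin 3 × Fin k)) : Set (Fin 3 × Fin k)) := by
      apply Finset.injOn_of_card_image_eq
      rw [hw, hcard, Finset.card_univ]
      simp
    exact fun a b h => hinj (Finset.mem_coe.2 (Finset.mem_univ a))
      (Finset.mem_coe.2 (Finset.mem_univ b)) h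
  · intro j
    have h := hP _ (hw0 j) _ (hw1 j) _ (hw2 j)
    exact ⟨h.2.1, h.2.2.1, h.2.2.2⟩

/-- many absorbers -/
lemma many_absorb {N k : ℕ} (hk : 1 ≤ k) {E : V → V → V → Prop} (hE : Sym3 E)
    (cl : V → Fin N) {β γ : ℝ} (hβ : 0 < β) (hγ : 0 < γ) {t : ℕ}
    (hconn : ∀ u w, u ≠ w → cl u = cl w → many β (t + 1) (Conn (IsTri E k) u w))
    (T : Fin 3 × Fin k → V) (hT : Function.Injective T) (τ : Fin N × Fin N × Fin N)
    (hτ : HasType cl T τ)
    (hd : γ * (Fintype.card V : ℝ) ^ 3 ≤
      (cnt (fun p : V × V × V => EType E cl τ p.1 p.2.1 p.2.2) : ℝ))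
    (hn1 : 2 * (3 * k : ℝ) ^ 2 ≤ γ ^ k ^ 3 * Fintype.card V)
    (hn2 : (3 * k : ℝ) ≤ γ ^ k ^ 3 / 2 / (3 * k : ℝ) ^ (3 * k) / 2 * Fintype.card V)
    (hn3 : 2 * (3 * k : ℝ) ≤ β / 2 * Fintype.card V)
    (hn4 : (3 * k : ℝ) * (t + 1) ≤ β / 4 * Fintype.card V)
    (hn5 : (3 * k : ℝ) ≤ cb β t (3 * k) / 2 * Fintype.card V) :
    many (γ ^ k ^ 3 / 2 / (3 * k : ℝ) ^ (3 * k) / 2 * cb β t (3 * k) / 2 /
      2 ^ (3 * k + 3 * k * (t + 1))) (3 * k + 3 * k * (t + 1))
      (Absorbs (IsTri E k) (univ.image T)) := by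
  classical
  have h1 := many_tri (V := V) hγ k hk (EType E cl τ) hn1 hd
  obtain ⟨m1, hm1⟩ : ∃ m1, 3 * k = m1 + 1 := ⟨3 * k - 1, by omega⟩
  obtain ⟨m2, hm2⟩ : ∃ m2, 3 * k * (t + 1) = m2 + 1 := by
    refine ⟨3 * k * (t + 1) - 1, ?_⟩
    have : 0 < 3 * k * (t + 1) := by positivity
    omega
  set κ : ℝ := γ ^ k ^ 3 / 2 / (3 * k : ℝ) ^ (3 * k) with hκ
  have hcT : (univ.image T).card = 3 * k := by
    rw [Finset.card_image_of_injective _ hT, Finset.card_univ]
    simp
  have hcb := cb_pos hβ t (3 * k)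
  have h2 : many (κ / 2) (3 * k) (fun X => IsTri (EType E cl τ) k X ∧
      Disjoint (univ.image T) X) := by
    rw [hm1] at h1 ⊢
    refine many_avoid h1 _ ?_
    rw [hcT]
    push_cast
    exact hn2
  have hcs : (univ : Finset (Fin 3 × Fin k)).card = 3 * k := by
    rw [Finset.card_univ]
    simp
  have h3 : ∀ X : Finset V, X.card = 3 * k → (IsTri (EType E cl τ) k X ∧
      Disjoint (univ.image T) X) →
      many (cb β t (3 * k)) (m2 + 1) (ConnS (IsTri E k) (univ.image T) X) := by
    rintro X - ⟨hX1, hX2⟩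
    obtain ⟨w, hw1, hw2, rfl⟩ := lab_of_tri hk hE cl τ hX1
    have hTw : ∀ a b, T a ≠ w b := by
      intro a b hab
      exact Finset.disjoint_left.1 hX2 (Finset.mem_image_of_mem T (Finset.mem_univ a))
        (hab ▸ Finset.mem_image_of_mem w (Finset.mem_univ b))
    have h4 := many_connS (K := IsTri E k) hβ (t := t) T w univ ∅
      (fun a _ b _ h => hT h) (fun a _ b _ h => hw1 h) (fun a _ b _ => hTw a b)
      (fun a _ => hconn _ _ (hTw a a) (by
        obtain ⟨x, j⟩ := a
        have a1 := hτ j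
        have a2 := hw2 j
        fin_cases x
        · exact a1.1.trans a2.1.symm
        · exact a1.2.1.trans a2.2.1.symm
        · exact a1.2.2.trans a2.2.2.symm))
      (by
        rw [hcs, Finset.card_empty]
        push_cast
        linarith)
      (by
        rw [hcs]
        push_cast
        exact hn4)
    rw [hcs, hm2] at h4
    exact many_mono h4 le_rfl (fun S _ h => h.2)
  rw [hm2]
  refine many_union (P := fun X => IsTri (EType E cl τ) k X ∧ Disjoint (univ.image T) X)
    (Q := fun X S => ConnS (IsTri E k) (univ.image T) X S) hcb.le h2 h3 ?_ ?_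
  · push_cast
    exact hn5
  · rintro X S - - ⟨hX1, hX2⟩ ⟨hS1, hS2, hS3, hS4⟩ hXS
    refine ⟨?_, hS4, ?_⟩
    · rw [Finset.disjoint_union_right]
      exact ⟨hX2, hS1⟩
    · have h4 : (X ∪ S) ∪ univ.image T = (univ.image T ∪ S) ∪ X := by
        ext v
        simp only [Finset.mem_union]
        tauto
      rw [h4]
      refine Tile.union hS3 (Tile.single (isTri_mono (fun a b c h => h.1) hX1)) ?_
      rw [Finset.disjoint_union_left]
      exact ⟨hX2, hXS.symm⟩

/-- disjoint choice -/
lemma choose_disj {ι : Type*} [DecidableEq ι] (s : Finset ι) (P : ι → Finset V → Prop) {κ : ℝ}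
    (hκ : 0 < κ) {m : ℕ} (F : Finset V) (h : ∀ i ∈ s, many κ (m + 1) (P i))
    (hF : (F.card : ℝ) + s.card * (m + 1) ≤ κ / 2 * Fintype.card V)
    (hn : 0 < Fintype.card V) :
    ∃ X : ι → Finset V, (∀ i ∈ s, (X i).card = m + 1 ∧ P i (X i) ∧ Disjoint F (X i)) ∧
      ∀ i ∈ s, ∀ j ∈ s, i ≠ j → Disjoint (X i) (X j) := by
  classical
  induction s using Finset.induction_on with
  | empty => exact ⟨fun _ => ∅, by simp, by simp⟩
  | insert a s ha ih =>
    rw [Finset.card_insert_of_notMem ha] at hF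
    push_cast at hF
    have hm0 : (0 : ℝ) ≤ m := Nat.cast_nonneg _
    obtain ⟨X, hX1, hX2⟩ := ih (fun i hi => h i (Finset.mem_insert_of_mem hi)) (by nlinarith)
    set U : Finset V := F ∪ s.biUnion X with hU
    have hUc : (U.card : ℝ) ≤ F.card + s.card * (m + 1) := by
      have h1 : (s.biUnion X).card ≤ s.card * (m + 1) :=
        Finset.card_biUnion_le_card_mul _ _ _ (fun i hi => (hX1 i hi).1.le)
      have h2 := (Finset.card_union_le F (s.biUnion X)).trans (Nat.add_le_add_left h1 _)
      exact_mod_cast h2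
    have h1 := many_avoid (h a (Finset.mem_insert_self a s)) U (by nlinarith)
    have h2 : 0 < cnt (fun Y : Finset V => Y.card = m + 1 ∧ (P a Y ∧ Disjoint U Y)) := by
      unfold many at h1
      have h3 : 0 < κ / 2 * (Fintype.card V : ℝ) ^ (m + 1) := by
        have : (0 : ℝ) < Fintype.card V := by exact_mod_cast hn
        positivity
      exact_mod_cast h3.trans_le h1
    obtain ⟨Y, hY1, hY2, hY3⟩ := cnt_pos h2
    rw [hU, Finset.disjoint_union_left, Finset.disjoint_biUnion_left] at hY3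
    refine ⟨fun i => if i = a then Y else X i, ?_, ?_⟩
    · intro i hi
      by_cases hia : i = a
      · simp only [hia, if_true]
        exact ⟨hY1, hY2, hY3.1⟩
      · simp only [hia, if_false]
        exact hX1 i (Finset.mem_of_mem_insert_of_ne hi hia)
    · intro i hi j hj hij
      by_cases hia : i = a
      · have hja : j ≠ a := fun h => hij (hia.trans h.symm)
        simp only [hia, hja, if_true, if_false]
        exact (hY3.2 j (Finset.mem_of_mem_insert_of_ne hj hja)).symm
      · by_cases hja : j = a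
        · simp only [hia, hja, if_true, if_false]
          exact hY3.2 i (Finset.mem_of_mem_insert_of_ne hi hia)
        · simp only [hia, hja, if_false]
          exact hX2 i (Finset.mem_of_mem_insert_of_ne hi hia) j
            (Finset.mem_of_mem_insert_of_ne hj hja) hij

/-- greedy choice of absorbers -/
lemma greedy {ι : Type*} (𝒯 : Finset ι) (Ab : ι → Finset V → Prop) (G : Finset V → Prop)
    (hG : ∀ T ∈ 𝒯, ∀ X, Ab T X → G X) {β : ℝ} (hβ : 0 < β) {M : ℕ}
    (h : ∀ T ∈ 𝒯, many β (M + 1) (Ab T)) (hne : 𝒯.Nonempty) (hn : 0 < Fintype.card V) (s : ℕ)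
    (hs : (s : ℝ) * (M + 1) ≤ β / 2 * Fintype.card V) :
    ∃ 𝒜 : Finset (Finset V), 𝒜.card = s ∧ (∀ A ∈ 𝒜, A.card = M + 1 ∧ G A) ∧
      (∀ A ∈ 𝒜, ∀ B ∈ 𝒜, A ≠ B → Disjoint A B) ∧
      ∑ T ∈ 𝒯, (1 / 2 : ℝ) ^ cnt (fun X => X ∈ 𝒜 ∧ Ab T X) ≤ 𝒯.card * (1 - β / 4) ^ s := by
  classical
  induction s with
  | zero =>
    refine ⟨∅, rfl, by simp, by simp, ?_⟩
    have h1 : ∀ T, cnt (fun X : Finset V => X ∈ (∅ : Finset (Finset V)) ∧ Ab T X) = 0 := by
      intro T
      rw [cnt_eq]
      simp
    simp_rw [h1]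
    simp
  | succ s ih =>
    push_cast at hs
    have hM0 : (0 : ℝ) ≤ M := Nat.cast_nonneg _
    obtain ⟨𝒜, h𝒜c, h𝒜1, h𝒜2, h𝒜3⟩ := ih (by nlinarith)
    set U : Finset V := 𝒜.biUnion id with hU
    have hUc : (U.card : ℝ) ≤ s * (M + 1) := by
      have h1 : (𝒜.biUnion id).card ≤ 𝒜.card * (M + 1) :=
        Finset.card_biUnion_le_card_mul _ _ _ (fun A hA => (h𝒜1 A hA).1.le)
      rw [h𝒜c] at h1
      exact_mod_cast h1
    set Ω : Finset (Finset V) := univ.filter (fun X : Finset V =>
      X.card = M + 1 ∧ (G X ∧ Disjoint U X)) with hΩ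
    set n : ℝ := (Fintype.card V : ℝ) with hnn
    have hn0 : 0 < n := by
      rw [hnn]
      exact_mod_cast hn
    have hΩc : (Ω.card : ℝ) ≤ n ^ (M + 1) := by
      have h1 : Ω.card ≤ Fintype.card V ^ (M + 1) := by
        refine le_trans ?_ (cnt_card_le (V := V) (M + 1))
        rw [cnt_eq]
        refine Finset.card_le_card ?_
        intro X hX
        rw [hΩ, Finset.mem_filter] at hX
        rw [Finset.mem_filter]
        exact ⟨Finset.mem_univ _, hX.2.1⟩
      rw [hnn]
      exact_mod_cast h1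
    have ha : ∀ T ∈ 𝒯, β / 2 * n ^ (M + 1) ≤ ((Ω.filter (Ab T)).card : ℝ) := by
      intro T hT
      have h1 := many_avoid (h T hT) U (by nlinarith)
      unfold many at h1
      refine h1.trans ?_
      rw [cnt_eq]
      have h2 : (univ.filter (fun X : Finset V => X.card = M + 1 ∧ (Ab T X ∧ Disjoint U X))) ⊆
          Ω.filter (Ab T) := by
        intro X hX
        rw [Finset.mem_filter] at hX
        rw [Finset.mem_filter, hΩ, Finset.mem_filter]
        exact ⟨⟨Finset.mem_univ _, hX.2.1, hG T hT X hX.2.2.1, hX.2.2.2⟩, hX.2.2.1⟩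
      exact_mod_cast Finset.card_le_card h2
    have hΩne : Ω.Nonempty := by
      obtain ⟨T, hT⟩ := hne
      have h1 := ha T hT
      have h2 : 0 < β / 2 * n ^ (M + 1) := by positivity
      have h3 : 0 < (Ω.filter (Ab T)).card := by exact_mod_cast h2.trans_le h1
      exact (Finset.card_pos.1 h3).mono (Finset.filter_subset _ _)
    -- average
    set p : ι → ℝ := fun T => (1 / 2 : ℝ) ^ cnt (fun X => X ∈ 𝒜 ∧ Ab T X) with hp
    have havg : ∑ X ∈ Ω, (∑ T ∈ 𝒯, p T * (if Ab T X then (1 / 2 : ℝ) else 1)) ≤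
        ∑ X ∈ Ω, ((1 - β / 4) * ∑ T ∈ 𝒯, p T) := by
      rw [Finset.sum_comm, Finset.sum_const, nsmul_eq_mul, Finset.mul_sum, Finset.mul_sum]
      refine Finset.sum_le_sum (fun T hT => ?_)
      rw [← Finset.mul_sum]
      have h1 : ∑ X ∈ Ω, (if Ab T X then (1 / 2 : ℝ) else 1) =
          Ω.card - 1 / 2 * ((Ω.filter (Ab T)).card : ℝ) := by
        have h2 : ∀ X : Finset V, (if Ab T X then (1 / 2 : ℝ) else 1) =
            1 - 1 / 2 * (if Ab T X then 1 else 0) := by
          intro X
          split_ifs <;> norm_num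
        simp_rw [h2]
        rw [Finset.sum_sub_distrib, ← Finset.mul_sum, Finset.sum_const, nsmul_eq_mul, mul_one,
          ← Finset.sum_filter, Finset.sum_const, nsmul_eq_mul, mul_one]
      rw [h1]
      have h3 := ha T hT
      have h4 : (Ω.card : ℝ) - 1 / 2 * ((Ω.filter (Ab T)).card : ℝ) ≤
          Ω.card * (1 - β / 4) := by nlinarith
      have h5 : 0 ≤ p T := by
        rw [hp]
        positivity
      calc p T * ((Ω.card : ℝ) - 1 / 2 * ((Ω.filter (Ab T)).card : ℝ))
          ≤ p T * (Ω.card * (1 - β / 4)) := by gcongr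
        _ = _ := by ring
    obtain ⟨X, hXΩ, hX⟩ := Finset.exists_le_of_sum_le hΩne havg
    rw [hΩ, Finset.mem_filter] at hXΩ
    obtain ⟨_, hX1, hX2, hX3⟩ := hXΩ
    have hXA : ∀ A ∈ 𝒜, Disjoint A X := by
      rw [hU, Finset.disjoint_biUnion_left] at hX3
      exact hX3
    have hXn : X ∉ 𝒜 := by
      intro hmem
      have h1 := hXA X hmem
      rw [Finset.disjoint_self_iff_empty] at h1
      rw [h1] at hX1
      simp at hX1
    refine ⟨insert X 𝒜, ?_, ?_, ?_, ?_⟩
    · rw [Finset.card_insert_of_notMem hXn, h𝒜c]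
    · intro A hA
      rw [Finset.mem_insert] at hA
      rcases hA with rfl | hA
      · exact ⟨hX1, hX2⟩
      · exact h𝒜1 A hA
    · intro A hA B hB hAB
      rw [Finset.mem_insert] at hA hB
      rcases hA with rfl | hA <;> rcases hB with rfl | hB
      · exact absurd rfl hAB
      · exact (hXA B hB).symm
      · exact hXA A hA
      · exact h𝒜2 A hA B hB hAB
    · have h1 : ∀ T ∈ 𝒯, (1 / 2 : ℝ) ^ cnt (fun Y => Y ∈ insert X 𝒜 ∧ Ab T Y) =
          p T * (if Ab T X then (1 / 2 : ℝ) else 1) := by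
        intro T _
        rw [hp]
        simp only
        have h2 : cnt (fun Y => Y ∈ insert X 𝒜 ∧ Ab T Y) =
            cnt (fun Y => Y ∈ 𝒜 ∧ Ab T Y) + (if Ab T X then 1 else 0) := by
          rw [cnt_eq, cnt_eq]
          have h3 : ∀ 𝒮 : Finset (Finset V),
              (univ.filter (fun Y : Finset V => Y ∈ 𝒮 ∧ Ab T Y)) = 𝒮.filter (Ab T) := by
            intro 𝒮
            ext Y
            simp
          rw [h3, h3, Finset.filter_insert]
          split_ifs with h4
          · rw [Finset.card_insert_of_notMem]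
            intro h5
            exact hXn (Finset.mem_filter.1 h5).1
          · rfl
        rw [h2, pow_add]
        split_ifs <;> simp
      rw [Finset.sum_congr rfl h1]
      refine hX.trans ?_
      have h2 : (1 - β / 4) * ∑ T ∈ 𝒯, p T ≤ (1 - β / 4) * (𝒯.card * (1 - β / 4) ^ s) := by
        refine mul_le_mul_of_nonneg_left h𝒜3 ?_
        -- β ≤ 1
        obtain ⟨T, hT⟩ := hne
        have h3 := ha T hT
        have h4 : ((Ω.filter (Ab T)).card : ℝ) ≤ Ω.card := by
          exact_mod_cast Finset.card_filter_le _ _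
        have h5 : β / 2 * n ^ (M + 1) ≤ n ^ (M + 1) := by linarith
        have h6 : 0 < n ^ (M + 1) := by positivity
        have h7 : β / 2 ≤ 1 := by
          by_contra hcon
          have := mul_lt_mul_of_pos_right (not_le.1 hcon) h6
          linarith
        linarith
      refine h2.trans (le_of_eq ?_)
      ring

end Pool.Agent.R76.B50
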