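import Mathlib
import Pool.Agent.R76.B50.Absorb

/-!
Greedy choice of absorbers (final form) and the absorption procedure.
-/

set_option autoImplicit false
set_option linter.unusedSectionVars false

namespace Pool.Agent.R76.B50

open Finset

universe u u'

lemma ev_pow_le_exp (p : ℕ) {a : ℝ} (ha : 0 < a) :
    ∀ᶠ n : ℕ in Filter.atTop, (n : ℝ) ^ p ≤ Real.exp (a * n) := by
  have h := (isLittleO_pow_exp_pos_mul_atTop (k := p) ha).def one_pos
  have h2 := (tendsto_natCast_atTop_atTop (R := ℝ)).eventually h
  refine h2.mono (fun n hn => ?_)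
  rw [Real.norm_of_nonneg (by positivity), Real.norm_of_nonneg (by positivity), one_mul] at hn
  exact hn

theorem greedy_final {β : ℝ} (hβ : 0 < β) (M p : ℕ) {η : ℝ} (hη : 0 < η) :
    ∃ (η1 : ℝ) (n0 : ℕ), 0 < η1 ∧ ∀ (V : Type u) [Fintype V] [DecidableEq V],
      n0 ≤ Fintype.card V → ∀ (ι : Type u') (𝒯 : Finset ι) (Ab : ι → Finset V → Prop)
      (G : Finset V → Prop), (∀ T ∈ 𝒯, ∀ X, Ab T X → G X) →
      (∀ T ∈ 𝒯, many β (M + 1) (Ab T)) → 𝒯.card ≤ Fintype.card V ^ p →
      ∃ 𝒜 : Finset (Finset V), ((𝒜.card : ℝ) * (M + 1) ≤ η * Fintype.card V) ∧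
      (∀ A ∈ 𝒜, A.card = M + 1 ∧ G A) ∧
      (∀ A ∈ 𝒜, ∀ B ∈ 𝒜, A ≠ B → Disjoint A B) ∧
      ∀ T ∈ 𝒯, η1 * Fintype.card V ≤ (cnt (fun X => X ∈ 𝒜 ∧ Ab T X) : ℝ) := by
  set θ : ℝ := min η (β / 2) / (M + 1) with hθ
  have hM0 : (0 : ℝ) < M + 1 := by positivity
  have hmin : 0 < min η (β / 2) := lt_min hη (by positivity)
  have hθ0 : 0 < θ := div_pos hmin hM0
  set η1 : ℝ := β * θ / 16 with hη1
  have hη10 : 0 < η1 := by positivity
  obtain ⟨n0, hn0⟩ := Filter.eventually_atTop.1
    ((ev_pow_le_exp p hη10).and (ev_le (A := 2) (B := θ) hθ0))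
  refine ⟨η1, max n0 1, hη10, ?_⟩
  intro V _ _ hV ι 𝒯 Ab G hG hmany hcard
  classical
  obtain ⟨e1, e2⟩ := hn0 (Fintype.card V) (le_trans (le_max_left _ _) hV)
  have hV1 : 1 ≤ Fintype.card V := le_trans (le_max_right _ _) hV
  set n : ℝ := (Fintype.card V : ℝ) with hn
  have hn1 : 1 ≤ n := by
    rw [hn]
    exact_mod_cast hV1
  rcases 𝒯.eq_empty_or_nonempty with hne | hne
  · refine ⟨∅, ?_, by simp, by simp, ?_⟩
    · rw [Finset.card_empty]
      push_cast
      rw [zero_mul]
      positivity
    · intro T hT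
      rw [hne] at hT
      exact absurd hT (Finset.notMem_empty _)
  · set s : ℕ := ⌊θ * n⌋₊ with hs
    have hs1 : (s : ℝ) ≤ θ * n := Nat.floor_le (by positivity)
    have hs2 : θ * n / 2 ≤ s := by
      have := (Nat.lt_floor_add_one (θ * n)).le
      rw [← hs] at this
      linarith
    have hθM : θ * (M + 1) = min η (β / 2) := by
      rw [hθ]
      field_simp
    have hsM : (s : ℝ) * (M + 1) ≤ min η (β / 2) * n := by
      calc (s : ℝ) * (M + 1) ≤ θ * n * (M + 1) := by gcongr
        _ = θ * (M + 1) * n := by ring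
        _ = _ := by rw [hθM]
    obtain ⟨𝒜, h1, h2, h3, h4⟩ := greedy 𝒯 Ab G hG hβ hmany hne (by omega) s (by
      refine hsM.trans ?_
      rw [← hn]
      gcongr
      exact min_le_right _ _)
    refine ⟨𝒜, ?_, h2, h3, ?_⟩
    · rw [h1]
      refine hsM.trans ?_
      gcongr
      exact min_le_left _ _
    · intro T hT
      have hβ1 : β ≤ 1 := by
        have h5 := hmany T hT
        unfold many at h5
        have h6 : cnt (fun X : Finset V => X.card = M + 1 ∧ Ab T X) ≤
            Fintype.card V ^ (M + 1) :=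
          (cnt_mono (fun X hX => hX.1)).trans (cnt_card_le (V := V) (M + 1))
        have h7 : (cnt (fun X : Finset V => X.card = M + 1 ∧ Ab T X) : ℝ) ≤ n ^ (M + 1) := by
          rw [hn]
          exact_mod_cast h6
        rw [← hn] at h5
        have h8 : 0 < n ^ (M + 1) := by positivity
        by_contra hcon
        have := mul_lt_mul_of_pos_right (not_le.1 hcon) h8
        linarith
      set c : ℕ := cnt (fun X => X ∈ 𝒜 ∧ Ab T X) with hc
      have h5 : (1 / 2 : ℝ) ^ c ≤ 𝒯.card * (1 - β / 4) ^ s :=
        (Finset.single_le_sum (f := fun T => (1 / 2 : ℝ) ^ cnt (fun X => X ∈ 𝒜 ∧ Ab T X))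
          (fun _ _ => by positivity) hT).trans h4
      have h6 : (1 - β / 4) ^ s ≤ Real.exp (-(2 * η1 * n)) := by
        have h7 : 1 - β / 4 ≤ Real.exp (-(β / 4)) := by
          have := Real.add_one_le_exp (-(β / 4))
          linarith
        refine (pow_le_pow_left₀ (by linarith) h7 s).trans ?_
        rw [← Real.exp_nat_mul]
        refine Real.exp_le_exp.2 ?_
        have h8 : β / 4 * (θ * n / 2) ≤ β / 4 * s := by gcongr
        rw [hη1]
        linarith
      have h7 : (𝒯.card : ℝ) ≤ Real.exp (η1 * n) := by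
        refine le_trans ?_ e1
        rw [hn]
        exact_mod_cast hcard
      have h8 : Real.exp (-(c : ℝ)) ≤ (1 / 2 : ℝ) ^ c := by
        have h9 : Real.exp (-1) ≤ 1 / 2 := by
          rw [Real.exp_neg, ← one_div]
          refine one_div_le_one_div_of_le (by norm_num) ?_
          have := Real.add_one_le_exp 1
          linarith
        have h10 : Real.exp (-(c : ℝ)) = Real.exp (-1) ^ c := by
          rw [← Real.exp_nat_mul]
          congr 1
          ring
        rw [h10]
        exact pow_le_pow_left₀ (Real.exp_pos _).le h9 c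
      have h9 : Real.exp (-(c : ℝ)) ≤ Real.exp (-(η1 * n)) := by
        refine h8.trans (h5.trans ?_)
        calc (𝒯.card : ℝ) * (1 - β / 4) ^ s
            ≤ Real.exp (η1 * n) * Real.exp (-(2 * η1 * n)) := by
              have h10 : 0 ≤ (1 - β / 4) ^ s := pow_nonneg (by linarith) s
              gcongr
          _ = Real.exp (-(η1 * n)) := by
              rw [← Real.exp_add]
              congr 1
              ring
      have h10 := Real.exp_le_exp.1 h9
      linarith

variable {V : Type u} [Fintype V] [DecidableEq V]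

lemma tile_biUnion {ι : Type*} {K : Finset V → Prop} (s : Finset ι) (X : ι → Finset V)
    (h1 : ∀ i ∈ s, Tile K (X i)) (h2 : ∀ i ∈ s, ∀ j ∈ s, i ≠ j → Disjoint (X i) (X j)) :
    Tile K (s.biUnion X) := by
  classical
  induction s using Finset.induction_on with
  | empty => exact Tile.empty
  | insert a s ha ih =>
    rw [Finset.biUnion_insert]
    refine Tile.union (h1 a (Finset.mem_insert_self a s))
      (ih (fun i hi => h1 i (Finset.mem_insert_of_mem hi))
        (fun i hi j hj => h2 i (Finset.mem_insert_of_mem hi) j (Finset.mem_insert_of_mem hj))) ?_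
    rw [Finset.disjoint_biUnion_right]
    intro i hi
    exact h2 a (Finset.mem_insert_self a s) i (Finset.mem_insert_of_mem hi)
      (fun h => ha (h ▸ hi))

/-- class counts of a labelled family -/
lemma lab_count {N k : ℕ} (cl : V → Fin N) (T : Fin 3 × Fin k → V)
    (hT : Function.Injective T) (τ : Fin N × Fin N × Fin N) (hτ : HasType cl T τ) (x : Fin N) :
    ((univ.image T).filter (fun v => cl v = x)).card = k * mlt τ x := by
  classical
  rw [Finset.filter_image, Finset.card_image_of_injective _ hT, Finset.card_filter,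
    Fintype.sum_prod_type, Fin.sum_univ_three]
  have h0 : ∀ j, cl (T (0, j)) = τ.1 := fun j => (hτ j).1
  have h1 : ∀ j, cl (T (1, j)) = τ.2.1 := fun j => (hτ j).2.1
  have h2 : ∀ j, cl (T (2, j)) = τ.2.2 := fun j => (hτ j).2.2
  simp only [h0, h1, h2, Finset.sum_const, Finset.card_univ, Fintype.card_fin, smul_eq_mul]
  unfold mlt
  ring

lemma extract_T {N k : ℕ} (cl : V → Fin N) (τ : Fin N × Fin N × Fin N) (Y : Finset V)
    (h : ∀ x, k * mlt τ x ≤ (Y.filter (fun v => cl v = x)).card) :
    ∃ T : Fin 3 × Fin k → V, Function.Injective T ∧ HasType cl T τ ∧ univ.image T ⊆ Y := by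
  classical
  obtain ⟨i, j, l⟩ := τ
  have hi := h i
  have hj := h j
  have hl := h l
  unfold mlt at hi hj hl
  dsimp only at hi hj hl
  -- first part
  obtain ⟨A, hA, hAc⟩ := Finset.exists_subset_card_eq (s := Y.filter (fun v => cl v = i)) (n := k)
    (by
      refine le_trans ?_ hi
      have : 1 ≤ (if i = i then 1 else 0) + (if j = i then 1 else 0) +
        (if l = i then 1 else 0) := by simp; omega
      nlinarith)
  have hAcl : ∀ x, (A.filter (fun v => cl v = x)).card ≤ if i = x then k else 0 := by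
    intro x
    split_ifs with hx
    · rw [← hAc]
      exact Finset.card_filter_le _ _
    · rw [Nat.le_zero, Finset.card_eq_zero, Finset.filter_eq_empty_iff]
      intro v hv hvx
      exact hx ((Finset.mem_filter.1 (hA hv)).2.symm.trans hvx)
  have hsub : ∀ (Z : Finset V) (x : Fin N), (Y.filter (fun v => cl v = x)).card ≤
      ((Y \ Z).filter (fun v => cl v = x)).card + (Z.filter (fun v => cl v = x)).card := by
    intro Z x
    refine le_trans (Finset.card_le_card ?_) (Finset.card_union_le _ _)
    intro v hv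
    rw [Finset.mem_filter] at hv
    rw [Finset.mem_union, Finset.mem_filter, Finset.mem_filter, Finset.mem_sdiff]
    by_cases h' : v ∈ Z
    · exact Or.inr ⟨h', hv.2⟩
    · exact Or.inl ⟨⟨hv.1, h'⟩, hv.2⟩
  obtain ⟨B, hB, hBc⟩ := Finset.exists_subset_card_eq
    (s := (Y \ A).filter (fun v => cl v = j)) (n := k)
    (by
      have h1 := hsub A j
      have h2 := hAcl j
      have h3 : (k : ℕ) * ((if i = j then 1 else 0) + (if j = j then 1 else 0) +
        (if l = j then 1 else 0)) ≤ (Y.filter (fun v => cl v = j)).card := hj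
      by_cases hij : i = j
      · simp only [hij, if_true] at h2 h3
        have h4 : 2 * k ≤ k * (1 + 1 + if l = j then 1 else 0) := by
          split_ifs <;> omega
        omega
      · simp only [hij, if_true, if_false] at h2 h3
        have h4 : k ≤ k * (0 + 1 + if l = j then 1 else 0) := by
          split_ifs <;> omega
        omega)
  have hBcl : ∀ x, (B.filter (fun v => cl v = x)).card ≤ if j = x then k else 0 := by
    intro x
    split_ifs with hx
    · rw [← hBc]
      exact Finset.card_filter_le _ _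
    · rw [Nat.le_zero, Finset.card_eq_zero, Finset.filter_eq_empty_iff]
      intro v hv hvx
      exact hx ((Finset.mem_filter.1 (hB hv)).2.symm.trans hvx)
  obtain ⟨C, hC, hCc⟩ := Finset.exists_subset_card_eq
    (s := (Y \ (A ∪ B)).filter (fun v => cl v = l)) (n := k)
    (by
      have h1 := hsub (A ∪ B) l
      have h2 := hAcl l
      have h2' := hBcl l
      have h5 : ((A ∪ B).filter (fun v => cl v = l)).card ≤
          (A.filter (fun v => cl v = l)).card + (B.filter (fun v => cl v = l)).card := by
        rw [Finset.filter_union]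
        exact Finset.card_union_le _ _
      have h3 : (k : ℕ) * ((if i = l then 1 else 0) + (if j = l then 1 else 0) +
        (if l = l then 1 else 0)) ≤ (Y.filter (fun v => cl v = l)).card := hl
      by_cases hil : i = l
      · by_cases hjl : j = l
        · simp only [hil, hjl, if_true] at h2 h2' h3
          omega
        · simp only [hil, hjl, if_true, if_false] at h2 h2' h3
          omega
      · by_cases hjl : j = l
        · simp only [hil, hjl, if_true, if_false] at h2 h2' h3
          omega
        · simp only [hil, hjl, if_true, if_false] at h2 h2' h3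
          omega)
  obtain ⟨w, hw0, hw1, hw2, hw⟩ := exists_lab hAc hBc hCc
  have hAB : Disjoint A B := by
    rw [Finset.disjoint_left]
    intro v hv hv'
    exact (Finset.mem_sdiff.1 (Finset.mem_filter.1 (hB hv')).1).2 hv
  have hABC : Disjoint (A ∪ B) C := by
    rw [Finset.disjoint_left]
    intro v hv hv'
    exact (Finset.mem_sdiff.1 (Finset.mem_filter.1 (hC hv')).1).2 hv
  refine ⟨w, ?_, ?_, ?_⟩
  · have hinj : Set.InjOn w ((univ : Finset (Fin 3 × Fin k)) : Set (Fin 3 × Fin k)) := by
      apply Finset.injOn_of_card_image_eq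
      rw [hw, Finset.card_union_of_disjoint hABC, Finset.card_union_of_disjoint hAB, hAc, hBc,
        hCc, Finset.card_univ]
      simp
      ring
    exact fun a b h => hinj (Finset.mem_coe.2 (Finset.mem_univ a))
      (Finset.mem_coe.2 (Finset.mem_univ b)) h
  · intro x
    exact ⟨(Finset.mem_filter.1 (hA (hw0 x))).2, (Finset.mem_filter.1 (hB (hw1 x))).2,
      (Finset.mem_filter.1 (hC (hw2 x))).2⟩
  · rw [hw]
    refine Finset.union_subset (Finset.union_subset ?_ ?_) ?_
    · intro v hv
      exact (Finset.mem_filter.1 (hA hv)).1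
    · intro v hv
      exact (Finset.mem_sdiff.1 (Finset.mem_filter.1 (hB hv)).1).1
    · intro v hv
      exact (Finset.mem_sdiff.1 (Finset.mem_filter.1 (hC hv)).1).1

/-- The absorption procedure. -/
lemma absorb_all {N k : ℕ} {K : Finset V → Prop} (cl : V → Fin N)
    (𝒟 : Finset (Fin N × Fin N × Fin N)) (s : ℕ) :
    ∀ (m : (Fin N × Fin N × Fin N) → ℕ) (Y : Finset V) (𝒜 : Finset (Finset V)),
      ∑ τ, m τ = s → (∀ τ, m τ ≠ 0 → τ ∈ 𝒟) →
      (∀ x, (Y.filter (fun v => cl v = x)).card = ∑ τ, m τ * (k * mlt τ x)) →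
      (∀ A ∈ 𝒜, Tile K A) → (∀ A ∈ 𝒜, ∀ B ∈ 𝒜, A ≠ B → Disjoint A B) →
      (∀ A ∈ 𝒜, Disjoint A Y) →
      (∀ T : Fin 3 × Fin k → V, Function.Injective T → ∀ τ ∈ 𝒟, HasType cl T τ →
        s ≤ cnt (fun A => A ∈ 𝒜 ∧ Absorbs K (univ.image T) A)) →
      Tile K (𝒜.biUnion id ∪ Y) := by
  classical
  induction s with
  | zero =>
    intro m Y 𝒜 hm _ hY h𝒜1 h𝒜2 _ _
    have h1 : ∀ τ, m τ = 0 := by
      intro τ
      have := Finset.single_le_sum (f := m) (fun _ _ => Nat.zero_le _) (Finset.mem_univ τ)
      omega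
    have h2 : Y = ∅ := by
      rw [Finset.eq_empty_iff_forall_notMem]
      intro v hv
      have h3 := hY (cl v)
      rw [Finset.sum_eq_zero (fun τ _ => by rw [h1 τ, zero_mul]), Finset.card_eq_zero,
        Finset.filter_eq_empty_iff] at h3
      exact h3 hv rfl
    rw [h2, Finset.union_empty]
    exact tile_biUnion 𝒜 id h𝒜1 h𝒜2
  | succ s ih =>
    intro m Y 𝒜 hm hm𝒟 hY h𝒜1 h𝒜2 h𝒜Y hT
    have h1 : ∃ τ, m τ ≠ 0 := by
      by_contra hcon
      push Not at hcon
      rw [Finset.sum_eq_zero (fun τ _ => hcon τ)] at hm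
      omega
    obtain ⟨τ, hτ⟩ := h1
    have hτD := hm𝒟 τ hτ
    have hsplit : ∀ f : (Fin N × Fin N × Fin N) → ℕ,
        ∑ τ', m τ' * f τ' = ∑ τ', (Function.update m τ (m τ - 1)) τ' * f τ' + f τ := by
      intro f
      rw [← Finset.add_sum_erase univ _ (Finset.mem_univ τ),
        ← Finset.add_sum_erase univ (fun τ' => (Function.update m τ (m τ - 1)) τ' * f τ')
          (Finset.mem_univ τ)]
      rw [Function.update_self]
      have h2 : ∑ x ∈ univ.erase τ, Function.update m τ (m τ - 1) x * f x =
          ∑ x ∈ univ.erase τ, m x * f x := by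
        refine Finset.sum_congr rfl (fun x hx => ?_)
        rw [Function.update_of_ne (Finset.ne_of_mem_erase hx)]
      rw [h2]
      obtain ⟨r, hr⟩ : ∃ r, m τ = r + 1 := ⟨m τ - 1, by omega⟩
      rw [hr]
      simp only [Nat.add_sub_cancel]
      ring
    obtain ⟨T, hTinj, hTτ, hTY⟩ := extract_T (k := k) cl τ Y (fun x => by
      rw [hY x, hsplit (fun τ' => k * mlt τ' x)]
      omega)
    have h2 := hT T hTinj τ hτD hTτ
    obtain ⟨A0, hA0, hA0T⟩ := cnt_pos (lt_of_lt_of_le (Nat.succ_pos s) h2)
    obtain ⟨hd, hTile1, hTile2⟩ := hA0T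
    have ih' := ih (Function.update m τ (m τ - 1)) (Y \ univ.image T) (𝒜.erase A0) ?_ ?_ ?_ ?_
      ?_ ?_ ?_
    · have h3 : 𝒜.biUnion id ∪ Y =
          (A0 ∪ univ.image T) ∪ ((𝒜.erase A0).biUnion id ∪ (Y \ univ.image T)) := by
        have h4 : 𝒜.biUnion id = A0 ∪ (𝒜.erase A0).biUnion id := by
          conv_lhs => rw [← Finset.insert_erase hA0]
          rw [Finset.biUnion_insert]
          rfl
        rw [h4]
        ext v
        have h5 := @hTY v
        simp only [Finset.mem_union, Finset.mem_sdiff] at h5 ⊢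
        tauto
      rw [h3]
      refine Tile.union hTile2 ih' ?_
      rw [Finset.disjoint_union_left, Finset.disjoint_union_right, Finset.disjoint_union_right,
        Finset.disjoint_biUnion_right, Finset.disjoint_biUnion_right]
      refine ⟨⟨?_, ?_⟩, ?_, ?_⟩
      · intro A hA
        exact h𝒜2 A0 hA0 A (Finset.mem_of_mem_erase hA) (Finset.ne_of_mem_erase hA).symm
      · exact (h𝒜Y A0 hA0).mono_right Finset.sdiff_subset
      · intro A hA
        exact ((h𝒜Y A (Finset.mem_of_mem_erase hA)).mono_right hTY).symm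
      · exact Finset.disjoint_sdiff
    · have h3 := hsplit (fun _ => 1)
      simp only [mul_one] at h3
      omega
    · intro τ' hτ'
      by_cases h3 : τ' = τ
      · rw [h3]
        exact hτD
      · rw [Function.update_of_ne h3] at hτ'
        exact hm𝒟 τ' hτ'
    · intro x
      have h3 := hY x
      rw [hsplit (fun τ' => k * mlt τ' x)] at h3
      have h4 := lab_count cl T hTinj τ hTτ x
      have h5 : (Y.filter (fun v => cl v = x)).card =
          ((Y \ univ.image T).filter (fun v => cl v = x)).card +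
          ((univ.image T).filter (fun v => cl v = x)).card := by
        rw [← Finset.card_union_of_disjoint, ← Finset.filter_union,
          Finset.sdiff_union_of_subset hTY]
        exact (Finset.disjoint_filter_filter Finset.sdiff_disjoint)
      omega
    · intro A hA
      exact h𝒜1 A (Finset.mem_of_mem_erase hA)
    · intro A hA B hB
      exact h𝒜2 A (Finset.mem_of_mem_erase hA) B (Finset.mem_of_mem_erase hB)
    · intro A hA
      exact (h𝒜Y A (Finset.mem_of_mem_erase hA)).mono_right Finset.sdiff_subset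
    · intro T' hT' τ' hτ' hT'τ
      have h3 := hT T' hT' τ' hτ' hT'τ
      have h4 : cnt (fun A => A ∈ 𝒜 ∧ Absorbs K (univ.image T') A) ≤
          cnt (fun A => A ∈ 𝒜.erase A0 ∧ Absorbs K (univ.image T') A) + 1 := by
        have h5 : cnt (fun A => A ∈ 𝒜 ∧ Absorbs K (univ.image T') A) ≤
            cnt (fun A => A ∈ 𝒜.erase A0 ∧ Absorbs K (univ.image T') A) +
              cnt (fun A : Finset V => A = A0) := by
          refine le_trans (cnt_mono ?_) (cnt_or _ _)
          intro A hA
          by_cases h6 : A = A0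
          · exact Or.inr h6
          · exact Or.inl ⟨Finset.mem_erase.2 ⟨h6, hA.1⟩, hA.2⟩
        have h6 : cnt (fun A : Finset V => A = A0) = 1 := by
          rw [cnt_eq, Finset.filter_eq' univ A0, if_pos (Finset.mem_univ _),
            Finset.card_singleton]
        omega
      omega

end Pool.Agent.R76.B50
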