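import Mathlib
import Pool.Agent.R76.B50.Closed2

/-!
Bounded fractional perfect matchings in almost regular 3-graphs with large pair degrees.
-/

set_option autoImplicit false
set_option linter.unusedSectionVars false

namespace Pool.Agent.R76.B50

open Finset

universe u

variable {V : Type u} [Fintype V] [DecidableEq V]

open Classical in
/-- the sum of `|f x + f y + f z|` over ordered edges containing `x` in the first position -/
noncomputable def edgeSum (E : V → V → V → Prop) (f : V → ℝ) (x : V) : ℝ :=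
  ∑ p : V × V, if E x p.1 p.2 then |f x + f p.1 + f p.2| else 0

lemma edgeSum_nonneg (E : V → V → V → Prop) (f : V → ℝ) (x : V) : 0 ≤ edgeSum E f x := by
  classical
  unfold edgeSum
  refine Finset.sum_nonneg (fun p _ => ?_)
  split_ifs
  · exact abs_nonneg _
  · exact le_rfl

lemma edgeSum_ge {E : V → V → V → Prop} {f : V → ℝ} {x : V} (Q : V × V → Prop) (r : ℝ)
    (h : ∀ p, Q p → E x p.1 p.2 ∧ r ≤ |f x + f p.1 + f p.2|) :
    (cnt Q : ℝ) * r ≤ edgeSum E f x := by
  classical
  unfold edgeSum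
  rw [cnt_eq, ← nsmul_eq_mul]
  calc (univ.filter (fun p => Q p)).card • r ≤
      ∑ p ∈ univ.filter (fun p => Q p), (if E x p.1 p.2 then |f x + f p.1 + f p.2| else 0) := by
        refine Finset.card_nsmul_le_sum _ _ _ (fun p hp => ?_)
        have h1 := h p (Finset.mem_filter.1 hp).2
        rw [if_pos h1.1]
        exact h1.2
    _ ≤ _ := by
        refine Finset.sum_le_sum_of_subset_of_nonneg (Finset.filter_subset _ _) ?_
        intro p _ _
        split_ifs
        · exact abs_nonneg _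
        · exact le_rfl

lemma edgeSum_neg (E : V → V → V → Prop) (f : V → ℝ) (x : V) :
    edgeSum E (fun v => - f v) x = edgeSum E f x := by
  classical
  unfold edgeSum
  refine Finset.sum_congr rfl (fun p _ => ?_)
  have : |(-f x) + (-f p.1) + (-f p.2)| = |f x + f p.1 + f p.2| := by
    rw [← abs_neg]
    congr 1
    ring
  rw [this]

/-- a threshold -/
lemma exists_threshold [Nonempty V] (f : V → ℝ) (hf : ∀ v, 0 ≤ f v) (r : ℝ) (hr : 0 < r)
    (hr1 : r ≤ Fintype.card V) :
    ∃ M : ℝ, 0 ≤ M ∧ (cnt (fun v => M < f v) : ℝ) ≤ r ∧ r ≤ (cnt (fun v => M ≤ f v) : ℝ) := by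
  classical
  set T : Finset V := univ.filter (fun v => (cnt (fun u => f v < f u) : ℝ) ≤ r) with hT
  have hTne : T.Nonempty := by
    obtain ⟨v, -, hv⟩ := Finset.exists_max_image (univ : Finset V) f Finset.univ_nonempty
    refine ⟨v, ?_⟩
    rw [hT, Finset.mem_filter]
    refine ⟨Finset.mem_univ _, ?_⟩
    have : cnt (fun u => f v < f u) = 0 := by
      rw [cnt_eq, Finset.card_eq_zero, Finset.filter_eq_empty_iff]
      intro u hu
      exact not_lt.2 (hv u hu)
    rw [this]
    simpa using hr.le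
  obtain ⟨v, hv, hmin⟩ := Finset.exists_min_image T f hTne
  refine ⟨f v, hf v, (Finset.mem_filter.1 hv).2, ?_⟩
  by_contra hcon
  have hcon' := not_le.1 hcon
  set U : Finset V := univ.filter (fun u => f u < f v) with hU
  have hUne : U.Nonempty := by
    rw [Finset.nonempty_iff_ne_empty]
    intro he
    have h1 : cnt (fun u => f v ≤ f u) = Fintype.card V := by
      rw [cnt_eq, Finset.filter_true_of_mem, Finset.card_univ]
      intro u _
      by_contra h2
      have : u ∈ U := by
        rw [hU, Finset.mem_filter]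
        exact ⟨Finset.mem_univ _, not_le.1 h2⟩
      rw [he] at this
      exact absurd this (Finset.notMem_empty _)
    rw [h1] at hcon'
    linarith
  obtain ⟨u, hu, hmax⟩ := Finset.exists_max_image U f hUne
  have huv : f u < f v := (Finset.mem_filter.1 hu).2
  have h3 : u ∈ T := by
    rw [hT, Finset.mem_filter]
    refine ⟨Finset.mem_univ _, ?_⟩
    refine le_trans ?_ hcon'.le
    have : cnt (fun w => f u < f w) ≤ cnt (fun w => f v ≤ f w) := by
      refine cnt_mono (fun w hw => ?_)
      by_contra h4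
      have h5 : w ∈ U := by
        rw [hU, Finset.mem_filter]
        exact ⟨Finset.mem_univ _, not_le.1 h4⟩
      exact absurd (hmax w h5) (not_le.2 hw)
    exact_mod_cast this
  exact absurd (hmin u h3) (not_le.2 huv)

lemma cnt_and_ge {α : Type*} [Fintype α] (P Q : α → Prop) :
    (cnt P : ℝ) - cnt (fun a => ¬ Q a) ≤ (cnt (fun a => P a ∧ Q a) : ℝ) := by
  have h : cnt P ≤ cnt (fun a => P a ∧ Q a) + cnt (fun a => ¬ Q a) := by
    refine le_trans (cnt_mono ?_) (cnt_or _ _)
    intro a ha
    by_cases h : Q a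
    · exact Or.inl ⟨ha, h⟩
    · exact Or.inr h
  have h' : (cnt P : ℝ) ≤ (cnt (fun a => P a ∧ Q a) : ℝ) + cnt (fun a => ¬ Q a) := by
    exact_mod_cast h
  linarith

/-- the positive case of the threshold estimate -/
lemma star_aux {E : V → V → V → Prop} {c : ℝ} (hc : 0 < c)
    (hpair : ∀ u v, u ≠ v → c * Fintype.card V ≤ (cnt (fun w => E u v w) : ℝ))
    (f : V → ℝ) (M : ℝ) (hM : 0 ≤ M)
    (h1 : (cnt (fun v => M < |f v|) : ℝ) ≤ c / 8 * Fintype.card V)
    (h2 : c / 16 * Fintype.card V ≤ (cnt (fun v => M ≤ f v) : ℝ))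
    (hn : 32 ≤ c * Fintype.card V) :
    c ^ 3 / 1024 * (Fintype.card V : ℝ) ^ 3 * M ≤ ∑ x : V, edgeSum E f x := by
  classical
  set n : ℝ := (Fintype.card V : ℝ) with hnn
  have hx : ∀ x, M ≤ f x → (c / 32 * n) * ((7 * c / 8) * n) * M ≤ edgeSum E f x := by
    intro x hx
    have h3 := cnt_prod_ge (fun (z : V) (y : V) => M ≤ f y ∧ E x y z ∧ |f z| ≤ M)
      (fun y => M ≤ f y ∧ x ≠ y) (7 * c / 8 * n) (by
        rintro y ⟨hy, hxy⟩
        have h4 := cnt_and_ge (fun z => E x y z) (fun z => |f z| ≤ M)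
        have h5 : cnt (fun z => ¬ |f z| ≤ M) = cnt (fun v => M < |f v|) := by
          refine cnt_congr (Equiv.refl V) (fun a => ?_)
          simp
        rw [h5] at h4
        have h6 := hpair x y hxy
        have h7 : cnt (fun a => E x y a ∧ |f a| ≤ M) ≤
            cnt (fun a => M ≤ f y ∧ E x y a ∧ |f a| ≤ M) :=
          cnt_mono (fun a ha => ⟨hy, ha⟩)
        have h8 : (cnt (fun a => E x y a ∧ |f a| ≤ M) : ℝ) ≤
            (cnt (fun a => M ≤ f y ∧ E x y a ∧ |f a| ≤ M) : ℝ) := by exact_mod_cast h7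
        linarith)
    have h4 := cnt_and_ge (fun y => M ≤ f y) (fun y => x ≠ y)
    have h5 : cnt (fun y => ¬ x ≠ y) ≤ 1 := by
      rw [cnt_eq]
      simp [Finset.filter_eq]
    have h5' : (cnt (fun y => ¬ x ≠ y) : ℝ) ≤ 1 := by exact_mod_cast h5
    have h6 : c / 32 * n ≤ (cnt (fun y => M ≤ f y ∧ x ≠ y) : ℝ) := by linarith
    have h7 : (cnt (fun p : V × V => M ≤ f p.2 ∧ E x p.2 p.1 ∧ |f p.1| ≤ M) : ℝ) =
        (cnt (fun p : V × V => M ≤ f p.1 ∧ E x p.1 p.2 ∧ |f p.2| ≤ M) : ℝ) := by
      have : cnt (fun p : V × V => M ≤ f p.2 ∧ E x p.2 p.1 ∧ |f p.1| ≤ M) =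
        cnt (fun p : V × V => M ≤ f p.1 ∧ E x p.1 p.2 ∧ |f p.2| ≤ M) :=
        cnt_congr (Equiv.prodComm V V) (fun p => Iff.rfl)
      rw [this]
    rw [h7] at h3
    have h8 := edgeSum_ge (E := E) (f := f) (x := x)
      (fun p : V × V => M ≤ f p.1 ∧ E x p.1 p.2 ∧ |f p.2| ≤ M) M (by
        rintro p ⟨ha, hb, hd⟩
        refine ⟨hb, ?_⟩
        have h9 := abs_le.1 hd
        refine le_trans ?_ (le_abs_self _)
        linarith)
    refine le_trans ?_ h8
    have hn0 : 0 ≤ n := by
      rw [hnn]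
      exact Nat.cast_nonneg _
    have h10 : (c / 32 * n) * ((7 * c / 8) * n) ≤
        (cnt (fun p : V × V => M ≤ f p.1 ∧ E x p.1 p.2 ∧ |f p.2| ≤ M) : ℝ) := by
      refine le_trans ?_ h3
      have : 0 ≤ 7 * c / 8 * n := by positivity
      gcongr
    gcongr
  have hn0 : 0 ≤ n := by
    rw [hnn]
    exact Nat.cast_nonneg _
  have h3 : (cnt (fun v => M ≤ f v) : ℝ) * ((c / 32 * n) * ((7 * c / 8) * n) * M) ≤
      ∑ x : V, edgeSum E f x := by
    rw [cnt_eq, ← nsmul_eq_mul]
    calc (univ.filter (fun v => M ≤ f v)).card • ((c / 32 * n) * ((7 * c / 8) * n) * M) ≤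
        ∑ x ∈ univ.filter (fun v => M ≤ f v), edgeSum E f x := by
          refine Finset.card_nsmul_le_sum _ _ _ (fun x hx' => ?_)
          exact hx x (Finset.mem_filter.1 hx').2
      _ ≤ _ := Finset.sum_le_sum_of_subset_of_nonneg (Finset.filter_subset _ _)
          (fun x _ _ => edgeSum_nonneg E f x)
  refine le_trans ?_ h3
  have h4 : 0 ≤ (c / 32 * n) * ((7 * c / 8) * n) * M := by positivity
  calc c ^ 3 / 1024 * n ^ 3 * M ≤ (c / 16 * n) * ((c / 32 * n) * ((7 * c / 8) * n) * M) := by
        have h5 : 0 ≤ c ^ 3 * n ^ 3 * M := by positivity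
        nlinarith
    _ ≤ _ := by gcongr

/-- The robust rank estimate. -/
theorem star {E : V → V → V → Prop} {c : ℝ} (hc : 0 < c) (hc1 : c ≤ 1)
    (hpair : ∀ u v, u ≠ v → c * Fintype.card V ≤ (cnt (fun w => E u v w) : ℝ))
    (f : V → ℝ) (hn : 32 ≤ c * Fintype.card V) :
    c ^ 3 / 4096 * (Fintype.card V : ℝ) ^ 2 * (∑ v, |f v|) ≤ ∑ x : V, edgeSum E f x := by
  classical
  have hn0 : 0 < (Fintype.card V : ℝ) := by
    by_contra hcon
    have h0 : (Fintype.card V : ℝ) = 0 := le_antisymm (not_lt.1 hcon) (Nat.cast_nonneg _)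
    rw [h0] at hn
    linarith
  have hne : Nonempty V := by
    rw [← Fintype.card_pos_iff]
    exact_mod_cast hn0
  obtain ⟨M, hM, hM1, hM2⟩ := exists_threshold (fun v => |f v|) (fun v => abs_nonneg _)
    (c / 8 * Fintype.card V) (by positivity) (by nlinarith)
  set n : ℝ := (Fintype.card V : ℝ) with hnn
  have hn32 : 32 ≤ n := by nlinarith
  set S : ℝ := ∑ x : V, edgeSum E f x with hS
  have hS0 : 0 ≤ S := Finset.sum_nonneg (fun x _ => edgeSum_nonneg E f x)
  -- M is small
  have hMS : c ^ 3 / 1024 * n ^ 3 * M ≤ S := by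
    have h3 : cnt (fun v => M ≤ |f v|) ≤ cnt (fun v => M ≤ f v) + cnt (fun v => M ≤ - f v) := by
      refine le_trans (cnt_mono ?_) (cnt_or _ _)
      intro v hv
      exact le_abs.1 hv
    have h3' : (cnt (fun v => M ≤ |f v|) : ℝ) ≤ (cnt (fun v => M ≤ f v) : ℝ) +
        (cnt (fun v => M ≤ - f v) : ℝ) := by exact_mod_cast h3
    by_cases h4 : c / 16 * n ≤ (cnt (fun v => M ≤ f v) : ℝ)
    · exact star_aux hc hpair f M hM hM1 h4 hn
    · have h5 : c / 16 * n ≤ (cnt (fun v => M ≤ - f v) : ℝ) := by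
        have := not_le.1 h4
        linarith
      have h6 := star_aux hc hpair (fun v => - f v) M hM (by simpa using hM1) h5 hn
      simp_rw [edgeSum_neg] at h6
      exact h6
  -- outliers
  have hout : ∀ x, (|f x| - 2 * M) * (c / 4 * n ^ 2) ≤ edgeSum E f x := by
    intro x
    by_cases hneg : |f x| - 2 * M ≤ 0
    · have h3 : (|f x| - 2 * M) * (c / 4 * n ^ 2) ≤ 0 :=
        mul_nonpos_of_nonpos_of_nonneg hneg (by positivity)
      exact h3.trans (edgeSum_nonneg E f x)
    · have hpos := not_le.1 hneg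
      have h3 := edgeSum_ge (E := E) (f := f) (x := x)
        (fun p : V × V => E x p.1 p.2 ∧ (|f p.1| ≤ M ∧ |f p.2| ≤ M)) (|f x| - 2 * M) (by
          rintro p ⟨ha, hb, hd⟩
          refine ⟨ha, ?_⟩
          have h4 : |f x| ≤ |f x + f p.1 + f p.2| + |f p.1| + |f p.2| := by
            calc |f x| = |(f x + f p.1 + f p.2) - f p.1 - f p.2| := by
                  congr 1
                  ring
              _ ≤ |(f x + f p.1 + f p.2) - f p.1| + |f p.2| := abs_sub _ _
              _ ≤ |f x + f p.1 + f p.2| + |f p.1| + |f p.2| := by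
                  have := abs_sub (f x + f p.1 + f p.2) (f p.1)
                  linarith
          linarith)
      have h4 := cnt_and_ge (fun p : V × V => E x p.1 p.2)
        (fun p : V × V => |f p.1| ≤ M ∧ |f p.2| ≤ M)
      have h5 : (cnt (fun p : V × V => ¬ (|f p.1| ≤ M ∧ |f p.2| ≤ M)) : ℝ) ≤
          2 * (c / 8 * n) * n := by
        have h6 : cnt (fun p : V × V => ¬ (|f p.1| ≤ M ∧ |f p.2| ≤ M)) ≤
            cnt (fun p : V × V => M < |f p.1|) + cnt (fun p : V × V => M < |f p.2|) := by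
          refine le_trans (cnt_mono ?_) (cnt_or _ _)
          intro p hp
          by_cases h7 : |f p.1| ≤ M
          · exact Or.inr (not_le.1 (fun h8 => hp ⟨h7, h8⟩))
          · exact Or.inl (not_le.1 h7)
        have h7 : cnt (fun p : V × V => M < |f p.1|) =
            cnt (fun v => M < |f v|) * Fintype.card V := by
          rw [cnt_eq, cnt_eq, ← Finset.card_univ (α := V), ← Finset.card_product]
          congr 1
          ext p
          simp
        have h8 : cnt (fun p : V × V => M < |f p.2|) =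
            Fintype.card V * cnt (fun v => M < |f v|) := by
          rw [cnt_eq, cnt_eq, ← Finset.card_univ (α := V), ← Finset.card_product]
          congr 1
          ext p
          simp
        rw [h7, h8] at h6
        have h9 : (cnt (fun p : V × V => ¬ (|f p.1| ≤ M ∧ |f p.2| ≤ M)) : ℝ) ≤
            (cnt (fun v => M < |f v|) : ℝ) * n + n * (cnt (fun v => M < |f v|) : ℝ) := by
          rw [hnn]
          exact_mod_cast h6
        nlinarith
      have h6 := cnt_link hpair x
      have h7 : cnt (fun p : V × V => E x p.2 p.1) = cnt (fun p : V × V => E x p.1 p.2) :=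
        cnt_congr (Equiv.prodComm V V) (fun p => Iff.rfl)
      rw [h7, ← hnn] at h6
      refine le_trans ?_ h3
      rw [mul_comm]
      have h8 : c / 4 * n ^ 2 ≤
          (cnt (fun p : V × V => E x p.1 p.2 ∧ (|f p.1| ≤ M ∧ |f p.2| ≤ M)) : ℝ) := by
        refine le_trans ?_ h4
        have h9 : (n / 2) * (c * n) ≤ (n - 1) * (c * n) := by
          have : 0 ≤ c * n := by positivity
          gcongr
          linarith
        nlinarith
      gcongr
  -- the total
  have htot : ∑ v, |f v| ≤ 2 * n * M + S / (c / 4 * n ^ 2) := by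
    have h3 : ∀ v, |f v| ≤ M + (if M < |f v| then 2 * M else 0) +
        edgeSum E f v / (c / 4 * n ^ 2) := by
      intro v
      have h4 : |f v| - 2 * M ≤ edgeSum E f v / (c / 4 * n ^ 2) := by
        rw [le_div_iff₀ (by positivity)]
        exact hout v
      have h5 : 0 ≤ edgeSum E f v / (c / 4 * n ^ 2) := by
        have := edgeSum_nonneg E f v
        positivity
      split_ifs with h6
      · linarith
      · linarith [not_lt.1 h6]
    calc ∑ v, |f v| ≤ ∑ v : V, (M + (if M < |f v| then 2 * M else 0) +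
        edgeSum E f v / (c / 4 * n ^ 2)) := Finset.sum_le_sum (fun v _ => h3 v)
      _ = n * M + (cnt (fun v => M < |f v|) : ℝ) * (2 * M) + S / (c / 4 * n ^ 2) := by
          rw [Finset.sum_add_distrib, Finset.sum_add_distrib, Finset.sum_const,
            Finset.card_univ, nsmul_eq_mul, ← Finset.sum_div, ← Finset.sum_filter,
            Finset.sum_const, nsmul_eq_mul, cnt_eq]
      _ ≤ 2 * n * M + S / (c / 4 * n ^ 2) := by
          have h4 : (cnt (fun v => M < |f v|) : ℝ) * (2 * M) ≤ (1 / 8 * n) * (2 * M) := by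
            have h5 : (cnt (fun v => M < |f v|) : ℝ) ≤ 1 / 8 * n := by
              refine hM1.trans ?_
              nlinarith
            gcongr
          have h6 : 0 ≤ n * M := by positivity
          linarith
  -- combine
  have h3 : c ^ 3 / 4096 * n ^ 2 * (∑ v, |f v|) ≤
      c ^ 3 / 4096 * n ^ 2 * (2 * n * M + S / (c / 4 * n ^ 2)) := by gcongr
  refine h3.trans ?_
  have h4 : c ^ 3 / 4096 * n ^ 2 * (2 * n * M) ≤ S / 2 := by
    have : c ^ 3 / 4096 * n ^ 2 * (2 * n * M) = (c ^ 3 / 1024 * n ^ 3 * M) / 2 := by ring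
    rw [this]
    linarith
  have h5 : c ^ 3 / 4096 * n ^ 2 * (S / (c / 4 * n ^ 2)) ≤ S / 2 := by
    have : c ^ 3 / 4096 * n ^ 2 * (S / (c / 4 * n ^ 2)) = (c ^ 2 / 1024) * S := by
      field_simp
      ring
    rw [this]
    have h6 : c ^ 2 / 1024 ≤ 1 / 2 := by nlinarith
    nlinarith
  rw [mul_add]
  linarith

end Pool.Agent.R76.B50
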