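import Mathlib
import Pool.Agent.R76.B50.Frac

/-!
Bounded fractional perfect matchings: the separation argument.
-/

set_option autoImplicit false
set_option linter.unusedSectionVars false

namespace Pool.Agent.R76.B50

open Finset

universe u

variable {V : Type u} [Fintype V] [DecidableEq V]

/-- multiplicity of `v` in the triple `p` -/
def inc (p : V × V × V) (v : V) : ℝ :=
  (if p.1 = v then 1 else 0) + (if p.2.1 = v then 1 else 0) + (if p.2.2 = v then 1 else 0)

lemma inc_nonneg (p : V × V × V) (v : V) : 0 ≤ inc p v := by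
  unfold inc
  split_ifs <;> norm_num

lemma sum_inc (p : V × V × V) (y : V → ℝ) : ∑ v, inc p v * y v = y p.1 + y p.2.1 + y p.2.2 := by
  unfold inc
  simp [add_mul, Finset.sum_add_distrib]

open Classical in
lemma sum_edge_linear {E : V → V → V → Prop} (hE : Sym3 E) (y : V → ℝ) :
    ∑ p : V × V × V, (if E p.1 p.2.1 p.2.2 then y p.1 + y p.2.1 + y p.2.2 else 0) =
      3 * ∑ v, (cnt (fun p : V × V => E v p.1 p.2) : ℝ) * y v := by
  have h1 : ∑ p : V × V × V, (if E p.1 p.2.1 p.2.2 then y p.1 else 0) =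
      ∑ v, (cnt (fun p : V × V => E v p.1 p.2) : ℝ) * y v := by
    rw [Fintype.sum_prod_type]
    refine Finset.sum_congr rfl (fun v _ => ?_)
    rw [cnt_eq, Finset.card_filter]
    push_cast
    rw [Finset.sum_mul]
    refine Finset.sum_congr rfl (fun p _ => ?_)
    split_ifs <;> simp
  have h2 : ∑ p : V × V × V, (if E p.1 p.2.1 p.2.2 then y p.2.1 else 0) =
      ∑ p : V × V × V, (if E p.1 p.2.1 p.2.2 then y p.1 else 0) := by
    refine Fintype.sum_equiv ⟨fun p => (p.2.1, p.1, p.2.2), fun p => (p.2.1, p.1, p.2.2),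
      fun p => rfl, fun p => rfl⟩ _ _ ?_
    rintro ⟨a, b, c⟩
    simp only [Equiv.coe_fn_mk]
    by_cases h : E a b c
    · rw [if_pos h, if_pos (hE.s12 h)]
    · rw [if_neg h, if_neg (fun h' => h (hE.s12 h'))]
  have h3 : ∑ p : V × V × V, (if E p.1 p.2.1 p.2.2 then y p.2.2 else 0) =
      ∑ p : V × V × V, (if E p.1 p.2.1 p.2.2 then y p.1 else 0) := by
    refine Fintype.sum_equiv ⟨fun p => (p.2.2, p.1, p.2.1), fun p => (p.2.1, p.2.2, p.1),
      fun p => rfl, fun p => rfl⟩ _ _ ?_
    rintro ⟨a, b, c⟩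
    simp only [Equiv.coe_fn_mk]
    by_cases h : E a b c
    · rw [if_pos h, if_pos (hE.s12 (hE.s23 h))]
    · rw [if_neg h, if_neg (fun h' => h (hE.s23 (hE.s12 h')))]
  have h4 : ∀ p : V × V × V, (if E p.1 p.2.1 p.2.2 then y p.1 + y p.2.1 + y p.2.2 else 0) =
      (if E p.1 p.2.1 p.2.2 then y p.1 else 0) + (if E p.1 p.2.1 p.2.2 then y p.2.1 else 0) +
      (if E p.1 p.2.1 p.2.2 then y p.2.2 else 0) := by
    intro p
    split_ifs <;> simp
  simp_rw [h4]
  rw [Finset.sum_add_distrib, Finset.sum_add_distrib, h2, h3, h1]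
  ring

/-- the incidence map -/
noncomputable def loadMap : (V × V × V → ℝ) →ₗ[ℝ] (V → ℝ) where
  toFun w := fun v => ∑ p, w p * inc p v
  map_add' w w' := by
    funext v
    simp [add_mul, Finset.sum_add_distrib]
  map_smul' r w := by
    funext v
    simp [Finset.mul_sum, mul_assoc]

/-- Bounded fractional perfect matchings. -/
theorem frac_matching {E : V → V → V → Prop} (hE : Sym3 E) {c d d0 η : ℝ} (hc : 0 < c)
    (hc1 : c ≤ 1)
    (hpair : ∀ u v, u ≠ v → c * Fintype.card V ≤ (cnt (fun w => E u v w) : ℝ))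
    (hn : 32 ≤ c * Fintype.card V)
    (hdeg : ∀ v, |(cnt (fun p : V × V => E v p.1 p.2) : ℝ) - d| ≤
      η * (Fintype.card V : ℝ) ^ 2)
    (hη : 3 * η ≤ c ^ 3 / 4096) (hd0 : 0 < d0) (hd : d0 * (Fintype.card V : ℝ) ^ 2 ≤ d) :
    ∃ w : V × V × V → ℝ, (∀ p, 0 ≤ w p) ∧ (∀ p, w p ≤ 1 / d0 / (Fintype.card V : ℝ) ^ 2) ∧
      (∀ p, ¬ E p.1 p.2.1 p.2.2 → w p = 0) ∧ ∀ v, ∑ p, w p * inc p v = 1 := by
  classical
  have hn0 : 0 < (Fintype.card V : ℝ) := by
    by_contra hcon
    have h0 : (Fintype.card V : ℝ) = 0 := le_antisymm (not_lt.1 hcon) (Nat.cast_nonneg _)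
    rw [h0] at hn
    linarith
  set n : ℝ := (Fintype.card V : ℝ) with hnn
  set b : ℝ := 1 / d0 / n ^ 2 with hb
  have hb0 : 0 < b := by positivity
  set box : Set (V × V × V → ℝ) :=
    Set.pi Set.univ (fun p => Set.Icc 0 (if E p.1 p.2.1 p.2.2 then b else 0)) with hbox
  have hboxc : IsCompact box := isCompact_univ_pi (fun p => isCompact_Icc)
  have hboxconv : Convex ℝ box := convex_pi (fun p _ => convex_Icc _ _)
  have himgc : IsCompact (loadMap '' box) :=
    hboxc.image (loadMap (V := V)).continuous_of_finiteDimensional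
  have himgconv : Convex ℝ (loadMap '' box) := hboxconv.linear_image _
  by_cases hmem : (fun _ : V => (1 : ℝ)) ∈ loadMap '' box
  · obtain ⟨w, hw, hw1⟩ := hmem
    have hw' : ∀ p, 0 ≤ w p ∧ w p ≤ (if E p.1 p.2.1 p.2.2 then b else 0) := by
      intro p
      have := hw p (Set.mem_univ p)
      exact ⟨this.1, this.2⟩
    refine ⟨w, fun p => (hw' p).1, fun p => ?_, fun p hp => ?_, fun v => ?_⟩
    · refine (hw' p).2.trans ?_
      split_ifs
      · exact le_rfl
      · exact hb0.le
    · have := hw' p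
      rw [if_neg hp] at this
      exact le_antisymm this.2 this.1
    · exact congrFun hw1 v
  · exfalso
    obtain ⟨f, r, hf1, hf2⟩ := geometric_hahn_banach_closed_point himgconv himgc.isClosed hmem
    set y : V → ℝ := fun v => f (fun j => if v = j then 1 else 0) with hy
    have hfx : ∀ x : V → ℝ, f x = ∑ v, x v * y v := by
      intro x
      have := LinearMap.pi_apply_eq_sum_univ (f : (V → ℝ) →ₗ[ℝ] ℝ) x
      simpa [smul_eq_mul] using this
    have hfL : ∀ w : V × V × V → ℝ, f (loadMap w) =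
        ∑ p, w p * (y p.1 + y p.2.1 + y p.2.2) := by
      intro w
      rw [hfx]
      change ∑ v, (∑ p, w p * inc p v) * y v = _
      simp_rw [Finset.sum_mul]
      rw [Finset.sum_comm]
      refine Finset.sum_congr rfl (fun p _ => ?_)
      rw [← sum_inc, Finset.mul_sum]
      refine Finset.sum_congr rfl (fun v _ => ?_)
      ring
    -- the zero weight
    have h0 : (0 : ℝ) < r := by
      have h1 : (0 : V × V × V → ℝ) ∈ box := by
        intro p _
        refine ⟨le_rfl, ?_⟩
        simp only [Pi.zero_apply]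
        split_ifs
        · exact hb0.le
        · exact le_rfl
      have h2 := hf1 _ ⟨_, h1, rfl⟩
      rwa [map_zero, map_zero] at h2
    have hsum : 0 < ∑ v, y v := by
      have := h0.trans hf2
      rw [hfx] at this
      simpa using this
    -- the extreme weight
    set w : V × V × V → ℝ := fun p =>
      if E p.1 p.2.1 p.2.2 then (if 0 < y p.1 + y p.2.1 + y p.2.2 then b else 0) else 0 with hw
    have hwbox : w ∈ box := by
      intro p _
      rw [hw]
      simp only
      split_ifs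
      · exact ⟨hb0.le, le_rfl⟩
      · exact ⟨le_rfl, hb0.le⟩
      · exact ⟨le_rfl, le_rfl⟩
    have h1 := (hf1 _ ⟨_, hwbox, rfl⟩).trans hf2
    rw [hfL, hfx] at h1
    simp only [one_mul] at h1
    -- compute the left side
    have h2 : ∑ p : V × V × V, w p * (y p.1 + y p.2.1 + y p.2.2) =
        b / 2 * (∑ p : V × V × V,
            (if E p.1 p.2.1 p.2.2 then |y p.1 + y p.2.1 + y p.2.2| else 0) +
          ∑ p : V × V × V,
            (if E p.1 p.2.1 p.2.2 then y p.1 + y p.2.1 + y p.2.2 else 0)) := by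
      rw [← Finset.sum_add_distrib, Finset.mul_sum]
      refine Finset.sum_congr rfl (fun p _ => ?_)
      rw [hw]
      simp only
      by_cases hEp : E p.1 p.2.1 p.2.2
      · simp only [hEp, if_true]
        by_cases hg : 0 < y p.1 + y p.2.1 + y p.2.2
        · rw [if_pos hg, abs_of_pos hg]
          ring
        · rw [if_neg hg, abs_of_nonpos (not_lt.1 hg)]
          ring
      · simp [hEp]
    have h3 : ∑ p : V × V × V,
        (if E p.1 p.2.1 p.2.2 then |y p.1 + y p.2.1 + y p.2.2| else 0) =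
        ∑ x : V, edgeSum E y x := by
      rw [Fintype.sum_prod_type]
      rfl
    have h4 := star hc hc1 hpair y hn
    have h5 := sum_edge_linear hE y
    have h6 : d * (∑ v, y v) - η * n ^ 2 * (∑ v, |y v|) ≤
        ∑ v, (cnt (fun p : V × V => E v p.1 p.2) : ℝ) * y v := by
      rw [Finset.mul_sum, Finset.mul_sum, ← Finset.sum_sub_distrib]
      refine Finset.sum_le_sum (fun v _ => ?_)
      have h7 : |((cnt (fun p : V × V => E v p.1 p.2) : ℝ) - d) * y v| ≤
          η * n ^ 2 * |y v| := by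
        rw [abs_mul]
        exact mul_le_mul_of_nonneg_right (hdeg v) (abs_nonneg _)
      have h8 := (abs_le.1 h7).1
      linarith
    have h7 : 0 ≤ ∑ v, |y v| := Finset.sum_nonneg (fun v _ => abs_nonneg _)
    have h8 : 3 * d * (∑ v, y v) ≤ ∑ p : V × V × V,
        (if E p.1 p.2.1 p.2.2 then |y p.1 + y p.2.1 + y p.2.2| else 0) +
        ∑ p : V × V × V, (if E p.1 p.2.1 p.2.2 then y p.1 + y p.2.1 + y p.2.2 else 0) := by
      rw [h3, h5]
      have h9 : 3 * η * (n ^ 2 * ∑ v, |y v|) ≤ c ^ 3 / 4096 * (n ^ 2 * ∑ v, |y v|) := by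
        have : 0 ≤ n ^ 2 * ∑ v, |y v| := by positivity
        gcongr
      have h10 : c ^ 3 / 4096 * n ^ 2 * (∑ v, |y v|) =
        c ^ 3 / 4096 * (n ^ 2 * ∑ v, |y v|) := by ring
      rw [← hnn, h10] at h4
      nlinarith
    have h9 : ∑ v, y v ≤ b / 2 * (3 * d * (∑ v, y v)) := by
      have h10 : 1 ≤ b / 2 * (3 * d) := by
        have h11 : b * d ≥ 1 := by
          calc b * d ≥ b * (d0 * n ^ 2) := by gcongr
            _ = 1 := by
              rw [hb]
              field_simp
        linarith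
      calc ∑ v, y v = 1 * ∑ v, y v := (one_mul _).symm
        _ ≤ (b / 2 * (3 * d)) * ∑ v, y v := by gcongr
        _ = _ := by ring
    rw [h2] at h1
    have h10 : b / 2 * (3 * d * (∑ v, y v)) ≤ b / 2 * (∑ p : V × V × V,
        (if E p.1 p.2.1 p.2.2 then |y p.1 + y p.2.1 + y p.2.2| else 0) +
        ∑ p : V × V × V, (if E p.1 p.2.1 p.2.2 then y p.1 + y p.2.1 + y p.2.2 else 0)) := by
      gcongr
    linarith

end Pool.Agent.R76.B50
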