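import Mathlib
import Pool.Agent.R76.B50.Frac2

/-!
Extraction of a family of complete tripartite blobs with nearly regular degrees and small
codegrees from a bounded fractional perfect matching.
-/

set_option autoImplicit false
set_option linter.unusedSectionVars false

namespace Pool.Agent.R76.B50

open Finset

universe u

variable {V : Type u} [Fintype V] [DecidableEq V]

/-- the diagonal edges of a labelled blob -/
def diag {t : ℕ} (s : Fin 3 × Fin t → V) (i : Fin t) : V × V × V := (s (0, i), s (1, i), s (2, i))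

lemma cnt_two_le {ι : Type*} [Fintype ι] [DecidableEq ι] (R : V → V → Prop) {a b : ι}
    (hab : a ≠ b) :
    cnt (fun s : ι → V => R (s a) (s b)) ≤
      cnt (fun p : V × V => R p.1 p.2) * Fintype.card V ^ (Fintype.card ι - 2) := by
  classical
  have h2 : Fintype.card ({l : ι // ¬ (l = a ∨ l = b)} → V) =
      Fintype.card V ^ (Fintype.card ι - 2) := by
    rw [Fintype.card_fun]
    congr 1
    rw [Fintype.card_subtype_compl]
    congr 1
    rw [Fintype.card_subtype]
    have : (univ.filter (fun l : ι => l = a ∨ l = b)) = {a, b} := by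
      ext l
      simp
    rw [this, Finset.card_pair hab]
  rw [← h2, cnt_eq, cnt_eq, ← Finset.card_univ (α := {l : ι // ¬ (l = a ∨ l = b)} → V),
    ← Finset.card_product]
  refine Finset.card_le_card_of_injOn
    (fun s => ((s a, s b), fun l : {l : ι // ¬ (l = a ∨ l = b)} => s l)) ?_ ?_
  · intro s hs
    simp only [Finset.coe_filter, Finset.mem_univ, true_and, Set.mem_ofPred_eq] at hs
    simp [hs]
  · intro s _ s' _ h
    simp only [Prod.mk.injEq] at h
    funext l
    by_cases h1 : l = a ∨ l = b
    · rcases h1 with rfl | rfl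
      · exact h.1.1
      · exact h.1.2
    · exact congrFun h.2 ⟨l, h1⟩

lemma inc_diag {t : ℕ} (s : Fin 3 × Fin t → V) (hs : Function.Injective s) (v : V) :
    ∑ i, inc (diag s i) v = if ∃ q, s q = v then 1 else 0 := by
  classical
  have h1 : ∑ i, inc (diag s i) v = ∑ q : Fin 3 × Fin t, (if s q = v then (1 : ℝ) else 0) := by
    rw [Fintype.sum_prod_type, Fin.sum_univ_three, ← Finset.sum_add_distrib,
      ← Finset.sum_add_distrib]
    rfl
  rw [h1]
  by_cases h : ∃ q, s q = v
  · rw [if_pos h]
    obtain ⟨q, hq⟩ := h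
    rw [Finset.sum_eq_single q]
    · rw [if_pos hq]
    · intro q' _ hq'
      rw [if_neg]
      intro h
      exact hq' (hs (h.trans hq.symm))
    · intro h
      exact absurd (Finset.mem_univ q) h
  · rw [if_neg h]
    refine Finset.sum_eq_zero (fun q _ => ?_)
    rw [if_neg (fun h' => h ⟨q, h'⟩)]

lemma cnt_mem_filter {α : Type*} [Fintype α] (s : Finset α) (P : α → Prop) [DecidablePred P] :
    cnt (fun a => a ∈ s ∧ P a) = (s.filter P).card := by
  classical
  rw [cnt_eq]
  congr 1
  ext a
  simp

/-- Extraction. -/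
theorem extract {t : ℕ} (ht : 2 ≤ t) {E : V → V → V → Prop}
    {C1 κ δ : ℝ} {B : ℕ} (hC1 : 0 ≤ C1) (hκ : 0 < κ) (hδ : 0 ≤ δ) (hB : 0 < B)
    (w : V × V × V → ℝ) (hw0 : ∀ p, 0 ≤ w p)
    (hw1 : ∀ p, w p ≤ C1 / (Fintype.card V : ℝ) ^ 2)
    (hwE : ∀ p, ¬ E p.1 p.2.1 p.2.2 → w p = 0) (hload : ∀ v, ∑ p, w p * inc p v = 1)
    (hn0 : 1 ≤ Fintype.card V)
    (hn1 : 2 ≤ κ * (B * (Fintype.card V : ℝ) ^ 2))
    (hn2 : (3 * t : ℝ) ^ 2 + B + 2 * (3 * t : ℝ) ^ 4 / κ < δ ^ t ^ 3 * Fintype.card V) :
    ∃ 𝒦 : Finset (Fin 3 × Fin t → V),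
      (∀ s ∈ 𝒦, Function.Injective s ∧ ∀ i j l, E (s (0, i)) (s (1, j)) (s (2, l))) ∧
      (∀ v, (cnt (fun s => s ∈ 𝒦 ∧ ∃ q, s q = v) : ℝ) ≤ B * (Fintype.card V : ℝ) ^ 2) ∧
      (∀ u v, u ≠ v → (cnt (fun s => s ∈ 𝒦 ∧ (∃ q, s q = u) ∧ ∃ q, s q = v) : ℝ) ≤
        κ * (B * (Fintype.card V : ℝ) ^ 2)) ∧
      (B - 3 - 3 * δ * C1 * B) * (Fintype.card V : ℝ) ^ 3 ≤ 3 * t * 𝒦.card := by
  classical
  set n : ℝ := (Fintype.card V : ℝ) with hnn
  have hn1' : (1 : ℝ) ≤ n := by
    rw [hnn]
    exact_mod_cast hn0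
  have hne : Nonempty V := Fintype.card_pos_iff.1 (by omega)
  set D : ℝ := B * n ^ 2 with hD
  have hBr : (0 : ℝ) < B := by exact_mod_cast hB
  have hD0 : 0 < D := by positivity
  set cap : V × V × V → ℕ := fun p => ⌊w p * D⌋₊ with hcap
  have hcap1 : ∀ p, (cap p : ℝ) ≤ w p * D := fun p =>
    Nat.floor_le (mul_nonneg (hw0 p) hD0.le)
  have hcap2 : ∀ p, w p * D - 1 ≤ cap p := fun p => by
    have := (Nat.lt_floor_add_one (w p * D)).le
    rw [hcap]
    simp only
    linarith
  set use : Finset (Fin 3 × Fin t → V) → V × V × V → ℕ :=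
    fun 𝒦 p => (𝒦.filter (fun s => ∃ i, diag s i = p)).card with huse
  set cod : Finset (Fin 3 × Fin t → V) → V → V → ℕ :=
    fun 𝒦 u v => (𝒦.filter (fun s => (∃ q, s q = u) ∧ ∃ q, s q = v)).card with hcod
  set Adm : Finset (Fin 3 × Fin t → V) → Prop := fun 𝒦 =>
    (∀ s ∈ 𝒦, Function.Injective s ∧ ∀ i j l, E (s (0, i)) (s (1, j)) (s (2, l))) ∧
    (∀ p, use 𝒦 p ≤ cap p) ∧ (∀ u v, u ≠ v → (cod 𝒦 u v : ℝ) ≤ κ * D) with hAdm
  have hexA : (univ.filter Adm).Nonempty := by
    refine ⟨∅, ?_⟩
    rw [Finset.mem_filter]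
    refine ⟨Finset.mem_univ _, ?_, ?_, ?_⟩
    · intro s hs
      exact absurd hs (Finset.notMem_empty _)
    · intro p
      simp [huse]
    · intro u v _
      simp only [hcod, Finset.filter_empty, Finset.card_empty, Nat.cast_zero]
      positivity
  obtain ⟨𝒦, h𝒦, hmax⟩ := Finset.exists_max_image _ (fun 𝒦 => 𝒦.card) hexA
  obtain ⟨hK1, hK2, hK3⟩ := (Finset.mem_filter.1 h𝒦).2
  -- counting the diagonal edges
  have huse_sum : ∀ g : V × V × V → ℝ,
      ∑ p, (use 𝒦 p : ℝ) * g p = ∑ s ∈ 𝒦, ∑ i, g (diag s i) := by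
    intro g
    have h1 : ∀ p, (use 𝒦 p : ℝ) * g p = ∑ s ∈ 𝒦, ∑ i, (if diag s i = p then g p else 0) := by
      intro p
      rw [huse]
      simp only
      rw [Finset.card_filter]
      push_cast
      rw [Finset.sum_mul]
      refine Finset.sum_congr rfl (fun s hs => ?_)
      have hinj := (hK1 s hs).1
      by_cases h : ∃ i, diag s i = p
      · rw [if_pos h, one_mul]
        obtain ⟨i, hi⟩ := h
        rw [Finset.sum_eq_single i]
        · rw [if_pos hi]
        · intro j _ hj
          rw [if_neg]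
          intro h'
          have h2 : s (0, j) = s (0, i) := congrArg Prod.fst (h'.trans hi.symm)
          have h3 := hinj h2
          simp only [Prod.mk.injEq, true_and] at h3
          exact hj h3
        · intro h
          exact absurd (Finset.mem_univ i) h
      · rw [if_neg h, zero_mul]
        symm
        refine Finset.sum_eq_zero (fun i _ => ?_)
        rw [if_neg (fun h' => h ⟨i, h'⟩)]
    simp_rw [h1]
    rw [Finset.sum_comm]
    refine Finset.sum_congr rfl (fun s _ => ?_)
    rw [Finset.sum_comm]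
    refine Finset.sum_congr rfl (fun i _ => ?_)
    simp
  have hw_total : ∑ p, w p = n / 3 := by
    have h1 : ∑ v, ∑ p, w p * inc p v = n := by
      simp_rw [hload]
      rw [Finset.sum_const, Finset.card_univ, nsmul_eq_mul, mul_one]
    rw [Finset.sum_comm] at h1
    have h2 : ∀ p : V × V × V, ∑ v, w p * inc p v = 3 * w p := by
      intro p
      have h3 := sum_inc p (fun _ => 1)
      simp only [mul_one] at h3
      rw [← Finset.mul_sum, h3]
      ring
    simp_rw [h2] at h1
    rw [← Finset.mul_sum] at h1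
    linarith
  have hdeg : ∀ v, (cnt (fun s => s ∈ 𝒦 ∧ ∃ q, s q = v) : ℝ) ≤ D := by
    intro v
    have h1 := huse_sum (fun p => inc p v)
    have h2 : ∑ s ∈ 𝒦, ∑ i, inc (diag s i) v = (cnt (fun s => s ∈ 𝒦 ∧ ∃ q, s q = v) : ℝ) := by
      rw [Finset.sum_congr rfl (fun s hs => inc_diag s (hK1 s hs).1 v)]
      rw [cnt_mem_filter, ← Finset.sum_filter, Finset.sum_const, nsmul_eq_mul, mul_one]
    rw [← h2, ← h1]
    calc ∑ p, (use 𝒦 p : ℝ) * inc p v ≤ ∑ p, (w p * D) * inc p v := by
          refine Finset.sum_le_sum (fun p _ => ?_)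
          have h3 : (use 𝒦 p : ℝ) ≤ w p * D :=
            le_trans (by exact_mod_cast hK2 p) (hcap1 p)
          exact mul_le_mul_of_nonneg_right h3 (inc_nonneg p v)
      _ = D * ∑ p, w p * inc p v := by
          rw [Finset.mul_sum]
          refine Finset.sum_congr rfl (fun p _ => ?_)
          ring
      _ = D := by rw [hload, mul_one]
  have hcardK : (t : ℝ) * 𝒦.card = ∑ p, (use 𝒦 p : ℝ) := by
    have h1 := huse_sum (fun _ => 1)
    simp only [mul_one, Finset.sum_const, Finset.card_univ, Fintype.card_fin, nsmul_eq_mul] at h1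
    rw [h1]
    ring
  have ht0 : (2 : ℝ) ≤ t := by exact_mod_cast ht
  have hK_le : (𝒦.card : ℝ) ≤ D * n := by
    have h1 : (t : ℝ) * 𝒦.card ≤ D * (n / 3) := by
      rw [hcardK, ← hw_total, Finset.mul_sum]
      refine Finset.sum_le_sum (fun p _ => ?_)
      refine le_trans (by exact_mod_cast hK2 p) ((hcap1 p).trans (le_of_eq ?_))
      ring
    have h2 : (0 : ℝ) ≤ 𝒦.card := Nat.cast_nonneg _
    have h3 : 0 ≤ D * n := by positivity
    nlinarith
  -- few unsaturated triples
  set Un : V × V × V → Prop := fun p => use 𝒦 p < cap p with hUn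
  have hfew : (cnt Un : ℝ) < δ * n ^ 3 := by
    by_contra hcon
    have hcon' := not_lt.1 hcon
    have h1 := supersat' (fun x y z => Un (x, y, z)) t (by omega) δ hδ hcon'
    rw [← hnn] at h1
    -- the bad maps
    set Sat : V → V → Prop := fun a b => a ≠ b ∧ κ * D - 1 < cod 𝒦 a b with hSat
    have hSatc : (cnt (fun p : V × V => Sat p.1 p.2) : ℝ) ≤ 2 * (3 * t) ^ 2 * n / κ := by
      have h2 : (cnt (fun p : V × V => Sat p.1 p.2) : ℝ) * (κ * D / 2) ≤
          (3 * t) ^ 2 * (D * n) := by
        calc (cnt (fun p : V × V => Sat p.1 p.2) : ℝ) * (κ * D / 2) ≤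
            ∑ p : V × V, (cod 𝒦 p.1 p.2 : ℝ) := by
              rw [cnt_eq, ← nsmul_eq_mul]
              refine le_trans (Finset.card_nsmul_le_sum _ (fun p : V × V =>
                (cod 𝒦 p.1 p.2 : ℝ)) _ (fun p hp => ?_)) ?_
              · have h3 := (Finset.mem_filter.1 hp).2.2
                linarith
              · exact Finset.sum_le_sum_of_subset_of_nonneg (Finset.filter_subset _ _)
                  (fun _ _ _ => Nat.cast_nonneg _)
          _ = ∑ s ∈ 𝒦, ∑ p : V × V,
              (if (∃ q, s q = p.1) ∧ ∃ q, s q = p.2 then (1 : ℝ) else 0) := by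
              rw [Finset.sum_comm]
              refine Finset.sum_congr rfl (fun p _ => ?_)
              rw [hcod]
              simp only
              rw [Finset.card_filter]
              push_cast
              rfl
          _ ≤ ∑ s ∈ 𝒦, ((3 * t : ℝ) ^ 2) := by
              refine Finset.sum_le_sum (fun s _ => ?_)
              rw [← Finset.sum_filter, Finset.sum_const, nsmul_eq_mul, mul_one]
              have h3 : (univ.filter (fun p : V × V => (∃ q, s q = p.1) ∧ ∃ q, s q = p.2)) =
                  (univ.image s) ×ˢ (univ.image s) := by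
                ext p
                simp
              rw [h3, Finset.card_product]
              have h4 : (univ.image s).card ≤ 3 * t := by
                refine Finset.card_image_le.trans ?_
                simp
              have h5 : (univ.image s).card * (univ.image s).card ≤ (3 * t) ^ 2 := by
                rw [sq]
                exact Nat.mul_le_mul h4 h4
              exact_mod_cast h5
          _ = (𝒦.card : ℝ) * (3 * t) ^ 2 := by rw [Finset.sum_const, nsmul_eq_mul]
          _ ≤ (3 * t) ^ 2 * (D * n) := by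
              rw [mul_comm]
              gcongr
      rw [le_div_iff₀ hκ]
      have h3 : (cnt (fun p : V × V => Sat p.1 p.2) : ℝ) * κ * D ≤
          (2 * (3 * t) ^ 2 * n) * D := by nlinarith
      exact le_of_mul_le_mul_right h3 hD0
    have hcard3 : Fintype.card (Fin 3 × Fin t) = 3 * t := by simp
    have hbad : cnt (fun s : Fin 3 × Fin t → V =>
        ∀ i j l, Un (s (0, i), s (1, j), s (2, l))) ≤
        cnt (fun s : Fin 3 × Fin t → V => Function.Injective s ∧ s ∉ 𝒦 ∧
          (∀ a b, a ≠ b → ¬ Sat (s a) (s b)) ∧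
          ∀ i j l, Un (s (0, i), s (1, j), s (2, l))) +
        (cnt (fun s : Fin 3 × Fin t → V => ¬ Function.Injective s) +
        (cnt (fun s : Fin 3 × Fin t → V => s ∈ 𝒦) +
        cnt (fun s : Fin 3 × Fin t → V => ∃ a b, a ≠ b ∧ Sat (s a) (s b)))) := by
      refine le_trans (cnt_mono ?_) ((cnt_or _ _).trans (Nat.add_le_add_left
        ((cnt_or _ _).trans (Nat.add_le_add_left (cnt_or _ _) _)) _))
      intro s hs
      by_cases h2 : Function.Injective s
      · by_cases h3 : s ∈ 𝒦
        · exact Or.inr (Or.inr (Or.inl h3))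
        · by_cases h4 : ∃ a b, a ≠ b ∧ Sat (s a) (s b)
          · exact Or.inr (Or.inr (Or.inr h4))
          · left
            push Not at h4
            exact ⟨h2, h3, h4, hs⟩
      · exact Or.inr (Or.inl h2)
    have hb1 := cnt_not_inj_le (V := V) (ι := Fin 3 × Fin t)
    rw [hcard3] at hb1
    have hb2 : cnt (fun s : Fin 3 × Fin t → V => s ∈ 𝒦) = 𝒦.card := by
      rw [cnt_eq]
      congr 1
      ext s
      simp
    have hb3 : (cnt (fun s : Fin 3 × Fin t → V => ∃ a b, a ≠ b ∧ Sat (s a) (s b)) : ℝ) ≤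
        (3 * t) ^ 2 * ((2 * (3 * t) ^ 2 * n / κ) * n ^ (3 * t - 2)) := by
      have h2 : (univ.filter (fun s : Fin 3 × Fin t → V => ∃ a b, a ≠ b ∧ Sat (s a) (s b))) ⊆
          ((univ : Finset ((Fin 3 × Fin t) × (Fin 3 × Fin t))).filter
            (fun p => p.1 ≠ p.2)).biUnion
            (fun p => univ.filter (fun s : Fin 3 × Fin t → V => Sat (s p.1) (s p.2))) := by
        intro s hs
        obtain ⟨a, b, hab, h⟩ := (Finset.mem_filter.1 hs).2
        rw [Finset.mem_biUnion]
        exact ⟨(a, b), by simp [hab], by simp [h]⟩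
      have h3 : cnt (fun s : Fin 3 × Fin t → V => ∃ a b, a ≠ b ∧ Sat (s a) (s b)) ≤
          (3 * t) ^ 2 * (cnt (fun p : V × V => Sat p.1 p.2) *
            Fintype.card V ^ (3 * t - 2)) := by
        rw [cnt_eq]
        refine (Finset.card_le_card h2).trans ?_
        refine (Finset.card_biUnion_le_card_mul _ _ (cnt (fun p : V × V => Sat p.1 p.2) *
            Fintype.card V ^ (3 * t - 2)) ?_).trans ?_
        · intro p hp
          rw [Finset.mem_filter] at hp
          have h4 := cnt_two_le (V := V) (ι := Fin 3 × Fin t) Sat hp.2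
          rw [hcard3] at h4
          rwa [← cnt_eq]
        · gcongr
          refine (Finset.card_filter_le _ _).trans ?_
          rw [Finset.card_univ, Fintype.card_prod, hcard3, sq]
      have h4 : (cnt (fun s : Fin 3 × Fin t → V => ∃ a b, a ≠ b ∧ Sat (s a) (s b)) : ℝ) ≤
          (3 * t) ^ 2 * ((cnt (fun p : V × V => Sat p.1 p.2) : ℝ) * n ^ (3 * t - 2)) := by
        rw [hnn]
        exact_mod_cast h3
      refine h4.trans ?_
      gcongr
    -- there is a good one
    have hgood : 0 < cnt (fun s : Fin 3 × Fin t → V => Function.Injective s ∧ s ∉ 𝒦 ∧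
          (∀ a b, a ≠ b → ¬ Sat (s a) (s b)) ∧
          ∀ i j l, Un (s (0, i), s (1, j), s (2, l))) := by
      by_contra h0
      have h0' : cnt (fun s : Fin 3 × Fin t → V => Function.Injective s ∧ s ∉ 𝒦 ∧
          (∀ a b, a ≠ b → ¬ Sat (s a) (s b)) ∧
          ∀ i j l, Un (s (0, i), s (1, j), s (2, l))) = 0 := by omega
      rw [h0', zero_add] at hbad
      have h2 : (cnt (fun s : Fin 3 × Fin t → V =>
          ∀ i j l, Un (s (0, i), s (1, j), s (2, l))) : ℝ) ≤
          (3 * t) ^ 2 * n ^ (3 * t - 1) + (𝒦.card +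
            (cnt (fun s : Fin 3 × Fin t → V => ∃ a b, a ≠ b ∧ Sat (s a) (s b)) : ℝ)) := by
        rw [hb2] at hbad
        have := hbad.trans (Nat.add_le_add_right hb1 _)
        rw [hnn]
        exact_mod_cast this
      have h3 : (𝒦.card : ℝ) ≤ B * n ^ (3 * t - 1) := by
        calc (𝒦.card : ℝ) ≤ D * n := hK_le
          _ = B * n ^ 3 := by
              rw [hD]
              ring
          _ ≤ B * n ^ (3 * t - 1) := by
              refine mul_le_mul_of_nonneg_left ?_ hBr.le
              exact pow_le_pow_right₀ hn1' (by omega)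
      have h4 : (3 * t : ℝ) ^ 2 * ((2 * (3 * t) ^ 2 * n / κ) * n ^ (3 * t - 2)) =
          2 * (3 * t : ℝ) ^ 4 / κ * n ^ (3 * t - 1) := by
        have h5 : n ^ (3 * t - 1) = n * n ^ (3 * t - 2) := by
          rw [← pow_succ']
          congr 1
          omega
        rw [h5]
        ring
      rw [h4] at hb3
      have h5 : n ^ (3 * t) = n * n ^ (3 * t - 1) := by
        rw [← pow_succ']
        congr 1
        omega
      have h6 : 0 < n ^ (3 * t - 1) := by positivity
      have h7 : ((3 * t : ℝ) ^ 2 + B + 2 * (3 * t : ℝ) ^ 4 / κ) * n ^ (3 * t - 1) <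
          (δ ^ t ^ 3 * n) * n ^ (3 * t - 1) := mul_lt_mul_of_pos_right hn2 h6
      rw [h5] at h1
      have h8 : δ ^ t ^ 3 * (n * n ^ (3 * t - 1)) = (δ ^ t ^ 3 * n) * n ^ (3 * t - 1) := by ring
      rw [h8] at h1
      nlinarith
    obtain ⟨s, hs1, hs2, hs3, hs4⟩ := cnt_pos hgood
    -- add it
    have hnew : Adm (insert s 𝒦) := by
      refine ⟨?_, ?_, ?_⟩
      · intro s' hs'
        rw [Finset.mem_insert] at hs'
        rcases hs' with rfl | hs'
        · refine ⟨hs1, fun i j l => ?_⟩
          by_contra hE'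
          have h2 := hs4 i j l
          have h3 : cap (s' (0, i), s' (1, j), s' (2, l)) = 0 := by
            show ⌊w (s' (0, i), s' (1, j), s' (2, l)) * D⌋₊ = 0
            rw [hwE _ hE', zero_mul, Nat.floor_zero]
          have h2' : use 𝒦 (s' (0, i), s' (1, j), s' (2, l)) <
              cap (s' (0, i), s' (1, j), s' (2, l)) := h2
          rw [h3] at h2'
          exact Nat.not_lt_zero _ h2'
        · exact hK1 s' hs'
      · intro p
        rw [huse]
        simp only
        rw [Finset.filter_insert]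
        split_ifs with h2
        · obtain ⟨i, hi⟩ := h2
          have h3 := hs4 i i i
          have h4 : Un p := by
            rw [← hi]
            exact h3
          refine (Finset.card_insert_le _ _).trans ?_
          rw [hUn] at h4
          exact h4
        · exact hK2 p
      · intro a b hab
        rw [hcod]
        simp only
        rw [Finset.filter_insert]
        split_ifs with h2
        · obtain ⟨⟨q, hq⟩, ⟨q', hq'⟩⟩ := h2
          have hqq : q ≠ q' := by
            rintro rfl
            exact hab (hq.symm.trans hq')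
          have h3 := hs3 q q' hqq
          rw [hq, hq'] at h3
          have h4 : ¬ (κ * D - 1 < cod 𝒦 a b) := fun h => h3 ⟨hab, h⟩
          have h5 := not_lt.1 h4
          have h6 : ((insert s (𝒦.filter (fun s => (∃ q, s q = a) ∧ ∃ q, s q = b))).card : ℝ) ≤
              (cod 𝒦 a b : ℝ) + 1 := by
            exact_mod_cast Finset.card_insert_le _ _
          linarith
        · exact hK3 a b hab
    have h2 := hmax (insert s 𝒦) (Finset.mem_filter.2 ⟨Finset.mem_univ _, hnew⟩)
    rw [Finset.card_insert_of_notMem hs2] at h2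
    omega
  refine ⟨𝒦, hK1, hdeg, ?_, ?_⟩
  · intro a b hab
    refine le_trans (le_of_eq ?_) (hK3 a b hab)
    rw [cnt_mem_filter]
  · -- the total
    have h1 : ∀ p, w p * D - 1 - (if Un p then C1 * B else 0) ≤ (use 𝒦 p : ℝ) := by
      intro p
      by_cases h : Un p
      · rw [if_pos h]
        have h2 : w p * D ≤ C1 * B := by
          calc w p * D ≤ C1 / n ^ 2 * D := by
                have := hw1 p
                gcongr
            _ = C1 * B := by
                rw [hD]
                field_simp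
        have h3 : (0 : ℝ) ≤ use 𝒦 p := Nat.cast_nonneg _
        linarith
      · rw [if_neg h]
        have h2 : cap p ≤ use 𝒦 p := by
          rw [hUn] at h
          exact not_lt.1 h
        have h3 : (cap p : ℝ) ≤ use 𝒦 p := by exact_mod_cast h2
        linarith [hcap2 p]
    have h2 : ∑ p : V × V × V, (w p * D - 1 - (if Un p then C1 * B else 0)) ≤
        ∑ p, (use 𝒦 p : ℝ) := Finset.sum_le_sum (fun p _ => h1 p)
    have h3 : (Fintype.card (V × V × V) : ℝ) = n ^ 3 := by
      rw [Fintype.card_prod, Fintype.card_prod]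
      push_cast
      rw [← hnn]
      ring
    have h6 : ∑ p : V × V × V, (w p * D - 1 - (if Un p then C1 * B else 0)) =
        n / 3 * D - n ^ 3 - (cnt Un : ℝ) * (C1 * B) := by
      rw [Finset.sum_sub_distrib, Finset.sum_sub_distrib, ← Finset.sum_mul, hw_total]
      congr 1
      · congr 1
        rw [Finset.sum_const, Finset.card_univ, nsmul_eq_mul, mul_one, h3]
      · rw [← Finset.sum_filter, Finset.sum_const, nsmul_eq_mul, ← cnt_eq]
    rw [h6, ← hcardK] at h2
    have h4 : (cnt Un : ℝ) * (C1 * B) ≤ δ * n ^ 3 * (C1 * B) := by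
      have : 0 ≤ C1 * B := by positivity
      gcongr
    have h5 : n / 3 * D = B * n ^ 3 / 3 := by
      rw [hD]
      ring
    rw [h5] at h2
    linarith

end Pool.Agent.R76.B50
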