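import Mathlib
import Pool.Agent.R76.B50.Absorb2

/-!
The final step: divisibility correction and absorption.
-/

set_option autoImplicit false
set_option linter.unusedSectionVars false

namespace Pool.Agent.R76.B50

open Finset

universe u

variable {V : Type u} [Fintype V] [DecidableEq V]

set_option maxHeartbeats 1000000 in
lemma finish {N k : ℕ} (hk : 1 ≤ k) {E : V → V → V → Prop} (hE : Sym3 E) (cl : V → Fin N)
    (𝒟 : Finset (Fin N × Fin N × Fin N)) (I : Finset (Fin N)) (hI : ∀ v, cl v ∈ I)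
    {D0 N0 : ℕ} (hD0 : 0 < D0) (co : Fin N → (Fin N × Fin N × Fin N) → ℤ)
    (hco1 : ∀ i τ, |co i τ| ≤ N0) (hco2 : ∀ i τ, τ ∉ 𝒟 → co i τ = 0)
    (hco3 : ∀ i ∈ I, ∀ x, ∑ τ, co i τ * (mlt τ x : ℤ) = if i = x then (D0 : ℤ) else 0)
    (𝒜 : Finset (Finset V)) (h𝒜1 : ∀ A ∈ 𝒜, Tile (IsTri E k) A)
    (h𝒜2 : ∀ A ∈ 𝒜, ∀ B ∈ 𝒜, A ≠ B → Disjoint A B)
    {Q : ℕ} (X : (Fin N × Fin N × Fin N) × Fin Q → Finset V)
    (hX1 : ∀ p, p.1 ∈ 𝒟 → IsTri (EType E cl p.1) k (X p))
    (hX2 : ∀ p q, p.1 ∈ 𝒟 → q.1 ∈ 𝒟 → p ≠ q → Disjoint (X p) (X q))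
    (hX3 : ∀ A ∈ 𝒜, ∀ p, p.1 ∈ 𝒟 → Disjoint A (X p))
    (X0 : Finset V) (hX0 : Tile (IsTri E k) X0) (hX0A : ∀ A ∈ 𝒜, Disjoint A X0)
    (hX0X : ∀ p, p.1 ∈ 𝒟 → Disjoint (X p) X0)
    (L : Finset V) (hL : L = univ \ ((𝒜.biUnion id ∪ (𝒟 ×ˢ univ).biUnion X) ∪ X0))
    (hQ : N0 * L.card ≤ Q)
    (habs : ∀ T : Fin 3 × Fin k → V, Function.Injective T → ∀ τ ∈ 𝒟, HasType cl T τ →
      Fintype.card (Fin N × Fin N × Fin N) * (N0 * L.card) ≤
        cnt (fun A => A ∈ 𝒜 ∧ Absorbs (IsTri E k) (univ.image T) A)) :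
    ∃ Z : Finset V, Tile (IsTri E k) Z ∧ (univ \ Z).card ≤ N * (D0 * k) := by
  classical
  have hDk : 0 < D0 * k := Nat.mul_pos hD0 (by omega)
  set ν : Fin N → ℕ := fun i => (L.filter (fun v => cl v = i)).card with hν
  have hR : ∀ i, ∃ R ⊆ L.filter (fun v => cl v = i), R.card = ν i % (D0 * k) := fun i =>
    Finset.exists_subset_card_eq (Nat.mod_le _ _)
  choose R hRsub hRc using hR
  set L0 : Finset V := univ.biUnion R with hL0
  have hL0L : L0 ⊆ L := by
    rw [hL0, Finset.biUnion_subset]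
    intro i _ v hv
    exact (Finset.mem_filter.1 (hRsub i hv)).1
  have hL0c : L0.card ≤ N * (D0 * k) := by
    refine (Finset.card_biUnion_le_card_mul _ _ (D0 * k) (fun i _ => ?_)).trans ?_
    · rw [hRc i]
      exact (Nat.mod_lt _ hDk).le
    · rw [Finset.card_univ, Fintype.card_fin]
  have hL0x : ∀ x, L0.filter (fun v => cl v = x) = R x := by
    intro x
    ext v
    rw [Finset.mem_filter, hL0, Finset.mem_biUnion]
    constructor
    · rintro ⟨⟨i, _, hi⟩, hx⟩
      have := (Finset.mem_filter.1 (hRsub i hi)).2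
      rw [← hx, this]
      exact hi
    · intro hv
      exact ⟨⟨x, Finset.mem_univ _, hv⟩, (Finset.mem_filter.1 (hRsub x hv)).2⟩
  set q : Fin N → ℕ := fun i => ν i / (D0 * k) with hq
  have hLx : ∀ x, ((L \ L0).filter (fun v => cl v = x)).card = D0 * k * q x := by
    intro x
    have h1 : (L.filter (fun v => cl v = x)).card =
        ((L \ L0).filter (fun v => cl v = x)).card + (L0.filter (fun v => cl v = x)).card := by
      rw [← Finset.card_union_of_disjoint, ← Finset.filter_union,
        Finset.sdiff_union_of_subset hL0L]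
      exact Finset.disjoint_filter_filter Finset.sdiff_disjoint
    rw [hL0x x, hRc x] at h1
    have h2 := Nat.div_add_mod (ν x) (D0 * k)
    have h3 : ν x = (L.filter (fun v => cl v = x)).card := rfl
    rw [← h3] at h1
    change _ = D0 * k * (ν x / (D0 * k))
    omega
  set Nn : (Fin N × Fin N × Fin N) → ℤ := fun τ => ∑ i, (q i : ℤ) * co i τ with hNn
  have hνsum : ∑ i, ν i = L.card := by
    rw [Finset.card_eq_sum_card_fiberwise (f := cl) (t := univ)
      (fun _ _ => Finset.mem_coe.2 (Finset.mem_univ _))]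
  have hqsum : ∑ i, q i ≤ L.card := by
    rw [← hνsum]
    exact Finset.sum_le_sum (fun i _ => Nat.div_le_self _ _)
  have hNnabs : ∀ τ, |Nn τ| ≤ (N0 * L.card : ℕ) := by
    intro τ
    calc |Nn τ| ≤ ∑ i, |(q i : ℤ) * co i τ| := Finset.abs_sum_le_sum_abs _ _
      _ ≤ ∑ i, (q i : ℤ) * N0 := by
          refine Finset.sum_le_sum (fun i _ => ?_)
          rw [abs_mul, abs_of_nonneg (Int.natCast_nonneg _)]
          exact mul_le_mul_of_nonneg_left (hco1 i τ) (Int.natCast_nonneg _)
      _ = (∑ i, q i : ℕ) * (N0 : ℤ) := by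
          rw [← Finset.sum_mul]
          push_cast
          rfl
      _ ≤ (L.card : ℤ) * N0 := by
          refine mul_le_mul_of_nonneg_right ?_ (Int.natCast_nonneg _)
          exact_mod_cast hqsum
      _ = (N0 * L.card : ℕ) := by
          push_cast
          ring
  set fr : (Fin N × Fin N × Fin N) → ℕ := fun τ => (-Nn τ).toNat with hfr
  set m : (Fin N × Fin N × Fin N) → ℕ := fun τ => (Nn τ).toNat with hm
  have hfrm : ∀ τ, (m τ : ℤ) = Nn τ + fr τ := by
    intro τ
    rw [hm, hfr]
    simp only [Int.toNat_eq_max]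
    have := le_total (Nn τ) 0
    omega
  have hfrle : ∀ τ, fr τ ≤ N0 * L.card := by
    intro τ
    have h1 := hNnabs τ
    rw [abs_le] at h1
    rw [hfr]
    simp only
    omega
  have hmle : ∀ τ, m τ ≤ N0 * L.card := by
    intro τ
    have h1 := hNnabs τ
    rw [abs_le] at h1
    rw [hm]
    simp only
    omega
  have hNn0 : ∀ τ, τ ∉ 𝒟 → Nn τ = 0 := by
    intro τ hτ
    rw [hNn]
    simp only
    exact Finset.sum_eq_zero (fun i _ => by rw [hco2 i τ hτ, mul_zero])
  have hfr0 : ∀ τ, τ ∉ 𝒟 → fr τ = 0 := by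
    intro τ hτ
    rw [hfr]
    simp only
    rw [hNn0 τ hτ]
    rfl
  set S1 : Finset ((Fin N × Fin N × Fin N) × Fin Q) :=
    (𝒟 ×ˢ univ).filter (fun p => (p.2 : ℕ) < fr p.1) with hS1
  set S2 : Finset ((Fin N × Fin N × Fin N) × Fin Q) :=
    (𝒟 ×ˢ univ).filter (fun p => ¬ (p.2 : ℕ) < fr p.1) with hS2
  have hS1D : ∀ p ∈ S1, p.1 ∈ 𝒟 := by
    intro p hp
    rw [hS1, Finset.mem_filter, Finset.mem_product] at hp
    exact hp.1.1
  have hS2D : ∀ p ∈ S2, p.1 ∈ 𝒟 := by
    intro p hp
    rw [hS2, Finset.mem_filter, Finset.mem_product] at hp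
    exact hp.1.1
  set Y : Finset V := (L \ L0) ∪ S1.biUnion X with hY
  -- membership in L
  have hLmem : ∀ v, v ∈ L ↔ (∀ A ∈ 𝒜, v ∉ A) ∧ (∀ p : (Fin N × Fin N × Fin N) × Fin Q,
      p.1 ∈ 𝒟 → v ∉ X p) ∧ v ∉ X0 := by
    intro v
    rw [hL]
    simp only [Finset.mem_sdiff, Finset.mem_univ, true_and, Finset.mem_union,
      Finset.mem_biUnion, Finset.mem_product, and_true, id, not_or, not_exists, not_and]
    tauto
  have hcX : ∀ p : (Fin N × Fin N × Fin N) × Fin Q, p.1 ∈ 𝒟 → ∀ x,
      ((X p).filter (fun v => cl v = x)).card = k * mlt p.1 x := by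
    intro p hp x
    obtain ⟨w, hw1, hw2, hw3⟩ := lab_of_tri hk hE cl p.1 (hX1 p hp)
    rw [← hw3]
    exact lab_count cl w hw1 p.1 hw2 x
  have hS1x : ∀ x, ((S1.biUnion X).filter (fun v => cl v = x)).card =
      ∑ τ, fr τ * (k * mlt τ x) := by
    intro x
    rw [Finset.filter_biUnion, Finset.card_biUnion]
    · rw [Finset.sum_congr rfl (fun p hp => hcX p (hS1D p hp) x), hS1, Finset.sum_filter,
        Finset.sum_product]
      have h1 : ∀ τ, ∑ j : Fin Q, (if (j : ℕ) < fr τ then k * mlt τ x else 0) =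
          fr τ * (k * mlt τ x) := by
        intro τ
        rw [← Finset.sum_filter, Finset.sum_const, smul_eq_mul]
        congr 1
        have h2 : (univ.filter (fun j : Fin Q => (j : ℕ) < fr τ)).card = fr τ := by
          have h3 := Fin.card_filter_val_lt (n := Q) (m := fr τ)
          rw [h3]
          exact min_eq_right ((hfrle τ).trans hQ)
        exact h2
      simp_rw [h1]
      refine Finset.sum_subset (Finset.subset_univ _) (fun τ _ hτ => ?_)
      rw [hfr0 τ hτ, zero_mul]
    · intro p hp p' hp' hne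
      exact (hX2 p p' (hS1D p hp) (hS1D p' hp') hne).mono (Finset.filter_subset _ _)
        (Finset.filter_subset _ _)
  have hYx : ∀ x, (Y.filter (fun v => cl v = x)).card = ∑ τ, m τ * (k * mlt τ x) := by
    intro x
    have h1 : (Y.filter (fun v => cl v = x)).card =
        D0 * k * q x + ∑ τ, fr τ * (k * mlt τ x) := by
      rw [hY, Finset.filter_union, Finset.card_union_of_disjoint, hLx, hS1x]
      refine Finset.disjoint_filter_filter ?_
      rw [Finset.disjoint_biUnion_right]
      intro p hp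
      rw [Finset.disjoint_left]
      intro v hv
      exact ((hLmem v).1 (Finset.mem_sdiff.1 hv).1).2.1 p (hS1D p hp)
    rw [h1]
    have h2 : ((D0 * k * q x + ∑ τ, fr τ * (k * mlt τ x) : ℕ) : ℤ) =
        ((∑ τ, m τ * (k * mlt τ x) : ℕ) : ℤ) := by
      push_cast
      have h3 : ∀ τ, (m τ : ℤ) * (k * mlt τ x) = Nn τ * (k * mlt τ x) + fr τ * (k * mlt τ x) := by
        intro τ
        rw [hfrm τ]
        ring
      simp_rw [h3]
      rw [Finset.sum_add_distrib]
      congr 1
      have h4 : ∀ τ, Nn τ * ((k : ℤ) * mlt τ x) =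
          ∑ i, (k : ℤ) * ((q i : ℤ) * (co i τ * mlt τ x)) := by
        intro τ
        rw [hNn]
        simp only
        rw [Finset.sum_mul]
        refine Finset.sum_congr rfl (fun i _ => ?_)
        ring
      simp_rw [h4]
      rw [Finset.sum_comm]
      simp_rw [← Finset.mul_sum]
      have h5 : ∀ i, (q i : ℤ) * ∑ τ, co i τ * (mlt τ x : ℤ) =
          (q i : ℤ) * (if i = x then (D0 : ℤ) else 0) := by
        intro i
        by_cases hi : i ∈ I
        · rw [hco3 i hi x]
        · have h6 : q i = 0 := by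
            have h7 : ν i = 0 := by
              rw [hν]
              simp only
              rw [Finset.card_eq_zero, Finset.filter_eq_empty_iff]
              intro v _ hv
              exact hi (hv ▸ hI v)
            rw [hq]
            simp only
            rw [h7, Nat.zero_div]
          rw [h6]
          simp
      simp_rw [h5]
      simp only [mul_ite, mul_zero, Finset.sum_ite_eq', Finset.mem_univ, if_true]
      ring
    exact_mod_cast h2
  have hAY : ∀ A ∈ 𝒜, Disjoint A Y := by
    intro A hA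
    rw [hY, Finset.disjoint_union_right, Finset.disjoint_biUnion_right]
    refine ⟨?_, fun p hp => hX3 A hA p (hS1D p hp)⟩
    rw [Finset.disjoint_right]
    intro v hv
    exact ((hLmem v).1 (Finset.mem_sdiff.1 hv).1).1 A hA
  have hT1 := absorb_all (K := IsTri E k) cl 𝒟 (∑ τ, m τ) m Y 𝒜 rfl
    (by
      intro τ hτ
      by_contra hcon
      apply hτ
      rw [hm]
      simp only
      rw [hNn0 τ hcon]
      rfl) hYx h𝒜1 h𝒜2 hAY
    (by
      intro T hT τ hτ hTτ
      refine le_trans ?_ (habs T hT τ hτ hTτ)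
      refine (Finset.sum_le_card_nsmul _ _ _ (fun τ _ => hmle τ)).trans ?_
      rw [Finset.card_univ, smul_eq_mul])
  have hT2 : Tile (IsTri E k) (S2.biUnion X) := by
    refine tile_biUnion S2 X (fun p hp => Tile.single (isTri_mono (fun a b c h => h.1)
      (hX1 p (hS2D p hp)))) ?_
    intro p hp p' hp' hne
    exact hX2 p p' (hS2D p hp) (hS2D p' hp') hne
  refine ⟨(𝒜.biUnion id ∪ Y) ∪ (X0 ∪ S2.biUnion X), ?_, ?_⟩
  · refine Tile.union hT1 (Tile.union hX0 hT2 ?_) ?_
    · rw [Finset.disjoint_biUnion_right]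
      intro p hp
      exact (hX0X p (hS2D p hp)).symm
    · rw [Finset.disjoint_union_left, Finset.disjoint_union_right, Finset.disjoint_union_right,
        Finset.disjoint_biUnion_left, Finset.disjoint_biUnion_left]
      refine ⟨⟨hX0A, ?_⟩, ?_, ?_⟩
      · intro A hA
        rw [Finset.disjoint_biUnion_right]
        intro p hp
        exact hX3 A hA p (hS2D p hp)
      · rw [hY, Finset.disjoint_union_left, Finset.disjoint_biUnion_left]
        refine ⟨?_, fun p hp => hX0X p (hS1D p hp)⟩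
        rw [Finset.disjoint_left]
        intro v hv
        exact ((hLmem v).1 (Finset.mem_sdiff.1 hv).1).2.2
      · rw [hY, Finset.disjoint_union_left, Finset.disjoint_biUnion_left,
          Finset.disjoint_biUnion_right]
        constructor
        · intro p hp
          rw [Finset.disjoint_left]
          intro v hv
          exact ((hLmem v).1 (Finset.mem_sdiff.1 hv).1).2.1 p (hS2D p hp)
        · intro p hp
          rw [Finset.disjoint_biUnion_right]
          intro p' hp'
          refine hX2 p p' (hS1D p hp) (hS2D p' hp') ?_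
          rintro rfl
          rw [hS1, Finset.mem_filter] at hp
          rw [hS2, Finset.mem_filter] at hp'
          exact hp'.2 hp.2
  · refine (Finset.card_le_card ?_).trans hL0c
    intro v hv
    simp only [hY, Finset.mem_sdiff, Finset.mem_union, Finset.mem_univ, true_and] at hv
    by_contra hcon
    apply hv
    by_cases h1 : v ∈ L
    · exact Or.inl (Or.inr (Or.inl ⟨h1, hcon⟩))
    · rw [hLmem v] at h1
      by_cases h2 : ∀ A ∈ 𝒜, v ∉ A
      · by_cases h3 : v ∈ X0
        · exact Or.inr (Or.inl h3)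
        · have h4 : ¬ ∀ p : (Fin N × Fin N × Fin N) × Fin Q, p.1 ∈ 𝒟 → v ∉ X p := by
            intro h4
            exact h1 ⟨h2, h4, h3⟩
          push Not at h4
          obtain ⟨p, hp, hvp⟩ := h4
          by_cases h5 : (p.2 : ℕ) < fr p.1
          · refine Or.inl (Or.inr (Or.inr ?_))
            rw [Finset.mem_biUnion]
            refine ⟨p, ?_, hvp⟩
            rw [hS1, Finset.mem_filter, Finset.mem_product]
            exact ⟨⟨hp, Finset.mem_univ _⟩, h5⟩
          · refine Or.inr (Or.inr ?_)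
            rw [Finset.mem_biUnion]
            refine ⟨p, ?_, hvp⟩
            rw [hS2, Finset.mem_filter, Finset.mem_product]
            exact ⟨⟨hp, Finset.mem_univ _⟩, h5⟩
      · push Not at h2
        obtain ⟨A, hA, hvA⟩ := h2
        refine Or.inl (Or.inl ?_)
        rw [Finset.mem_biUnion]
        exact ⟨A, hA, hvA⟩

end Pool.Agent.R76.B50
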