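import Mathlib
import Pool.Agent.R76.B50.Closed
import Pool.Agent.R76.B50.Extract

/-!
Near-perfect tilings from a nearly regular family of blobs, by a derandomized choice.
-/

set_option autoImplicit false
set_option linter.unusedSectionVars false

namespace Pool.Agent.R76.B50

open Finset

universe u

variable {V : Type u} [Fintype V] [DecidableEq V]

set_option maxHeartbeats 1000000 in
/-- a complete tripartite set can be tiled up to its imbalance -/
lemma tri_tile {E : V → V → V → Prop} {k : ℕ} (hk : 1 ≤ k) (m : ℕ) :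
    ∀ (A B C : Finset V), A.card = m → (∀ a ∈ A, ∀ b ∈ B, ∀ c ∈ C, E a b c) →
      Disjoint A B → Disjoint A C → Disjoint B C →
      ∃ X ⊆ A ∪ B ∪ C, Tile (IsTri E k) X ∧ ((((A ∪ B ∪ C) \ X).card : ℕ) : ℝ) ≤
        |(A.card : ℝ) - B.card| + |(B.card : ℝ) - C.card| + |(C.card : ℝ) - A.card| +
          3 * k := by
  induction m using Nat.strong_induction_on with
  | _ m ih =>
    intro A B C hm hE hAB hAC hBC
    by_cases h : k ≤ A.card ∧ k ≤ B.card ∧ k ≤ C.card
    · obtain ⟨hA, hB, hC⟩ := h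
      obtain ⟨A0, hA0, hA0c⟩ := Finset.exists_subset_card_eq hA
      obtain ⟨B0, hB0, hB0c⟩ := Finset.exists_subset_card_eq hB
      obtain ⟨C0, hC0, hC0c⟩ := Finset.exists_subset_card_eq hC
      have h1 : (A \ A0).card = A.card - k := by rw [Finset.card_sdiff_of_subset hA0, hA0c]
      have h2 : (B \ B0).card = B.card - k := by rw [Finset.card_sdiff_of_subset hB0, hB0c]
      have h3 : (C \ C0).card = C.card - k := by rw [Finset.card_sdiff_of_subset hC0, hC0c]
      obtain ⟨X, hX, hT, hc⟩ := ih (A \ A0).card (by omega) (A \ A0) (B \ B0) (C \ C0) rfl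
        (fun a ha b hb c hc => hE a (Finset.sdiff_subset ha) b (Finset.sdiff_subset hb) c
          (Finset.sdiff_subset hc))
        (hAB.mono Finset.sdiff_subset Finset.sdiff_subset)
        (hAC.mono Finset.sdiff_subset Finset.sdiff_subset)
        (hBC.mono Finset.sdiff_subset Finset.sdiff_subset)
      rw [h1, h2, h3] at hc
      push_cast [hA, hB, hC] at hc
      refine ⟨(A0 ∪ B0 ∪ C0) ∪ X, ?_, ?_, ?_⟩
      · refine Finset.union_subset (Finset.union_subset (Finset.union_subset ?_ ?_) ?_) ?_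
        · intro a ha
          simp [hA0 ha]
        · intro a ha
          simp [hB0 ha]
        · intro a ha
          simp [hC0 ha]
        · intro a ha
          have h4 := hX ha
          simp only [Finset.mem_union, Finset.mem_sdiff] at h4 ⊢
          tauto
      · refine Tile.add hT ⟨A0, B0, C0, hA0c, hB0c, hC0c, rfl, fun a ha b hb c hc =>
          hE a (hA0 ha) b (hB0 hb) c (hC0 hc)⟩ ?_
        rw [Finset.disjoint_left]
        intro a ha ha'
        have h4 := hX ha'
        simp only [Finset.mem_union, Finset.mem_sdiff] at h4 ha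
        rcases ha with (ha | ha) | ha <;> rcases h4 with (h4 | h4) | h4
        · exact h4.2 ha
        · exact Finset.disjoint_left.1 hAB (hA0 ha) h4.1
        · exact Finset.disjoint_left.1 hAC (hA0 ha) h4.1
        · exact Finset.disjoint_left.1 hAB h4.1 (hB0 ha)
        · exact h4.2 ha
        · exact Finset.disjoint_left.1 hBC (hB0 ha) h4.1
        · exact Finset.disjoint_left.1 hAC h4.1 (hC0 ha)
        · exact Finset.disjoint_left.1 hBC h4.1 (hC0 ha)
        · exact h4.2 ha
      · have h4 : ((A ∪ B ∪ C) \ (A0 ∪ B0 ∪ C0 ∪ X)) ⊆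
            (((A \ A0) ∪ (B \ B0) ∪ (C \ C0)) \ X) := by
          intro a ha
          simp only [Finset.mem_union, Finset.mem_sdiff] at ha ⊢
          tauto
        have h5 : ((((A ∪ B ∪ C) \ (A0 ∪ B0 ∪ C0 ∪ X)).card : ℕ) : ℝ) ≤
            ((((A \ A0) ∪ (B \ B0) ∪ (C \ C0)) \ X).card : ℕ) := by
          exact_mod_cast Finset.card_le_card h4
        have e1 : ∀ x y : ℝ, x - k - (y - k) = x - y := fun x y => by ring
        rw [e1, e1, e1] at hc
        exact h5.trans hc
    · refine ⟨∅, Finset.empty_subset _, Tile.empty, ?_⟩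
      rw [Finset.sdiff_empty]
      have h1 : (((A ∪ B ∪ C).card : ℕ) : ℝ) ≤ A.card + B.card + C.card := by
        have h2 := Finset.card_union_le (A ∪ B) C
        have h3 := Finset.card_union_le A B
        exact_mod_cast h2.trans (Nat.add_le_add_right h3 _)
      refine h1.trans ?_
      have a1 := le_abs_self ((A.card : ℝ) - B.card)
      have a2 := neg_abs_le ((A.card : ℝ) - B.card)
      have b1 := le_abs_self ((B.card : ℝ) - C.card)
      have b2 := neg_abs_le ((B.card : ℝ) - C.card)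
      have c1 := le_abs_self ((C.card : ℝ) - A.card)
      have c2 := neg_abs_le ((C.card : ℝ) - A.card)
      have d1 := abs_nonneg ((A.card : ℝ) - B.card)
      have d2 := abs_nonneg ((B.card : ℝ) - C.card)
      have d3 := abs_nonneg ((C.card : ℝ) - A.card)
      have h2 : A.card < k ∨ B.card < k ∨ C.card < k := by
        by_contra h3
        push Not at h3
        exact h h3
      rcases h2 with h2 | h2 | h2
      · have h3 : (A.card : ℝ) < k := by exact_mod_cast h2
        linarith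
      · have h3 : (B.card : ℝ) < k := by exact_mod_cast h2
        linarith
      · have h3 : (C.card : ℝ) < k := by exact_mod_cast h2
        linarith

/-! ### Quadratic forms -/

/-- quadratic form on the complement of `U` -/
noncomputable def Qf (g : V → V → ℝ) (U : Finset V) : ℝ :=
  ∑ u, ∑ v, if u ∉ U ∧ v ∉ U then g u v else 0

lemma Qf_add (g h : V → V → ℝ) (U : Finset V) :
    Qf (fun u v => g u v + h u v) U = Qf g U + Qf h U := by
  unfold Qf
  rw [← Finset.sum_add_distrib]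
  refine Finset.sum_congr rfl (fun u _ => ?_)
  rw [← Finset.sum_add_distrib]
  refine Finset.sum_congr rfl (fun v _ => ?_)
  split_ifs <;> simp

lemma Qf_smul (a : ℝ) (g : V → V → ℝ) (U : Finset V) :
    Qf (fun u v => a * g u v) U = a * Qf g U := by
  unfold Qf
  rw [Finset.mul_sum]
  refine Finset.sum_congr rfl (fun u _ => ?_)
  rw [Finset.mul_sum]
  refine Finset.sum_congr rfl (fun v _ => ?_)
  split_ifs <;> simp

lemma Qf_sum {ι : Type*} (s : Finset ι) (g : ι → V → V → ℝ) (U : Finset V) :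
    Qf (fun u v => ∑ i ∈ s, g i u v) U = ∑ i ∈ s, Qf (g i) U := by
  classical
  induction s using Finset.induction_on with
  | empty => simp [Qf]
  | insert i s hi ih =>
    rw [Finset.sum_insert hi, ← ih, ← Qf_add]
    congr 1
    funext u v
    rw [Finset.sum_insert hi]

lemma Qf_empty (g : V → V → ℝ) : Qf g ∅ = ∑ u, ∑ v, g u v := by
  unfold Qf
  simp

lemma Qf_sq (f : V → ℝ) (U : Finset V) :
    Qf (fun u v => f u * f v) U = (∑ v, if v ∉ U then f v else 0) ^ 2 := by
  unfold Qf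
  rw [sq, Finset.sum_mul_sum]
  refine Finset.sum_congr rfl (fun u _ => ?_)
  refine Finset.sum_congr rfl (fun v _ => ?_)
  by_cases h1 : u ∈ U <;> by_cases h2 : v ∈ U <;> simp [h1, h2]

lemma Qf_id (U : Finset V) :
    Qf (fun u v => if u = v then 1 else 0) U = ((univ \ U).card : ℝ) := by
  unfold Qf
  have h1 : ∀ u : V, (∑ v, if u ∉ U ∧ v ∉ U then (if u = v then (1 : ℝ) else 0) else 0) =
      if u ∉ U then 1 else 0 := by
    intro u
    rw [Finset.sum_eq_single u]
    · by_cases h : u ∈ U <;> simp [h]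
    · intro v _ hv
      rw [if_neg (fun h : u = v => hv h.symm)]
      simp
    · intro h
      exact absurd (Finset.mem_univ u) h
  simp_rw [h1]
  rw [← Finset.sum_filter, Finset.sum_const, nsmul_eq_mul, mul_one]
  congr 2
  ext v
  simp

/-- probability that a sample misses `u` and `v` -/
noncomputable def qq {Ω : Type*} [Fintype Ω] (wt : Ω → ℝ) (vtx : Ω → Finset V) (u v : V) : ℝ :=
  (∑ ω, if u ∉ vtx ω ∧ v ∉ vtx ω then wt ω else 0) / ∑ ω, wt ω

lemma sum_Qf {Ω : Type*} [Fintype Ω] (wt : Ω → ℝ) (vtx : Ω → Finset V)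
    (hW : 0 < ∑ ω, wt ω) (g : V → V → ℝ) (U : Finset V) :
    ∑ ω, wt ω * Qf g (U ∪ vtx ω) = (∑ ω, wt ω) * Qf (fun u v => g u v * qq wt vtx u v) U := by
  classical
  unfold Qf
  simp_rw [Finset.mul_sum]
  rw [Finset.sum_comm]
  refine Finset.sum_congr rfl (fun u _ => ?_)
  rw [Finset.sum_comm]
  refine Finset.sum_congr rfl (fun v _ => ?_)
  by_cases h : u ∉ U ∧ v ∉ U
  · rw [if_pos h]
    have h1 : ∀ ω, wt ω * (if u ∉ U ∪ vtx ω ∧ v ∉ U ∪ vtx ω then g u v else 0) =
        (if u ∉ vtx ω ∧ v ∉ vtx ω then wt ω else 0) * g u v := by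
      intro ω
      by_cases h2 : u ∉ vtx ω ∧ v ∉ vtx ω
      · rw [if_pos h2, if_pos]
        simp only [Finset.mem_union, not_or]
        exact ⟨⟨h.1, h2.1⟩, h.2, h2.2⟩
      · rw [if_neg h2, if_neg, mul_zero, zero_mul]
        simp only [Finset.mem_union, not_or]
        intro h3
        exact h2 ⟨h3.1.2, h3.2.2⟩
    simp_rw [h1]
    rw [← Finset.sum_mul]
    unfold qq
    field_simp
  · rw [if_neg h, mul_zero]
    refine Finset.sum_eq_zero (fun ω _ => ?_)
    rw [if_neg, mul_zero]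
    simp only [Finset.mem_union, not_or]
    intro h'
    exact h ⟨h'.1.1, h'.2.1⟩

/-- the forms of the potential -/
noncomputable def gm (b q : V → V → ℝ) (m : ℕ) (u v : V) : ℝ :=
  ∑ i ∈ range m, b u v * q u v ^ i + (if u = v then 1 else 0) * q u v ^ m

lemma gm_zero (b q : V → V → ℝ) : gm b q 0 = fun u v => if u = v then 1 else 0 := by
  funext u v
  simp [gm]

lemma gm_succ (b q : V → V → ℝ) (m : ℕ) :
    gm b q (m + 1) = fun u v => b u v + gm b q m u v * q u v := by
  funext u v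
  unfold gm
  rw [Finset.sum_range_succ']
  rw [add_mul, Finset.sum_mul]
  have h1 : ∑ i ∈ range m, b u v * q u v ^ (i + 1) = ∑ i ∈ range m, b u v * q u v ^ i * q u v := by
    refine Finset.sum_congr rfl (fun i _ => ?_)
    ring
  rw [h1]
  ring

lemma exists_le_avg {Ω : Type*} [Fintype Ω] (wt : Ω → ℝ) (hwt : ∀ ω, 0 ≤ wt ω)
    (hW : 0 < ∑ ω, wt ω) (F : Ω → ℝ) (A : ℝ) (h : ∑ ω, wt ω * F ω ≤ (∑ ω, wt ω) * A) :
    ∃ ω, 0 < wt ω ∧ F ω ≤ A := by
  by_contra hcon
  push Not at hcon
  have h1 : (∑ ω, wt ω) * A < ∑ ω, wt ω * F ω := by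
    rw [Finset.sum_mul]
    refine Finset.sum_lt_sum (fun ω _ => ?_) ?_
    · rcases (hwt ω).lt_or_eq with h2 | h2
      · exact mul_le_mul_of_nonneg_left (hcon ω h2).le h2.le
      · rw [← h2, zero_mul, zero_mul]
    · obtain ⟨ω, _, hω⟩ := Finset.exists_lt_of_sum_lt (s := univ) (f := fun _ : Ω => (0 : ℝ))
        (g := wt) (by simpa using hW)
      exact ⟨ω, Finset.mem_univ _, mul_lt_mul_of_pos_left (hcon ω hω) hω⟩
  linarith

theorem derand {Ω : Type*} [Fintype Ω] {K : Finset V → Prop} (wt : Ω → ℝ)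
    (vtx : Ω → Finset V) (hwt : ∀ ω, 0 ≤ wt ω) (hW : 0 < ∑ ω, wt ω)
    (cost : Ω → Finset V → ℝ) (b : V → V → ℝ) (c : ℝ)
    (hX : ∀ ω, 0 < wt ω → ∀ U, ∃ X ⊆ vtx ω \ U, Tile K X ∧
      (((vtx ω \ U) \ X).card : ℝ) ≤ cost ω U)
    (hc : ∀ U, ∑ ω, wt ω * cost ω U ≤ (∑ ω, wt ω) * (c + Qf b U)) (m : ℕ) :
    ∀ U : Finset V, ∃ X, Disjoint X U ∧ Tile K X ∧
      ((univ \ (U ∪ X)).card : ℝ) ≤ m * c + Qf (gm b (qq wt vtx) m) U := by
  induction m with
  | zero =>
    intro U
    refine ⟨∅, Finset.disjoint_empty_left _, Tile.empty, ?_⟩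
    rw [gm_zero, Qf_id, Finset.union_empty]
    simp
  | succ m ih =>
    intro U
    have h1 : ∑ ω, wt ω * (cost ω U + (m * c + Qf (gm b (qq wt vtx) m) (U ∪ vtx ω))) ≤
        (∑ ω, wt ω) * ((m + 1 : ℕ) * c + Qf (gm b (qq wt vtx) (m + 1)) U) := by
      simp_rw [mul_add]
      rw [Finset.sum_add_distrib, Finset.sum_add_distrib, sum_Qf wt vtx hW, gm_succ, Qf_add]
      have h2 := hc U
      rw [← Finset.sum_mul]
      push_cast
      nlinarith
    obtain ⟨ω, hω, hle⟩ := exists_le_avg wt hwt hW _ _ h1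
    obtain ⟨X0, hX0, hT0, hc0⟩ := hX ω hω U
    obtain ⟨X1, hd1, hT1, hc1⟩ := ih (U ∪ vtx ω)
    refine ⟨X0 ∪ X1, ?_, ?_, ?_⟩
    · rw [Finset.disjoint_union_left]
      constructor
      · rw [Finset.disjoint_left]
        intro a ha hb
        exact (Finset.mem_sdiff.1 (hX0 ha)).2 hb
      · exact hd1.mono_right Finset.subset_union_left
    · refine Tile.union hT0 hT1 ?_
      rw [Finset.disjoint_left]
      intro a ha hb
      have h2 := Finset.mem_sdiff.1 (hX0 ha)
      exact Finset.disjoint_left.1 hd1 hb (Finset.mem_union_right _ h2.1)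
    · have h2 : (univ \ (U ∪ (X0 ∪ X1))) ⊆
          ((vtx ω \ U) \ X0) ∪ (univ \ (U ∪ vtx ω ∪ X1)) := by
        intro a ha
        simp only [Finset.mem_union, Finset.mem_sdiff, Finset.mem_univ, true_and] at ha ⊢
        tauto
      have h3 : ((univ \ (U ∪ (X0 ∪ X1))).card : ℝ) ≤
          (((vtx ω \ U) \ X0).card : ℝ) + ((univ \ (U ∪ vtx ω ∪ X1)).card : ℝ) := by
        exact_mod_cast (Finset.card_le_card h2).trans (Finset.card_union_le _ _)
      linarith

lemma pow_sub_le (a b : ℝ) (ha : 0 ≤ a) (hab : a ≤ b) (hb : b ≤ 1) (i : ℕ) :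
    b ^ i - a ^ i ≤ i * (b - a) := by
  induction i with
  | zero => simp
  | succ i ih =>
    have h1 : b ^ (i + 1) - a ^ (i + 1) = b * (b ^ i - a ^ i) + a ^ i * (b - a) := by ring
    have h2 : a ^ i ≤ 1 := pow_le_one₀ ha (hab.trans hb)
    have h3 : 0 ≤ b ^ i - a ^ i := by
      have := pow_le_pow_left₀ ha hab i
      linarith
    have h4 : b * (b ^ i - a ^ i) ≤ b ^ i - a ^ i := by nlinarith
    have h5 : a ^ i * (b - a) ≤ b - a := by nlinarith
    rw [h1]
    push_cast
    linarith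

/-- the quadratic form estimate -/
lemma quad_est (f : V → ℝ) (q : V → V → ℝ) (q0 ρ T : ℝ) (hf0 : ∑ v, f v = 0)
    (hf1 : ∑ v, |f v| ≤ T) (hf2 : ∑ v, f v ^ 2 ≤ T) (hT : 0 ≤ T) (hq0 : 0 ≤ q0) (hρ : 0 ≤ ρ)
    (hq1 : ∀ u v, q0 ≤ q u v) (hq2 : ∀ u v, q u v ≤ 1) (hq3 : ∀ u v, u ≠ v → q u v ≤ q0 + ρ)
    (i : ℕ) :
    ∑ u, ∑ v, f u * f v * q u v ^ i ≤ T + T ^ 2 * (i * ρ) := by
  have h1 : ∑ u, ∑ v, f u * f v * q u v ^ i =
      ∑ u, ∑ v, f u * f v * (q u v ^ i - q0 ^ i) := by
    have h2 : ∑ u, ∑ v, f u * f v * q0 ^ i = 0 := by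
      have h3 : ∀ u, ∑ v, f u * f v * q0 ^ i = 0 := by
        intro u
        rw [← Finset.sum_mul, ← Finset.mul_sum, hf0]
        ring
      simp_rw [h3]
      simp
    simp_rw [mul_sub]
    simp_rw [Finset.sum_sub_distrib]
    rw [h2, sub_zero]
  rw [h1]
  have h2 : ∀ u v, f u * f v * (q u v ^ i - q0 ^ i) ≤
      |f u| * |f v| * (i * ρ) + (if u = v then f u ^ 2 else 0) := by
    intro u v
    have h3 : 0 ≤ q u v ^ i - q0 ^ i := by
      have := pow_le_pow_left₀ hq0 (hq1 u v) i
      linarith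
    have h4 : f u * f v ≤ |f u| * |f v| := by
      rw [← abs_mul]
      exact le_abs_self _
    have h0 : 0 ≤ |f u| * |f v| := by positivity
    by_cases huv : u = v
    · rw [if_pos huv]
      subst huv
      have h5 : q u u ^ i - q0 ^ i ≤ 1 := by
        have h6 : q u u ^ i ≤ 1 := pow_le_one₀ (hq0.trans (hq1 u u)) (hq2 u u)
        have h7 : 0 ≤ q0 ^ i := by positivity
        linarith
      have h6 : 0 ≤ |f u| * |f u| * (i * ρ) := by positivity
      have h7 : f u * f u * (q u u ^ i - q0 ^ i) ≤ f u ^ 2 := by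
        rw [← sq]
        nlinarith [sq_nonneg (f u)]
      linarith
    · rw [if_neg huv, add_zero]
      have h5 := pow_sub_le q0 (q u v) hq0 (hq1 u v) (hq2 u v) i
      have h6 : q u v - q0 ≤ ρ := by linarith [hq3 u v huv]
      have h7 : q u v ^ i - q0 ^ i ≤ i * ρ := by
        refine h5.trans ?_
        gcongr
      calc f u * f v * (q u v ^ i - q0 ^ i) ≤ |f u| * |f v| * (q u v ^ i - q0 ^ i) := by
            gcongr
        _ ≤ _ := by gcongr
  calc ∑ u, ∑ v, f u * f v * (q u v ^ i - q0 ^ i)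
      ≤ ∑ u, ∑ v, (|f u| * |f v| * (i * ρ) + (if u = v then f u ^ 2 else 0)) :=
        Finset.sum_le_sum (fun u _ => Finset.sum_le_sum (fun v _ => h2 u v))
    _ = (∑ u, |f u|) * (∑ v, |f v|) * (i * ρ) + ∑ u, f u ^ 2 := by
        simp_rw [Finset.sum_add_distrib]
        congr 1
        · rw [Finset.sum_mul_sum, Finset.sum_mul]
          refine Finset.sum_congr rfl (fun u _ => ?_)
          rw [Finset.sum_mul]
        · refine Finset.sum_congr rfl (fun u _ => ?_)
          rw [Finset.sum_ite_eq]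
          simp
    _ ≤ T * T * (i * ρ) + T := by
        have h3 : 0 ≤ ∑ u, |f u| := Finset.sum_nonneg (fun u _ => abs_nonneg _)
        gcongr
    _ = T + T ^ 2 * (i * ρ) := by ring

end Pool.Agent.R76.B50
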