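import Mathlib
import Pool.Agent.R76.B50.Near

/-!
Near-perfect tilings, concrete estimates.
-/

set_option autoImplicit false
set_option linter.unusedSectionVars false

namespace Pool.Agent.R76.B50

open Finset

universe u

variable {V : Type u} [Fintype V] [DecidableEq V]

/-- parts of a labelled blob -/
def prt {t : ℕ} (s : Fin 3 × Fin t → V) (i : Fin 3) : Finset V :=
  univ.image (fun j => s (i, j))

/-- signed indicator of two parts -/
def ff {t : ℕ} (s : Fin 3 × Fin t → V) (i : Fin 3) (v : V) : ℝ :=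
  (if v ∈ prt s i then 1 else 0) - (if v ∈ prt s (i + 1) then 1 else 0)

lemma prt_card {t : ℕ} {s : Fin 3 × Fin t → V} (hs : Function.Injective s) (i : Fin 3) :
    (prt s i).card = t := by
  unfold prt
  rw [Finset.card_image_of_injective, Finset.card_univ, Fintype.card_fin]
  intro a b hab
  have := hs hab
  simpa using this

lemma prt_disj {t : ℕ} {s : Fin 3 × Fin t → V} (hs : Function.Injective s) {i j : Fin 3}
    (hij : i ≠ j) : Disjoint (prt s i) (prt s j) := by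
  rw [Finset.disjoint_left]
  intro a ha hb
  unfold prt at ha hb
  rw [Finset.mem_image] at ha hb
  obtain ⟨x, _, rfl⟩ := ha
  obtain ⟨y, _, hy⟩ := hb
  have := hs hy
  simp only [Prod.mk.injEq] at this
  exact hij this.1.symm

lemma image_prt {t : ℕ} (s : Fin 3 × Fin t → V) :
    univ.image s = prt s 0 ∪ prt s 1 ∪ prt s 2 := by
  ext v
  simp only [prt, Finset.mem_image, Finset.mem_univ, true_and, Finset.mem_union, Prod.exists]
  constructor
  · rintro ⟨a, b, rfl⟩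
    fin_cases a
    · exact Or.inl (Or.inl ⟨b, rfl⟩)
    · exact Or.inl (Or.inr ⟨b, rfl⟩)
    · exact Or.inr ⟨b, rfl⟩
  · rintro ((⟨b, rfl⟩ | ⟨b, rfl⟩) | ⟨b, rfl⟩)
    · exact ⟨0, b, rfl⟩
    · exact ⟨1, b, rfl⟩
    · exact ⟨2, b, rfl⟩

lemma sum_ind (P : Finset V) : ∑ v, (if v ∈ P then (1 : ℝ) else 0) = P.card := by
  rw [← Finset.sum_filter, Finset.sum_const, nsmul_eq_mul, mul_one]
  congr 2
  ext v
  simp

lemma ff_sum {t : ℕ} {s : Fin 3 × Fin t → V} (hs : Function.Injective s) (i : Fin 3) :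
    ∑ v, ff s i v = 0 := by
  unfold ff
  rw [Finset.sum_sub_distrib, sum_ind, sum_ind, prt_card hs, prt_card hs, sub_self]

lemma ff_abs {t : ℕ} {s : Fin 3 × Fin t → V} (hs : Function.Injective s) (i : Fin 3) :
    ∑ v, |ff s i v| ≤ 2 * t := by
  have h1 : ∑ v, |ff s i v| ≤
      ∑ v, ((if v ∈ prt s i then (1 : ℝ) else 0) + (if v ∈ prt s (i + 1) then 1 else 0)) := by
    refine Finset.sum_le_sum (fun v _ => ?_)
    unfold ff
    split_ifs <;> norm_num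
  refine h1.trans (le_of_eq ?_)
  rw [Finset.sum_add_distrib, sum_ind, sum_ind, prt_card hs, prt_card hs]
  ring

lemma ff_sq {t : ℕ} {s : Fin 3 × Fin t → V} (hs : Function.Injective s) (i : Fin 3) :
    ∑ v, ff s i v ^ 2 ≤ 2 * t := by
  have h1 : ∑ v, ff s i v ^ 2 ≤
      ∑ v, ((if v ∈ prt s i then (1 : ℝ) else 0) + (if v ∈ prt s (i + 1) then 1 else 0)) := by
    refine Finset.sum_le_sum (fun v _ => ?_)
    unfold ff
    split_ifs <;> norm_num
  refine h1.trans (le_of_eq ?_)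
  rw [Finset.sum_add_distrib, sum_ind, sum_ind, prt_card hs, prt_card hs]
  ring

lemma ff_Qf {t : ℕ} (s : Fin 3 × Fin t → V) (i : Fin 3) (U : Finset V) :
    Qf (fun u v => ff s i u * ff s i v) U =
      (((prt s i \ U).card : ℝ) - (prt s (i + 1) \ U).card) ^ 2 := by
  rw [Qf_sq]
  congr 1
  have h1 : ∀ v, (if v ∉ U then ff s i v else 0) =
      (if v ∈ prt s i \ U then (1 : ℝ) else 0) - (if v ∈ prt s (i + 1) \ U then 1 else 0) := by
    intro v
    unfold ff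
    by_cases h1 : v ∈ U <;> simp [h1]
  simp_rw [h1]
  rw [Finset.sum_sub_distrib, sum_ind, sum_ind]

/-- weights of the samples -/
noncomputable def wtt {t : ℕ} (𝒦 : Finset (Fin 3 × Fin t → V)) (D : ℝ) :
    (Fin 3 × Fin t → V) ⊕ V → ℝ
  | Sum.inl s => if s ∈ 𝒦 then 1 else 0
  | Sum.inr v => D - (cnt (fun s => s ∈ 𝒦 ∧ ∃ q, s q = v) : ℝ)

/-- vertices of the samples -/
def vtt {t : ℕ} : (Fin 3 × Fin t → V) ⊕ V → Finset V
  | Sum.inl s => univ.image s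
  | Sum.inr v => {v}

lemma cnt_real {t : ℕ} (𝒦 : Finset (Fin 3 × Fin t → V)) (P : (Fin 3 × Fin t → V) → Prop)
    [DecidablePred P] :
    (cnt (fun s => s ∈ 𝒦 ∧ P s) : ℝ) = ∑ s ∈ 𝒦, if P s then (1 : ℝ) else 0 := by
  classical
  rw [cnt_mem_filter, Finset.card_filter]
  push_cast
  rfl

lemma sum_deg {t : ℕ} (𝒦 : Finset (Fin 3 × Fin t → V)) (h : ∀ s ∈ 𝒦, Function.Injective s) :
    ∑ v, (cnt (fun s => s ∈ 𝒦 ∧ ∃ q, s q = v) : ℝ) = 3 * t * 𝒦.card := by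
  classical
  simp_rw [cnt_real]
  rw [Finset.sum_comm]
  have h1 : ∀ s ∈ 𝒦, ∑ v, (if ∃ q, s q = v then (1 : ℝ) else 0) = 3 * t := by
    intro s hs
    have h2 : ∀ v, (if ∃ q, s q = v then (1 : ℝ) else 0) =
        if v ∈ univ.image s then (1 : ℝ) else 0 := by
      intro v
      congr 1
      simp
    simp_rw [h2]
    rw [sum_ind, Finset.card_image_of_injective _ (h s hs), Finset.card_univ]
    simp
  rw [Finset.sum_congr rfl h1, Finset.sum_const, nsmul_eq_mul]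
  ring

/-- sums over samples -/
lemma sum_wtt {t : ℕ} (𝒦 : Finset (Fin 3 × Fin t → V)) (D : ℝ)
    (F : (Fin 3 × Fin t → V) ⊕ V → ℝ) :
    ∑ ω, wtt 𝒦 D ω * F ω = ∑ s ∈ 𝒦, F (Sum.inl s) +
      ∑ v, (D - (cnt (fun s => s ∈ 𝒦 ∧ ∃ q, s q = v) : ℝ)) * F (Sum.inr v) := by
  classical
  rw [Fintype.sum_sum_type]
  congr 1
  simp only [wtt, ite_mul, one_mul, zero_mul]
  rw [← Finset.sum_filter]
  refine Finset.sum_congr ?_ (fun _ _ => rfl)
  ext s
  simp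

lemma wtt_total {t : ℕ} (𝒦 : Finset (Fin 3 × Fin t → V)) (D : ℝ)
    (h : ∀ s ∈ 𝒦, Function.Injective s) :
    ∑ ω, wtt 𝒦 D ω = 𝒦.card + (D * Fintype.card V - 3 * t * 𝒦.card) := by
  have h1 := sum_wtt 𝒦 D (fun _ => 1)
  simp only [mul_one] at h1
  rw [h1, Finset.sum_sub_distrib, sum_deg 𝒦 h, Finset.sum_const, Finset.sum_const,
    Finset.card_univ, nsmul_eq_mul, nsmul_eq_mul]
  ring

lemma wtt_one {t : ℕ} (𝒦 : Finset (Fin 3 × Fin t → V)) (D : ℝ) (v : V) :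
    ∑ ω, wtt 𝒦 D ω * (if v ∈ vtt ω then 1 else 0) = D := by
  classical
  rw [sum_wtt]
  have h1 : ∑ s ∈ 𝒦, (if v ∈ vtt (Sum.inl s : (Fin 3 × Fin t → V) ⊕ V) then (1 : ℝ) else 0) =
      (cnt (fun s => s ∈ 𝒦 ∧ ∃ q, s q = v) : ℝ) := by
    rw [cnt_real]
    refine Finset.sum_congr rfl (fun s _ => ?_)
    congr 1
    simp [vtt]
  rw [h1, Finset.sum_eq_single v]
  · simp [vtt]
  · intro x _ hx
    rw [if_neg, mul_zero]
    simp only [vtt, Finset.mem_singleton]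
    exact fun h => hx h.symm
  · intro h
    exact absurd (Finset.mem_univ v) h

lemma wtt_two {t : ℕ} (𝒦 : Finset (Fin 3 × Fin t → V)) (D : ℝ) {u v : V} (huv : u ≠ v) :
    ∑ ω, wtt 𝒦 D ω * (if u ∈ vtt ω ∧ v ∈ vtt ω then 1 else 0) =
      (cnt (fun s => s ∈ 𝒦 ∧ (∃ q, s q = u) ∧ ∃ q, s q = v) : ℝ) := by
  classical
  rw [sum_wtt]
  have h1 : ∑ s ∈ 𝒦, (if u ∈ vtt (Sum.inl s : (Fin 3 × Fin t → V) ⊕ V) ∧
      v ∈ vtt (Sum.inl s : (Fin 3 × Fin t → V) ⊕ V) then (1 : ℝ) else 0) =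
      (cnt (fun s => s ∈ 𝒦 ∧ (∃ q, s q = u) ∧ ∃ q, s q = v) : ℝ) := by
    rw [cnt_real]
    refine Finset.sum_congr rfl (fun s _ => ?_)
    congr 1
    simp [vtt]
  rw [h1]
  rw [Finset.sum_eq_zero, add_zero]
  intro x _
  rw [if_neg, mul_zero]
  simp only [vtt, Finset.mem_singleton]
  rintro ⟨rfl, rfl⟩
  exact huv rfl

lemma qq_eq {t : ℕ} (𝒦 : Finset (Fin 3 × Fin t → V)) (D : ℝ) (u v : V) :
    qq (wtt 𝒦 D) vtt u v = ((∑ ω, wtt 𝒦 D ω) - 2 * D +
      ∑ ω, wtt 𝒦 D ω * (if u ∈ vtt ω ∧ v ∈ vtt ω then 1 else 0)) / ∑ ω, wtt 𝒦 D ω := by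
  classical
  unfold qq
  congr 1
  have h1 : ∀ ω : (Fin 3 × Fin t → V) ⊕ V, (if u ∉ vtt ω ∧ v ∉ vtt ω then wtt 𝒦 D ω else 0) =
      wtt 𝒦 D ω - wtt 𝒦 D ω * (if u ∈ vtt ω then 1 else 0) -
        wtt 𝒦 D ω * (if v ∈ vtt ω then 1 else 0) +
        wtt 𝒦 D ω * (if u ∈ vtt ω ∧ v ∈ vtt ω then 1 else 0) := by
    intro ω
    by_cases h1 : u ∈ vtt ω <;> by_cases h2 : v ∈ vtt ω <;> simp [h1, h2]
  simp_rw [h1]
  rw [Finset.sum_add_distrib, Finset.sum_sub_distrib, Finset.sum_sub_distrib, wtt_one, wtt_one]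
  ring

lemma qq_self {t : ℕ} (𝒦 : Finset (Fin 3 × Fin t → V)) (D : ℝ) (u : V) :
    qq (wtt 𝒦 D) vtt u u = ((∑ ω, wtt 𝒦 D ω) - D) / ∑ ω, wtt 𝒦 D ω := by
  rw [qq_eq]
  congr 1
  simp_rw [and_self]
  rw [wtt_one]
  ring

/-- the cost -/
noncomputable def cst {t : ℕ} (k h : ℕ) : (Fin 3 × Fin t → V) ⊕ V → Finset V → ℝ
  | Sum.inl s, U => ∑ i : Fin 3, (Qf (fun u v => ff s i u * ff s i v) U / (2 * h) + h / 2) + 3 * k
  | Sum.inr _, _ => 1

lemma cst_spec {t k h : ℕ} (hk : 1 ≤ k) (hh : 1 ≤ h) {E : V → V → V → Prop}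
    (𝒦 : Finset (Fin 3 × Fin t → V)) (D : ℝ)
    (h1 : ∀ s ∈ 𝒦, Function.Injective s ∧ ∀ i j l, E (s (0, i)) (s (1, j)) (s (2, l)))
    (ω : (Fin 3 × Fin t → V) ⊕ V) (hω : 0 < wtt 𝒦 D ω) (U : Finset V) :
    ∃ X ⊆ vtt ω \ U, Tile (IsTri E k) X ∧ (((vtt ω \ U) \ X).card : ℝ) ≤ cst k h ω U := by
  classical
  rcases ω with s | v
  · have hs : s ∈ 𝒦 := by
      by_contra hs
      simp only [wtt, hs, if_false] at hω
      exact lt_irrefl _ hω
    obtain ⟨hinj, hE⟩ := h1 s hs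
    obtain ⟨X, hX, hT, hc⟩ := tri_tile (E := E) hk (prt s 0 \ U).card (prt s 0 \ U) (prt s 1 \ U)
      (prt s 2 \ U) rfl (by
        intro a ha b hb c hc
        have ha' := Finset.sdiff_subset ha
        have hb' := Finset.sdiff_subset hb
        have hc' := Finset.sdiff_subset hc
        unfold prt at ha' hb' hc'
        rw [Finset.mem_image] at ha' hb' hc'
        obtain ⟨x, _, rfl⟩ := ha'
        obtain ⟨y, _, rfl⟩ := hb'
        obtain ⟨z, _, rfl⟩ := hc'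
        exact hE x y z)
      ((prt_disj hinj (by decide)).mono Finset.sdiff_subset Finset.sdiff_subset)
      ((prt_disj hinj (by decide)).mono Finset.sdiff_subset Finset.sdiff_subset)
      ((prt_disj hinj (by decide)).mono Finset.sdiff_subset Finset.sdiff_subset)
    have h2 : vtt (Sum.inl s : (Fin 3 × Fin t → V) ⊕ V) \ U =
        (prt s 0 \ U) ∪ (prt s 1 \ U) ∪ (prt s 2 \ U) := by
      simp only [vtt]
      rw [image_prt, Finset.union_sdiff_distrib, Finset.union_sdiff_distrib]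
    rw [h2]
    refine ⟨X, hX, hT, hc.trans ?_⟩
    simp only [cst]
    rw [Fin.sum_univ_three]
    have hh0 : (0 : ℝ) < h := by exact_mod_cast hh
    have h3 : ∀ x : ℝ, |x| ≤ x ^ 2 / (2 * h) + h / 2 := by
      intro x
      have h4 : x ^ 2 / (2 * h) + h / 2 - |x| = (|x| - h) ^ 2 / (2 * h) := by
        rw [← sq_abs x]
        field_simp
        ring
      have h5 : 0 ≤ (|x| - h) ^ 2 / (2 * (h : ℝ)) := by positivity
      linarith
    rw [ff_Qf, ff_Qf, ff_Qf]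
    have e1 : ((0 : Fin 3) + 1) = 1 := rfl
    have e2 : ((1 : Fin 3) + 1) = 2 := rfl
    have e3 : ((2 : Fin 3) + 1) = 0 := rfl
    rw [e1, e2, e3]
    have := h3 (((prt s 0 \ U).card : ℝ) - (prt s 1 \ U).card)
    have := h3 (((prt s 1 \ U).card : ℝ) - (prt s 2 \ U).card)
    have := h3 (((prt s 2 \ U).card : ℝ) - (prt s 0 \ U).card)
    linarith
  · refine ⟨∅, Finset.empty_subset _, Tile.empty, ?_⟩
    rw [Finset.sdiff_empty]
    simp only [vtt, cst]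
    have h2 : ({v} \ U : Finset V).card ≤ 1 := by
      refine (Finset.card_le_card Finset.sdiff_subset).trans ?_
      simp
    exact_mod_cast h2

lemma cst_avg {t k h : ℕ} (𝒦 : Finset (Fin 3 × Fin t → V)) (D : ℝ)
    (h1 : ∀ s ∈ 𝒦, Function.Injective s)
    (hW : 0 < ∑ ω, wtt 𝒦 D ω) (U : Finset V) :
    ∑ ω, wtt 𝒦 D ω * cst k h ω U = (∑ ω, wtt 𝒦 D ω) *
      (((3 * (h : ℝ) / 2 + 3 * k) * 𝒦.card + (D * Fintype.card V - 3 * t * 𝒦.card)) /
          (∑ ω, wtt 𝒦 D ω) +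
        Qf (fun u v => (1 / (2 * h * ∑ ω, wtt 𝒦 D ω)) * ∑ s ∈ 𝒦, ∑ i : Fin 3,
          ff s i u * ff s i v) U) := by
  classical
  rw [sum_wtt, Qf_smul, Qf_sum]
  simp_rw [Qf_sum]
  simp only [cst, mul_one]
  rw [Finset.sum_sub_distrib, sum_deg 𝒦 h1, Finset.sum_const (b := D), Finset.card_univ,
    nsmul_eq_mul, Finset.sum_add_distrib, Finset.sum_const, nsmul_eq_mul]
  have h2 : ∀ s : Fin 3 × Fin t → V,
      ∑ i : Fin 3, (Qf (fun u v => ff s i u * ff s i v) U / (2 * h) + (h : ℝ) / 2) =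
      (1 / (2 * h)) * ∑ i : Fin 3, Qf (fun u v => ff s i u * ff s i v) U + 3 * (h : ℝ) / 2 := by
    intro s
    rw [Finset.sum_add_distrib, Finset.sum_const, Finset.card_univ, Fintype.card_fin,
      nsmul_eq_mul, Finset.mul_sum]
    congr 1
    · refine Finset.sum_congr rfl (fun i _ => ?_)
      ring
    · push_cast
      ring
  simp_rw [h2]
  rw [Finset.sum_add_distrib, Finset.sum_const, nsmul_eq_mul, ← Finset.mul_sum, mul_add]
  set W := ∑ ω, wtt 𝒦 D ω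
  set Z := ∑ s ∈ 𝒦, ∑ i : Fin 3, Qf (fun u v => ff s i u * ff s i v) U
  have h3 : W * (1 / (2 * h * W) * Z) = 1 / (2 * h) * Z := by
    rcases Nat.eq_zero_or_pos h with h0 | h0
    · subst h0
      simp
    · have h0' : (0 : ℝ) < h := by exact_mod_cast h0
      field_simp
  rw [h3, mul_div_cancel₀ _ hW.ne']
  ring

end Pool.Agent.R76.B50
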