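import Mathlib
import Pool.Agent.R76.B50.Near2

/-!
Near-perfect tilings: the final statement.
-/

set_option autoImplicit false
set_option linter.unusedSectionVars false

namespace Pool.Agent.R76.B50

open Finset

universe u

variable {V : Type u} [Fintype V] [DecidableEq V]

set_option maxHeartbeats 4000000 in
lemma near_aux {t k h : ℕ} (hk : 1 ≤ k) (hh : 1 ≤ h) (ht : t = h ^ 2) {E : V → V → V → Prop}
    (𝒦 : Finset (Fin 3 × Fin t → V)) {D κ L ε : ℝ} (hD : 0 < D) (hκ : 0 ≤ κ) (hL : 0 < L)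
    (hV : 6 * t ≤ Fintype.card V)
    (h1 : ∀ s ∈ 𝒦, Function.Injective s ∧ ∀ i j l, E (s (0, i)) (s (1, j)) (s (2, l)))
    (h2 : ∀ v, (cnt (fun s => s ∈ 𝒦 ∧ ∃ q, s q = v) : ℝ) ≤ D)
    (h3 : ∀ u v, u ≠ v → (cnt (fun s => s ∈ 𝒦 ∧ (∃ q, s q = u) ∧ ∃ q, s q = v) : ℝ) ≤ κ * D)
    (h4 : (1 - ε) * D * Fintype.card V ≤ 3 * t * 𝒦.card) :
    ∃ X : Finset V, Tile (IsTri E k) X ∧ ((univ \ X).card : ℝ) ≤
      (L * Fintype.card V / (3 * h ^ 2) + 1) *
        (9 / 2 * h + 3 * k + 6 * h ^ 3 * (κ * (L + 1))) +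
      (L * ε * Fintype.card V + 1) + Fintype.card V / L := by
  classical
  have hinj : ∀ s ∈ 𝒦, Function.Injective s := fun s hs => (h1 s hs).1
  have hh0 : (1 : ℝ) ≤ h := by exact_mod_cast hh
  have ht1 : 1 ≤ t := by
    rw [ht]
    exact Nat.one_le_pow _ _ hh
  have ht0 : (1 : ℝ) ≤ t := by exact_mod_cast ht1
  set n : ℝ := (Fintype.card V : ℝ) with hn
  have hnt : 6 * (t : ℝ) ≤ n := by
    rw [hn]
    exact_mod_cast hV
  have hn6 : 6 ≤ n := by linarith
  set W : ℝ := ∑ ω, wtt 𝒦 D ω with hWdef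
  have hWeq : W = 𝒦.card + (D * n - 3 * t * 𝒦.card) := wtt_total 𝒦 D hinj
  have hdum0 : 0 ≤ D * n - 3 * t * 𝒦.card := by
    rw [← sum_deg 𝒦 hinj]
    have h5 : ∑ v, (cnt (fun s => s ∈ 𝒦 ∧ ∃ q, s q = v) : ℝ) ≤ ∑ _v : V, D :=
      Finset.sum_le_sum (fun v _ => h2 v)
    rw [Finset.sum_const, Finset.card_univ, nsmul_eq_mul, ← hn] at h5
    linarith
  set dum : ℝ := D * n - 3 * t * 𝒦.card with hdum
  have hKnn : (0 : ℝ) ≤ 𝒦.card := Nat.cast_nonneg _
  have hW2 : 2 * D ≤ W := by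
    have h5 : 6 * t * D ≤ 3 * t * W := by
      have h6 : D * n = 3 * t * 𝒦.card + dum := by
        rw [hdum]
        ring
      have h7 : 3 * t * 𝒦.card + dum ≤ 3 * t * W := by
        rw [hWeq]
        nlinarith
      have h8 : 6 * t * D ≤ D * n := by nlinarith
      linarith
    have h6 : (0 : ℝ) < 3 * t := by linarith
    have h7 : 3 * t * (2 * D) ≤ 3 * t * W := by linarith
    exact le_of_mul_le_mul_left h7 h6
  have hW : 0 < W := by linarith
  have hwt : ∀ ω, 0 ≤ wtt 𝒦 D ω := by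
    rintro (s | v)
    · simp only [wtt]
      split_ifs <;> norm_num
    · simp only [wtt]
      linarith [h2 v]
  set b : V → V → ℝ := fun u v => (1 / (2 * h * W)) * ∑ s ∈ 𝒦, ∑ i : Fin 3,
          ff s i u * ff s i v with hb
  set c : ℝ := ((3 * (h : ℝ) / 2 + 3 * k) * 𝒦.card + dum) / W with hc
  set m : ℕ := ⌈L * W / D⌉₊ with hm
  have hm1 : L * W / D ≤ m := Nat.le_ceil _
  have hm2 : (m : ℝ) ≤ L * W / D + 1 := by
    have : 0 ≤ L * W / D := by positivity
    exact (Nat.ceil_lt_add_one this).le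
  obtain ⟨X, _, hT, hle⟩ := derand (K := IsTri E k) (wtt 𝒦 D) vtt hwt hW (cst k h) b c
    (fun ω hω U => cst_spec hk hh 𝒦 D h1 ω hω U)
    (fun U => (cst_avg 𝒦 D hinj hW U).le) m ∅
  refine ⟨X, hT, ?_⟩
  rw [Finset.empty_union] at hle
  refine hle.trans ?_
  -- estimate
  set q : V → V → ℝ := qq (wtt 𝒦 D) vtt with hq
  set q0 : ℝ := (W - 2 * D) / W with hq0
  set ρ : ℝ := κ * D / W with hρ
  have hq0' : 0 ≤ q0 := div_nonneg (by linarith) hW.le
  have hρ0 : 0 ≤ ρ := by positivity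
  have hM0 : ∀ u v, 0 ≤ ∑ ω, wtt 𝒦 D ω * (if u ∈ vtt ω ∧ v ∈ vtt ω then 1 else 0) := by
    intro u v
    refine Finset.sum_nonneg (fun ω _ => mul_nonneg (hwt ω) ?_)
    split_ifs <;> norm_num
  have hM1 : ∀ u v, ∑ ω, wtt 𝒦 D ω * (if u ∈ vtt ω ∧ v ∈ vtt ω then 1 else 0) ≤ D := by
    intro u v
    refine le_trans ?_ (wtt_one 𝒦 D v).le
    refine Finset.sum_le_sum (fun ω _ => mul_le_mul_of_nonneg_left ?_ (hwt ω))
    by_cases h5 : v ∈ vtt ω
    · rw [if_pos h5]
      split_ifs <;> norm_num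
    · rw [if_neg h5, if_neg (fun h6 => h5 h6.2)]
  have hq1 : ∀ u v, q0 ≤ q u v := by
    intro u v
    rw [hq, qq_eq, ← hWdef, hq0]
    gcongr
    linarith [hM0 u v]
  have hq2 : ∀ u v, q u v ≤ 1 := by
    intro u v
    rw [hq, qq_eq, ← hWdef, div_le_one hW]
    linarith [hM1 u v]
  have hq3 : ∀ u v, u ≠ v → q u v ≤ q0 + ρ := by
    intro u v huv
    rw [hq, qq_eq, ← hWdef, hq0, hρ, ← add_div]
    gcongr
    rw [wtt_two 𝒦 D huv]
    exact h3 u v huv
  -- the form
  have hmρ : (m : ℝ) * ρ ≤ κ * (L + 1) := by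
    have h5 : (m : ℝ) * ρ ≤ (L * W / D + 1) * ρ := by gcongr
    have h6 : (L * W / D + 1) * ρ = κ * (L + D / W) := by
      rw [hρ]
      field_simp
    have h7 : D / W ≤ 1 := by
      rw [div_le_one hW]
      linarith
    rw [h6] at h5
    refine h5.trans ?_
    gcongr
  have hform : Qf (gm b q m) ∅ ≤ (m : ℝ) * (1 / (2 * h * W) * (𝒦.card *
      (3 * (2 * t + (2 * t) ^ 2 * (κ * (L + 1)))))) + n * (1 / L) := by
    have h5 : Qf (gm b q m) ∅ = ∑ i ∈ range m, Qf (fun u v => b u v * q u v ^ i) ∅ +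
        Qf (fun u v => (if u = v then 1 else 0) * q u v ^ m) ∅ := by
      rw [← Qf_sum, ← Qf_add]
      rfl
    rw [h5]
    refine add_le_add ?_ ?_
    · have h6 : ∀ i ∈ range m, Qf (fun u v => b u v * q u v ^ i) ∅ ≤
          1 / (2 * h * W) * (𝒦.card * (3 * (2 * t + (2 * t) ^ 2 * (κ * (L + 1))))) := by
        intro i hi
        have h7 : (fun u v => b u v * q u v ^ i) = fun u v =>
            (1 / (2 * h * W)) * ∑ s ∈ 𝒦, ∑ j : Fin 3, (ff s j u * ff s j v * q u v ^ i) := by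
          funext u v
          rw [hb]
          simp only
          rw [mul_assoc, Finset.sum_mul]
          congr 1
          refine Finset.sum_congr rfl (fun s _ => ?_)
          rw [Finset.sum_mul]
        rw [h7, Qf_smul, Qf_sum]
        refine mul_le_mul_of_nonneg_left ?_ (by positivity)
        rw [← nsmul_eq_mul (n := 𝒦.card)]
        refine Finset.sum_le_card_nsmul _ _ _ (fun s hs => ?_)
        rw [Qf_sum]
        have h8 : ∀ j ∈ (univ : Finset (Fin 3)), Qf (fun u v => ff s j u * ff s j v * q u v ^ i) ∅ ≤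
            2 * t + (2 * t) ^ 2 * (κ * (L + 1)) := by
          intro j _
          rw [Qf_empty]
          refine (quad_est (ff s j) q q0 ρ (2 * t) (ff_sum (hinj s hs) j) (ff_abs (hinj s hs) j)
            (ff_sq (hinj s hs) j) (by positivity) hq0' hρ0 hq1 hq2 hq3 i).trans ?_
          have h9 : (i : ℝ) * ρ ≤ κ * (L + 1) := by
            have h10 : (i : ℝ) ≤ m := by exact_mod_cast (Finset.mem_range.1 hi).le
            refine le_trans ?_ hmρ
            gcongr
          gcongr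
        refine (Finset.sum_le_card_nsmul _ _ _ h8).trans (le_of_eq ?_)
        rw [Finset.card_univ, Fintype.card_fin, nsmul_eq_mul]
        push_cast
        ring
      refine (Finset.sum_le_card_nsmul _ _ _ h6).trans (le_of_eq ?_)
      rw [Finset.card_range, nsmul_eq_mul]
    · rw [Qf_empty]
      have h6 : ∀ u ∈ (univ : Finset V), ∑ v, (if u = v then (1 : ℝ) else 0) * q u v ^ m ≤
          1 / L := by
        intro u _
        simp only [ite_mul, one_mul, zero_mul]
        rw [Finset.sum_ite_eq]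
        rw [if_pos (Finset.mem_univ _)]
        have h7 : q u u = (W - D) / W := by rw [hq, qq_self]
        have h8 : q u u ≤ Real.exp (-(D / W)) := by
          rw [h7]
          have h9 := Real.add_one_le_exp (-(D / W))
          have h10 : (W - D) / W = -(D / W) + 1 := by
            field_simp
            ring
          rw [h10]
          exact h9
        have h9 : q u u ^ m ≤ Real.exp (-(D / W)) ^ m :=
          pow_le_pow_left₀ (hq0'.trans (hq1 u u)) h8 m
        refine h9.trans ?_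
        rw [← Real.exp_nat_mul]
        have h10 : (m : ℝ) * -(D / W) ≤ -L := by
          have h11 : L * W / D * (D / W) ≤ m * (D / W) := by gcongr
          have h12 : L * W / D * (D / W) = L := by field_simp
          rw [h12] at h11
          linarith
        refine (Real.exp_le_exp.2 h10).trans ?_
        rw [Real.exp_neg, ← one_div]
        refine one_div_le_one_div_of_le hL ?_
        linarith [Real.add_one_le_exp L]
      refine (Finset.sum_le_card_nsmul _ _ _ h6).trans (le_of_eq ?_)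
      rw [Finset.card_univ, nsmul_eq_mul]
  refine (add_le_add (le_refl _) hform).trans ?_
  have hmK : (m : ℝ) * (𝒦.card / W) ≤ L * n / (3 * h ^ 2) + 1 := by
    have h5 : (m : ℝ) * (𝒦.card / W) ≤ (L * W / D + 1) * (𝒦.card / W) := by gcongr
    have h6 : (L * W / D + 1) * (𝒦.card / W) = L * 𝒦.card / D + 𝒦.card / W := by
      field_simp
    rw [h6] at h5
    refine h5.trans (add_le_add ?_ ?_)
    · have h7 : (𝒦.card : ℝ) ≤ D * n / (3 * h ^ 2) := by
        rw [le_div_iff₀ (by positivity)]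
        have h8 : (t : ℝ) = h ^ 2 := by
          rw [ht]
          push_cast
          rfl
        rw [← h8]
        linarith
      rw [div_le_iff₀ hD]
      calc L * 𝒦.card ≤ L * (D * n / (3 * h ^ 2)) := by gcongr
        _ = L * n / (3 * h ^ 2) * D := by ring
    · rw [div_le_one hW]
      linarith
  have hmd : (m : ℝ) * (dum / W) ≤ L * ε * n + 1 := by
    have h5 : (m : ℝ) * (dum / W) ≤ (L * W / D + 1) * (dum / W) := by gcongr
    have h6 : (L * W / D + 1) * (dum / W) = L * dum / D + dum / W := by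
      field_simp
    rw [h6] at h5
    refine h5.trans (add_le_add ?_ ?_)
    · have h7 : dum ≤ ε * D * n := by
        rw [hdum]
        linarith
      rw [div_le_iff₀ hD]
      calc L * dum ≤ L * (ε * D * n) := by gcongr
        _ = L * ε * n * D := by ring
    · rw [div_le_one hW]
      linarith
  have h8 : (t : ℝ) = h ^ 2 := by
    rw [ht]
    push_cast
    rfl
  have h5 : (m : ℝ) * c + ((m : ℝ) * (1 / (2 * h * W) * (𝒦.card *
      (3 * (2 * t + (2 * t) ^ 2 * (κ * (L + 1)))))) + n * (1 / L)) =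
      (m : ℝ) * (𝒦.card / W) * (9 / 2 * h + 3 * k + 6 * h ^ 3 * (κ * (L + 1))) +
        (m : ℝ) * (dum / W) + n / L := by
    rw [hc, h8]
    field_simp
    ring
  rw [h5]
  have h6 : 0 ≤ 9 / 2 * (h : ℝ) + 3 * k + 6 * h ^ 3 * (κ * (L + 1)) := by positivity
  have h7 := mul_le_mul_of_nonneg_right hmK h6
  linarith

set_option maxHeartbeats 4000000 in
/-- Near-perfect tilings from bounded fractional perfect matchings. -/
theorem near_tiling (k : ℕ) (hk : 1 ≤ k) (C1 ξ : ℝ) (hC1 : 0 ≤ C1) (hξ : 0 < ξ) :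
    ∃ n0 : ℕ, ∀ (V : Type u) [Fintype V] [DecidableEq V] (E : V → V → V → Prop),
      n0 ≤ Fintype.card V → ∀ w : V × V × V → ℝ, (∀ p, 0 ≤ w p) →
      (∀ p, w p ≤ C1 / (Fintype.card V : ℝ) ^ 2) →
      (∀ p, ¬ E p.1 p.2.1 p.2.2 → w p = 0) → (∀ v, ∑ p, w p * inc p v = 1) →
      ∃ X : Finset V, Tile (IsTri E k) X ∧
        ((univ \ X).card : ℝ) ≤ ξ * Fintype.card V := by
  set L : ℝ := 5 / ξ with hL
  have hL0 : 0 < L := by positivity
  have hk0 : (1 : ℝ) ≤ k := by exact_mod_cast hk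
  -- choose h
  obtain ⟨h', hh'⟩ := exists_nat_ge (L * (9 / 2 + 3 * k + 6) * 5 / (3 * ξ))
  set h : ℕ := h' + 2 with hh
  have hh1 : (2 : ℝ) ≤ h := by
    rw [hh]
    push_cast
    have : (0 : ℝ) ≤ h' := Nat.cast_nonneg _
    linarith
  have hh2 : L * (9 / 2 + 3 * k + 6) * 5 / (3 * ξ) ≤ h := by
    rw [hh]
    push_cast
    linarith
  set κ : ℝ := 1 / (h ^ 3 * (L + 1)) with hκ
  have hκ0 : 0 < κ := by positivity
  obtain ⟨B', hB'⟩ := exists_nat_ge (30 * L / ξ)
  set B : ℕ := B' + 1 with hB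
  have hB1 : (0 : ℝ) < B := by
    rw [hB]
    push_cast
    positivity
  have hB2 : 30 * L / ξ ≤ B := by
    rw [hB]
    push_cast
    linarith
  set δ : ℝ := ξ / (30 * L * (C1 + 1)) with hδ
  have hδ0 : 0 < δ := by positivity
  set t : ℕ := h ^ 2 with ht
  set A1 : ℝ := (3 * t : ℝ) ^ 2 + B + 2 * (3 * t : ℝ) ^ 4 / κ + 1 with hA1
  have ev1 := ev_le (A := A1) (B := δ ^ t ^ 3) (by positivity)
  have ev2 := ev_le (A := 2) (B := κ * B) (by positivity)
  have ev3 := ev_le (A := (9 / 2 * (h : ℝ) + 3 * k + 6) + 1) (B := ξ / 5) (by positivity)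
  obtain ⟨n0, hn0⟩ := Filter.eventually_atTop.1 (ev1.and (ev2.and ev3))
  refine ⟨max n0 (6 * t + 1), ?_⟩
  intro V _ _ E hV w hw0 hw1 hwE hload
  have hVn0 : n0 ≤ Fintype.card V := le_trans (le_max_left _ _) hV
  have hV6 : 6 * t + 1 ≤ Fintype.card V := le_trans (le_max_right _ _) hV
  obtain ⟨e1, e2, e3⟩ := hn0 (Fintype.card V) hVn0
  set n : ℝ := (Fintype.card V : ℝ) with hn
  have hn1 : 1 ≤ n := by
    rw [hn]
    have : 1 ≤ Fintype.card V := by omega
    exact_mod_cast this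
  have htt : 2 ≤ t := by
    rw [ht, hh]
    nlinarith
  obtain ⟨𝒦, k1, k2, k3, k4⟩ := extract (V := V) (t := t) htt (E := E) (C1 := C1) (κ := κ)
    (δ := δ) (B := B) hC1 hκ0 hδ0.le (by omega) w hw0 hw1 hwE hload (by omega)
    (by
      calc (2 : ℝ) ≤ κ * B * n := e2
        _ ≤ κ * B * n * n := by nlinarith [mul_pos hκ0 hB1]
        _ = κ * (B * n ^ 2) := by ring)
    (by
      rw [hA1] at e1
      rw [← hn]
      linarith)
  rw [← hn] at k2 k3 k4
  set ε : ℝ := 3 / B + 3 * δ * C1 with hε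
  obtain ⟨X, hX1, hX2⟩ := near_aux (V := V) (t := t) (k := k) (h := h) hk (by omega) rfl (E := E)
    𝒦 (D := B * n ^ 2) (κ := κ) (L := L) (ε := ε) (by positivity) hκ0.le hL0 (by omega)
    k1 k2 k3 (by
      refine le_trans (le_of_eq ?_) k4
      rw [hε, ← hn]
      field_simp
      ring)
  refine ⟨X, hX1, hX2.trans ?_⟩
  rw [← hn]
  have g1 : 6 * (h : ℝ) ^ 3 * (κ * (L + 1)) = 6 := by
    rw [hκ]
    field_simp
  rw [g1]
  have g2 : L * n / (3 * (h : ℝ) ^ 2) * (9 / 2 * h + 3 * k + 6) ≤ ξ / 5 * n := by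
    have g3 : 9 / 2 * (h : ℝ) + 3 * k + 6 ≤ (9 / 2 + 3 * k + 6) * h := by nlinarith
    have g4 : L * (9 / 2 + 3 * k + 6) * 5 ≤ h * (3 * ξ) := by
      rwa [div_le_iff₀ (by positivity)] at hh2
    calc L * n / (3 * (h : ℝ) ^ 2) * (9 / 2 * h + 3 * k + 6)
        ≤ L * n / (3 * (h : ℝ) ^ 2) * ((9 / 2 + 3 * k + 6) * h) := by gcongr
      _ = (L * (9 / 2 + 3 * k + 6) * 5) * (n / (15 * h)) := by
          field_simp
          ring
      _ ≤ (h * (3 * ξ)) * (n / (15 * h)) := by gcongr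
      _ = ξ / 5 * n := by
          field_simp
          ring
  have g3 : L * ε * n ≤ ξ / 5 * n := by
    have g4 : L * ε ≤ ξ / 5 := by
      rw [hε, mul_add]
      have g5 : L * (3 / B) ≤ ξ / 10 := by
        have g6 : 30 * L ≤ B * ξ := by rwa [div_le_iff₀ hξ] at hB2
        rw [mul_div_assoc', div_le_iff₀ hB1]
        linarith
      have g6 : L * (3 * δ * C1) ≤ ξ / 10 := by
        have g7 : δ * C1 ≤ ξ / (30 * L) := by
          rw [hδ, div_mul_eq_mul_div, div_le_div_iff₀ (by positivity) (by positivity)]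
          have g8 := mul_pos hξ hL0
          linarith
        calc L * (3 * δ * C1) = 3 * L * (δ * C1) := by ring
          _ ≤ 3 * L * (ξ / (30 * L)) := by gcongr
          _ = ξ / 10 := by
              field_simp
              norm_num
      linarith
    gcongr
  have g4 : n / L = ξ / 5 * n := by
    rw [hL]
    field_simp
  rw [g4]
  nlinarith

end Pool.Agent.R76.B50
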