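import Mathlib
import Pool.Agent.R76.B50.Near3
import Pool.Agent.R76.B50.Absorb2

/-!
Near-perfect tilings after deleting a few vertices; dense types.
-/

set_option autoImplicit false
set_option linter.unusedSectionVars false

namespace Pool.Agent.R76.B50

open Finset

universe u

lemma tile_map {V V' : Type*} [DecidableEq V] [DecidableEq V'] {E : V → V → V → Prop}
    {E' : V' → V' → V' → Prop} (f : V' ↪ V) (h : ∀ a b c, E' a b c → E (f a) (f b) (f c))
    {k : ℕ} {X : Finset V'} (hX : Tile (IsTri E' k) X) : Tile (IsTri E k) (X.map f) := by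
  induction hX with
  | empty =>
    rw [Finset.map_empty]
    exact Tile.empty
  | @add X S hX hS hd ih =>
    rw [Finset.map_union]
    refine Tile.add ih ?_ ?_
    · obtain ⟨A, B, C, hA, hB, hC, rfl, hP⟩ := hS
      refine ⟨A.map f, B.map f, C.map f, ?_, ?_, ?_, ?_, ?_⟩
      · rw [Finset.card_map, hA]
      · rw [Finset.card_map, hB]
      · rw [Finset.card_map, hC]
      · rw [Finset.map_union, Finset.map_union]
      · intro a ha b hb c hc
        rw [Finset.mem_map] at ha hb hc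
        obtain ⟨a', ha', rfl⟩ := ha
        obtain ⟨b', hb', rfl⟩ := hb
        obtain ⟨c', hc', rfl⟩ := hc
        exact h _ _ _ (hP a' ha' b' hb' c' hc')
    · rw [Finset.disjoint_map]
      exact hd

lemma cnt_sub_le {V : Type*} [Fintype V] [DecidableEq V] (W : Finset V) (P : V → Prop) :
    cnt P ≤ cnt (fun v : {v // v ∉ W} => P v) + W.card := by
  classical
  have h1 : cnt P ≤ cnt (fun v => v ∉ W ∧ P v) + cnt (fun v => v ∈ W) := by
    refine le_trans (cnt_mono ?_) (cnt_or _ _)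
    intro v hv
    by_cases h : v ∈ W
    · exact Or.inr h
    · exact Or.inl ⟨h, hv⟩
  have h2 : cnt (fun v => v ∈ W) = W.card := by
    rw [cnt_eq]
    congr 1
    ext v
    simp
  have h3 : cnt (fun v => v ∉ W ∧ P v) ≤ cnt (fun v : {v // v ∉ W} => P v) := by
    rw [cnt_eq, cnt_eq, ← Finset.card_map (Function.Embedding.subtype _)]
    refine Finset.card_le_card ?_
    intro v hv
    rw [Finset.mem_filter] at hv
    rw [Finset.mem_map]
    exact ⟨⟨v, hv.2.1⟩, by simp [hv.2.2], rfl⟩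
  omega

lemma cnt_sub_two {V : Type*} [Fintype V] [DecidableEq V] (W : Finset V)
    (P : V → V → Prop) :
    cnt (fun p : V × V => P p.1 p.2) ≤
      cnt (fun p : {v // v ∉ W} × {v // v ∉ W} => P p.1 p.2) +
        2 * (W.card * Fintype.card V) := by
  classical
  have h1 : cnt (fun p : V × V => P p.1 p.2) ≤
      cnt (fun p : V × V => (p.1 ∉ W ∧ p.2 ∉ W) ∧ P p.1 p.2) +
      (cnt (fun p : V × V => p.1 ∈ W) + cnt (fun p : V × V => p.2 ∈ W)) := by
    refine le_trans (cnt_mono ?_) ((cnt_or _ _).trans (Nat.add_le_add_left (cnt_or _ _) _))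
    intro p hp
    by_cases h : p.1 ∈ W
    · exact Or.inr (Or.inl h)
    · by_cases h' : p.2 ∈ W
      · exact Or.inr (Or.inr h')
      · exact Or.inl ⟨⟨h, h'⟩, hp⟩
  have h2 : cnt (fun p : V × V => p.1 ∈ W) = W.card * Fintype.card V := by
    rw [cnt_eq, ← Finset.card_univ (α := V), ← Finset.card_product]
    congr 1
    ext p
    simp
  have h2' : cnt (fun p : V × V => p.2 ∈ W) = W.card * Fintype.card V := by
    rw [cnt_eq, mul_comm, ← Finset.card_univ (α := V), ← Finset.card_product]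
    congr 1
    ext p
    simp
  have h3 : cnt (fun p : V × V => (p.1 ∉ W ∧ p.2 ∉ W) ∧ P p.1 p.2) ≤
      cnt (fun p : {v // v ∉ W} × {v // v ∉ W} => P p.1 p.2) := by
    rw [cnt_eq, cnt_eq, ← Finset.card_map ((Function.Embedding.subtype _).prodMap
      (Function.Embedding.subtype _))]
    refine Finset.card_le_card ?_
    intro p hp
    rw [Finset.mem_filter] at hp
    rw [Finset.mem_map]
    exact ⟨(⟨p.1, hp.2.1.1⟩, ⟨p.2, hp.2.1.2⟩), by simp [hp.2.2], rfl⟩
  omega

lemma cnt_sub_two' {V : Type*} [Fintype V] [DecidableEq V] (W : Finset V)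
    (P : V → V → Prop) :
    cnt (fun p : {v // v ∉ W} × {v // v ∉ W} => P p.1 p.2) ≤
      cnt (fun p : V × V => P p.1 p.2) := by
  classical
  rw [cnt_eq, cnt_eq, ← Finset.card_map ((Function.Embedding.subtype _).prodMap
      (Function.Embedding.subtype _))]
  refine Finset.card_le_card ?_
  intro p hp
  rw [Finset.mem_map] at hp
  obtain ⟨q, hq, rfl⟩ := hp
  rw [Finset.mem_filter] at hq ⊢
  exact ⟨Finset.mem_univ _, hq.2⟩

/-- near-perfect tiling after removing few vertices -/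
theorem near_sub (k : ℕ) (hk : 1 ≤ k) (c : ℝ) (hc : 0 < c) (hc1 : c ≤ 1) (ξ : ℝ) (hξ : 0 < ξ) :
    ∃ n0 : ℕ, ∀ (V : Type u) [Fintype V] [DecidableEq V] (E : V → V → V → Prop), Sym3 E →
      n0 ≤ Fintype.card V →
      (∀ u v, u ≠ v → c * Fintype.card V ≤ (cnt (fun w => E u v w) : ℝ)) →
      ∀ d : ℝ, (∀ v, |(cnt (fun p : V × V => E v p.1 p.2) : ℝ) - d| ≤
        c ^ 3 / 786432 * (Fintype.card V : ℝ) ^ 2) →
      ∀ W : Finset V, (W.card : ℝ) ≤ c ^ 3 / 1572864 * Fintype.card V →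
      ∃ X : Finset V, Disjoint W X ∧ Tile (IsTri E k) X ∧
        ((univ \ (W ∪ X)).card : ℝ) ≤ ξ * Fintype.card V := by
  obtain ⟨n0, hn0⟩ := near_tiling.{u} k hk (1 / (c / 4)) ξ (by positivity) hξ
  obtain ⟨n1, hn1⟩ := Filter.eventually_atTop.1
    ((ev_le (A := 32) (B := c / 4) (by positivity)).and
      (ev_le (A := n0) (B := (1 : ℝ) / 2) (by norm_num)))
  refine ⟨n1, ?_⟩
  intro V _ _ E hE hV hpair d hd W hW
  classical
  obtain ⟨e1, e2⟩ := hn1 (Fintype.card V) hV
  set n : ℝ := (Fintype.card V : ℝ) with hn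
  have hn0' : 0 < n := by
    by_contra hcon
    have h0 : n = 0 := le_antisymm (not_lt.1 hcon) (by rw [hn]; exact Nat.cast_nonneg _)
    rw [h0] at e1
    linarith
  have hc3 : c ^ 3 ≤ c := by
    have := pow_le_pow_of_le_one hc.le hc1 (show 1 ≤ 3 by norm_num)
    rwa [pow_one] at this
  have hWn : (W.card : ℝ) ≤ c / 2 * n := by
    refine hW.trans ?_
    have : c ^ 3 / 1572864 ≤ c / 2 := by linarith
    gcongr
  have hcard : (Fintype.card {v // v ∉ W} : ℝ) = n - W.card := by
    rw [Fintype.card_subtype_compl, Fintype.card_coe, Nat.cast_sub (Finset.card_le_univ W)]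
  set n' : ℝ := (Fintype.card {v // v ∉ W} : ℝ) with hn'
  have hWnn : (0 : ℝ) ≤ W.card := Nat.cast_nonneg _
  have hn'1 : n' ≤ n := by linarith
  have hn'2 : n / 2 ≤ n' := by
    rw [hcard]
    have : c / 2 * n ≤ 1 / 2 * n := by gcongr
    linarith
  have hn'0 : 0 < n' := by linarith
  set E' : {v // v ∉ W} → {v // v ∉ W} → {v // v ∉ W} → Prop := fun a b x => E a b x with hE'
  have hE's : Sym3 E' := by
    refine ⟨fun h => hE.s12 h, fun h => hE.s23 h, ?_⟩
    intro x y z h hxy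
    exact hE.ne12 h (congrArg Subtype.val hxy)
  have hpair' : ∀ u v, u ≠ v → c / 2 * n' ≤ (cnt (fun w => E' u v w) : ℝ) := by
    intro u v huv
    have h1 := hpair u v (fun h => huv (Subtype.ext h))
    have h2 := cnt_sub_le W (fun w => E u v w)
    have h3 : (cnt (fun w => E u v w) : ℝ) ≤ (cnt (fun w => E' u v w) : ℝ) + W.card := by
      exact_mod_cast h2
    have h4 : c / 2 * n' ≤ c / 2 * n := by gcongr
    have h5 : c * n = c / 2 * n + c / 2 * n := by ring
    linarith
  have hd0 : c / 4 * n ^ 2 ≤ d := by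
    have hne : Nonempty V := by
      rw [← Fintype.card_pos_iff]
      have h0 : (0 : ℝ) < Fintype.card V := hn0'
      exact_mod_cast h0
    obtain ⟨v⟩ := hne
    have h1 := cnt_link hpair v
    have h2 : cnt (fun p : V × V => E v p.2 p.1) = cnt (fun p : V × V => E v p.1 p.2) :=
      cnt_congr (Equiv.prodComm V V) (fun p => Iff.rfl)
    rw [h2, ← hn] at h1
    have h3 : (2 : ℝ) ≤ n := by nlinarith
    have h4 : c / 2 * n ^ 2 ≤ (n - 1) * (c * n) := by nlinarith [mul_pos hc hn0']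
    have h5 := (abs_le.1 (hd v)).2
    have h6 : c ^ 3 / 786432 * n ^ 2 ≤ c / 4 * n ^ 2 := by
      have : c ^ 3 / 786432 ≤ c / 4 := by linarith
      gcongr
    have h7 : c / 2 * n ^ 2 = c / 4 * n ^ 2 + c / 4 * n ^ 2 := by ring
    linarith
  obtain ⟨w, w1, w2, w3, w4⟩ := frac_matching (V := {v // v ∉ W}) hE's (c := c / 2) (d := d)
    (d0 := c / 4) (η := c ^ 3 / 98304) (by positivity) (by linarith) hpair'
    (by
      rw [← hn']
      calc (32 : ℝ) ≤ c / 4 * n := e1
        _ = c / 2 * (n / 2) := by ring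
        _ ≤ c / 2 * n' := by gcongr)
    (by
      intro v
      rw [← hn', abs_le]
      have h1 := cnt_sub_two W (fun a b => E v a b)
      have h2 := cnt_sub_two' W (fun a b => E v a b)
      have h3 : (cnt (fun p : V × V => E v p.1 p.2) : ℝ) ≤
          (cnt (fun p : {v // v ∉ W} × {v // v ∉ W} => E' v p.1 p.2) : ℝ) +
          2 * (W.card * n) := by
        rw [hn]
        exact_mod_cast h1
      have h4 : (cnt (fun p : {v // v ∉ W} × {v // v ∉ W} => E' v p.1 p.2) : ℝ) ≤
          (cnt (fun p : V × V => E v p.1 p.2) : ℝ) := by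
        exact_mod_cast h2
      have h5 : 2 * (W.card * n) + c ^ 3 / 786432 * n ^ 2 ≤ c ^ 3 / 98304 * n' ^ 2 := by
        have h6 : (n / 2) ^ 2 ≤ n' ^ 2 := by gcongr
        calc 2 * (W.card * n) + c ^ 3 / 786432 * n ^ 2
            ≤ 2 * (c ^ 3 / 1572864 * n * n) + c ^ 3 / 786432 * n ^ 2 := by gcongr
          _ = c ^ 3 / 98304 * (n / 2) ^ 2 := by ring
          _ ≤ _ := by gcongr
      have h6 : 0 ≤ 2 * (W.card * n) := by positivity
      have h7 := abs_le.1 (hd v)
      constructor <;> linarith [h7.1, h7.2])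
    (by
      have : (c / 2) ^ 3 / 4096 = c ^ 3 / 32768 := by ring
      rw [this]
      linarith [pow_pos hc 3])
    (by positivity)
    (by
      rw [← hn']
      refine le_trans ?_ hd0
      gcongr)
  obtain ⟨X, hX1, hX2⟩ := hn0 {v // v ∉ W} E' (by
    have h1 : (n0 : ℝ) ≤ (Fintype.card {v // v ∉ W} : ℝ) := by
      rw [← hn']
      linarith
    exact_mod_cast h1) w w1 w2 w3 w4
  refine ⟨X.map (Function.Embedding.subtype _), ?_, tile_map _ (fun a b c h => h) hX1, ?_⟩
  · rw [Finset.disjoint_left]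
    intro v hv hv'
    rw [Finset.mem_map] at hv'
    obtain ⟨x, _, rfl⟩ := hv'
    exact x.2 hv
  · have h1 : (univ \ (W ∪ X.map (Function.Embedding.subtype _))) ⊆
        (univ \ X).map (Function.Embedding.subtype (fun v => v ∉ W)) := by
      intro v hv
      rw [Finset.mem_sdiff, Finset.mem_union, not_or] at hv
      rw [Finset.mem_map]
      refine ⟨⟨v, hv.2.1⟩, ?_, rfl⟩
      rw [Finset.mem_sdiff]
      refine ⟨Finset.mem_univ _, fun h => hv.2.2 ?_⟩
      rw [Finset.mem_map]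
      exact ⟨_, h, rfl⟩
    have h2 := Finset.card_le_card h1
    rw [Finset.card_map] at h2
    have h3 : ((univ \ (W ∪ X.map (Function.Embedding.subtype _))).card : ℝ) ≤
        ((univ \ X).card : ℝ) := by exact_mod_cast h2
    rw [← hn'] at hX2
    refine h3.trans (hX2.trans ?_)
    gcongr

variable {V : Type u} [Fintype V] [DecidableEq V]

/-- dense types -/
lemma dense_types {N : ℕ} {E : V → V → V → Prop} {c γ : ℝ} (hc : 0 < c)
    (hγ : 0 < γ) (hpair : ∀ u v, u ≠ v → c * Fintype.card V ≤ (cnt (fun w => E u v w) : ℝ))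
    (cl : V → Fin N)
    (hcl : ∀ v, γ * Fintype.card V ≤ (cnt (fun w => cl w = cl v) : ℝ))
    (hn2 : 2 ≤ γ * Fintype.card V) (x y : V) :
    ∃ z : V, γ ^ 2 * c / (2 * (N + 1)) * (Fintype.card V : ℝ) ^ 3 ≤
      (cnt (fun p : V × V × V => EType E cl (cl x, cl y, cl z) p.1 p.2.1 p.2.2) : ℝ) := by
  classical
  set n : ℝ := (Fintype.card V : ℝ) with hn
  have hn0 : 0 < n := by
    by_contra hcon
    have h0 : n = 0 := le_antisymm (not_lt.1 hcon) (by rw [hn]; exact Nat.cast_nonneg _)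
    rw [h0] at hn2
    linarith
  -- lower bound
  have h1 : ∀ a : V, cl a = cl x → γ * n / 2 * (c * n) ≤
      (cnt (fun p : V × V => E a p.2 p.1 ∧ cl p.2 = cl y ∧ cl a = cl x) : ℝ) := by
    intro a ha
    have h2 := cnt_prod_ge (fun (z : V) (b : V) => E a b z ∧ cl b = cl y ∧ cl a = cl x)
      (fun b => cl b = cl y ∧ b ≠ a) (c * n) (fun b hb => by
        have h3 := hpair a b hb.2.symm
        refine h3.trans ?_
        have h4 : cnt (fun z => E a b z) ≤
            cnt (fun z => E a b z ∧ cl b = cl y ∧ cl a = cl x) :=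
          cnt_mono (fun z hz => ⟨hz, hb.1, ha⟩)
        exact_mod_cast h4)
    refine le_trans ?_ h2
    have h3 : cnt (fun b => cl b = cl y) ≤ cnt (fun b => cl b = cl y ∧ b ≠ a) + 1 := by
      have h4 : cnt (fun b => cl b = cl y) ≤ cnt (fun b => cl b = cl y ∧ b ≠ a) +
          cnt (fun b : V => b = a) := by
        refine le_trans (cnt_mono ?_) (cnt_or _ _)
        intro b hb
        by_cases h : b = a
        · exact Or.inr h
        · exact Or.inl ⟨hb, h⟩
      have h5 : cnt (fun b : V => b = a) = 1 := by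
        rw [cnt_eq, Finset.filter_eq' univ a, if_pos (Finset.mem_univ _),
          Finset.card_singleton]
      omega
    have h4 : (cnt (fun b => cl b = cl y) : ℝ) ≤ cnt (fun b => cl b = cl y ∧ b ≠ a) + 1 := by
      exact_mod_cast h3
    have h5 := hcl y
    have h6 : γ * n / 2 ≤ (cnt (fun b => cl b = cl y ∧ b ≠ a) : ℝ) := by linarith
    have : 0 ≤ c * n := by positivity
    gcongr
  have h2 := cnt_prod_ge (fun (p : V × V) (a : V) => E a p.2 p.1 ∧ cl p.2 = cl y ∧ cl a = cl x)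
    (fun a => cl a = cl x) (γ * n / 2 * (c * n)) h1
  have h3 : γ ^ 2 * c / 2 * n ^ 3 ≤ (cnt (fun p : (V × V) × V =>
      E p.2 p.1.2 p.1.1 ∧ cl p.1.2 = cl y ∧ cl p.2 = cl x) : ℝ) := by
    refine le_trans ?_ h2
    have h4 := hcl x
    have h5 : 0 ≤ γ * n / 2 * (c * n) := by positivity
    calc γ ^ 2 * c / 2 * n ^ 3 = (γ * n) * (γ * n / 2 * (c * n)) := by ring
      _ ≤ _ := by gcongr
  -- upper bound
  by_contra hcon
  push Not at hcon
  set X : ℝ := γ ^ 2 * c / (2 * (N + 1)) * n ^ 3 with hX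
  have hXpos : 0 < X := by positivity
  have h4 : cnt (fun p : (V × V) × V => E p.2 p.1.2 p.1.1 ∧ cl p.1.2 = cl y ∧ cl p.2 = cl x) ≤
      ∑ l : Fin N, cnt (fun p : V × V × V => EType E cl (cl x, cl y, l) p.1 p.2.1 p.2.2) := by
    rw [cnt_eq, Finset.card_eq_sum_card_fiberwise (f := fun p : (V × V) × V => cl p.1.1)
      (t := univ) (fun _ _ => Finset.mem_coe.2 (Finset.mem_univ _))]
    refine Finset.sum_le_sum (fun l _ => ?_)
    rw [cnt_eq]
    refine Finset.card_le_card_of_injOn (fun p => (p.2, p.1.2, p.1.1)) ?_ ?_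
    · intro p hp
      simp only [Finset.coe_filter, Finset.mem_filter, Finset.mem_univ, true_and,
        Set.mem_ofPred_eq] at hp ⊢
      exact ⟨hp.1.1, hp.1.2.2, hp.1.2.1, hp.2⟩
    · rintro ⟨⟨a, b⟩, c⟩ _ ⟨⟨a', b'⟩, c'⟩ _ h
      simp only [Prod.mk.injEq] at h ⊢
      exact ⟨⟨h.2.2, h.2.1⟩, h.1⟩
  have h5 : ∀ l : Fin N,
      (cnt (fun p : V × V × V => EType E cl (cl x, cl y, l) p.1 p.2.1 p.2.2) : ℝ) ≤ X := by
    intro l
    by_cases h6 : ∃ z, cl z = l
    · obtain ⟨z, rfl⟩ := h6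
      exact (hcon z).le
    · have h7 : cnt (fun p : V × V × V => EType E cl (cl x, cl y, l) p.1 p.2.1 p.2.2) = 0 := by
        by_contra h8
        obtain ⟨p, hp⟩ := cnt_pos (Nat.pos_of_ne_zero h8)
        exact h6 ⟨_, hp.2.2.2⟩
      rw [h7]
      push_cast
      exact hXpos.le
  have h6 : (cnt (fun p : (V × V) × V => E p.2 p.1.2 p.1.1 ∧ cl p.1.2 = cl y ∧ cl p.2 = cl x) :
      ℝ) ≤ N * X := by
    have h7 : (cnt (fun p : (V × V) × V =>
        E p.2 p.1.2 p.1.1 ∧ cl p.1.2 = cl y ∧ cl p.2 = cl x) : ℝ) ≤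
        ∑ l : Fin N, (cnt (fun p : V × V × V => EType E cl (cl x, cl y, l) p.1 p.2.1 p.2.2) :
          ℝ) := by exact_mod_cast h4
    refine h7.trans ((Finset.sum_le_card_nsmul _ _ X (fun l _ => h5 l)).trans (le_of_eq ?_))
    rw [Finset.card_univ, Fintype.card_fin, nsmul_eq_mul]
  have h7 : (N + 1) * X = γ ^ 2 * c / 2 * n ^ 3 := by
    rw [hX]
    field_simp
  have h8 : (N : ℝ) * X < (N + 1) * X := by nlinarith
  linarith

end Pool.Agent.R76.B50
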