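import Mathlib
import Pool.Agent.R76.B50.Sub
import Pool.Agent.R76.B50.Finish

/-!
Tilings of regular 3-graphs with complete tripartite 3-graphs, up to a constant number of vertices.
-/

set_option autoImplicit false
set_option linter.unusedSectionVars false

namespace Pool.Agent.R76.B50

open Finset

universe u

set_option maxHeartbeats 4000000 in
/-- The main theorem for complete tripartite 3-graphs with equal parts. -/
theorem main_tile (k : ℕ) (hk : 1 ≤ k) (c : ℝ) (hc : 0 < c) (hc1 : c ≤ 1) :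
    ∃ C : ℕ, ∀ (V : Type u) [Fintype V] [DecidableEq V] (E : V → V → V → Prop), Sym3 E →
      (∀ u v, u ≠ v → c * Fintype.card V ≤ (cnt (fun w => E u v w) : ℝ)) →
      ∀ d : ℝ, (∀ v, |(cnt (fun p : V × V => E v p.1 p.2) : ℝ) - d| ≤
        c ^ 3 / 786432 * (Fintype.card V : ℝ) ^ 2) →
      ∃ X : Finset V, Tile (IsTri E k) X ∧ (univ \ X).card ≤ C := by
  obtain ⟨N, t, β, γ, n0, hβ, hγ, hpart⟩ := closed_partition.{u} k hk c hc
  obtain ⟨D0, N0, hD0, hlat⟩ := lattice_all N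
  set γ' : ℝ := γ ^ 2 * c / (2 * (N + 1)) with hγ'
  have hγ'0 : 0 < γ' := by positivity
  have hk0 : (0 : ℝ) < k := by exact_mod_cast hk
  set κ : ℝ := γ' ^ k ^ 3 / 2 / (3 * k : ℝ) ^ (3 * k) with hκ
  have hκ0 : 0 < κ := by positivity
  have hcb := cb_pos hβ t (3 * k)
  set βA : ℝ := κ / 2 * cb β t (3 * k) / 2 / 2 ^ (3 * k + 3 * k * (t + 1)) with hβA
  have hβA0 : 0 < βA := by positivity
  obtain ⟨M, hM⟩ : ∃ M, 3 * k + 3 * k * (t + 1) = M + 1 :=
    ⟨3 * k + 3 * k * (t + 1) - 1, by omega⟩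
  set ρ : ℝ := c ^ 3 / 1572864 with hρ
  have hρ0 : 0 < ρ := by positivity
  set η : ℝ := min (ρ / 2) (κ / 4) with hη
  have hη0 : 0 < η := lt_min (by positivity) (by positivity)
  obtain ⟨η1, n1, hη1, hgreedy⟩ := greedy_final.{u, u} hβA0 M (3 * k) hη0
  set T0 : ℕ := Fintype.card (Fin N × Fin N × Fin N) with hT0
  set q0 : ℝ := η / (3 * k * (T0 + 1)) with hq0
  have hq00 : 0 < q0 := by positivity
  set ξ : ℝ := min (q0 / (2 * (N0 + 1))) (η1 / (T0 * N0 + 1)) with hξ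
  have hξ0 : 0 < ξ := lt_min (by positivity) (by positivity)
  obtain ⟨n2, hnear⟩ := near_sub.{u} k hk c hc hc1 ξ hξ0
  obtain ⟨n3, hn3⟩ := Filter.eventually_atTop.1
    ((ev_le (A := 2) (B := γ) hγ).and
    ((ev_le (A := 2 * (3 * k : ℝ) ^ 2) (B := γ' ^ k ^ 3) (by positivity)).and
    ((ev_le (A := (3 * k : ℝ)) (B := κ / 2) (by positivity)).and
    ((ev_le (A := 2 * (3 * k : ℝ)) (B := β / 2) (by positivity)).and
    ((ev_le (A := (3 * k : ℝ) * (t + 1)) (B := β / 4) (by positivity)).and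
    ((ev_le (A := (3 * k : ℝ)) (B := cb β t (3 * k) / 2) (by positivity)).and
    (ev_le (A := 2) (B := q0) hq00)))))))
  refine ⟨max (N * (D0 * k)) (n0 + n1 + n2 + n3 + 1), ?_⟩
  intro V _ _ E hE hpair d hd
  classical
  by_cases hbig : Fintype.card V ≤ n0 + n1 + n2 + n3 + 1
  · refine ⟨∅, Tile.empty, ?_⟩
    rw [Finset.sdiff_empty, Finset.card_univ]
    exact hbig.trans (le_max_right _ _)
  push Not at hbig
  obtain ⟨cl, hcl1, hcl2⟩ := hpart V E hE (by omega) hpair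
  obtain ⟨e1, e2, e3, e4, e5, e6, e7⟩ := hn3 (Fintype.card V) (by omega)
  have hVpos : 0 < Fintype.card V := by omega
  set n : ℝ := (Fintype.card V : ℝ) with hn
  have hn0 : 0 < n := by
    rw [hn]
    exact_mod_cast hVpos
  -- dense types
  set 𝒟 : Finset (Fin N × Fin N × Fin N) := univ.filter (fun τ => γ' * n ^ 3 ≤
    (cnt (fun p : V × V × V => EType E cl τ p.1 p.2.1 p.2.2) : ℝ)) with h𝒟
  set I : Finset (Fin N) := univ.image cl with hI
  have hID : ∀ i ∈ I, ∀ j ∈ I, ∃ l ∈ I, (i, j, l) ∈ 𝒟 := by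
    intro i hi j hj
    rw [hI, Finset.mem_image] at hi hj
    obtain ⟨x, _, rfl⟩ := hi
    obtain ⟨y, _, rfl⟩ := hj
    obtain ⟨z, hz⟩ := dense_types hc hγ hpair cl hcl2 e1 x y
    refine ⟨cl z, Finset.mem_image_of_mem cl (Finset.mem_univ z), ?_⟩
    rw [h𝒟, Finset.mem_filter]
    exact ⟨Finset.mem_univ _, hz⟩
  obtain ⟨co, hco1, hco2, hco3⟩ := hlat I 𝒟 hID
  have h𝒟mem : ∀ τ ∈ 𝒟, γ' * n ^ 3 ≤
      (cnt (fun p : V × V × V => EType E cl τ p.1 p.2.1 p.2.2) : ℝ) := by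
    intro τ hτ
    exact (Finset.mem_filter.1 hτ).2
  -- absorbers
  set 𝒯 : Finset (Fin 3 × Fin k → V) := univ.filter (fun T => Function.Injective T ∧
    ∃ τ ∈ 𝒟, HasType cl T τ) with h𝒯
  have h𝒯c : 𝒯.card ≤ Fintype.card V ^ (3 * k) := by
    refine (Finset.card_le_univ _).trans (le_of_eq ?_)
    rw [Fintype.card_fun]
    simp
  obtain ⟨𝒜, h𝒜c, h𝒜1, h𝒜2, h𝒜3⟩ := hgreedy V (by omega) (Fin 3 × Fin k → V) 𝒯
    (fun T => Absorbs (IsTri E k) (univ.image T)) (Tile (IsTri E k))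
    (fun T _ X hX => hX.2.1)
    (by
      intro T hT
      rw [h𝒯, Finset.mem_filter] at hT
      obtain ⟨_, hTinj, τ, hτ, hTτ⟩ := hT
      have h1 := many_absorb hk hE cl hβ hγ'0 hcl1 T hTinj τ hTτ (h𝒟mem τ hτ) e2 e3 e4 e5 e6
      rw [hM] at h1
      rw [hβA, hM]
      exact h1)
    h𝒯c
  rw [← hn] at h𝒜c h𝒜3
  -- spare copies
  set Q : ℕ := ⌊q0 * n⌋₊ with hQ
  have hQ1 : (Q : ℝ) ≤ q0 * n := Nat.floor_le (by positivity)
  have hQ2 : q0 * n / 2 ≤ Q := by
    have := (Nat.lt_floor_add_one (q0 * n)).le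
    rw [← hQ] at this
    linarith
  set F : Finset V := 𝒜.biUnion id with hF
  have hFc : (F.card : ℝ) ≤ η * n := by
    have h1 : F.card ≤ 𝒜.card * (M + 1) :=
      Finset.card_biUnion_le_card_mul _ _ _ (fun A hA => (h𝒜1 A hA).1.le)
    have h2 : (F.card : ℝ) ≤ 𝒜.card * (M + 1) := by exact_mod_cast h1
    exact h2.trans h𝒜c
  set s : Finset ((Fin N × Fin N × Fin N) × Fin Q) := 𝒟 ×ˢ univ with hs
  have hsc : s.card ≤ T0 * Q := by
    rw [hs, Finset.card_product, Finset.card_univ, Fintype.card_fin]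
    gcongr
    exact Finset.card_le_univ _
  obtain ⟨m1, hm1⟩ : ∃ m1, 3 * k = m1 + 1 := ⟨3 * k - 1, by omega⟩
  have hm1' : (m1 : ℝ) + 1 = 3 * k := by
    have : ((3 * k : ℕ) : ℝ) = ((m1 + 1 : ℕ) : ℝ) := by rw [hm1]
    push_cast at this
    linarith
  have hsn : (s.card : ℝ) * (3 * k) ≤ η * n := by
    have h1 : (s.card : ℝ) ≤ T0 * Q := by exact_mod_cast hsc
    have h2 : (s.card : ℝ) ≤ (T0 + 1) * (q0 * n) := by
      refine h1.trans ?_
      gcongr
      linarith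
    calc (s.card : ℝ) * (3 * k) ≤ (T0 + 1) * (q0 * n) * (3 * k) := by gcongr
      _ = η * n := by
          rw [hq0]
          field_simp
  have hη1' : η ≤ ρ / 2 := min_le_left _ _
  have hη2' : η ≤ κ / 4 := min_le_right _ _
  obtain ⟨X, hX1, hX2⟩ := choose_disj s (fun p => IsTri (EType E cl p.1) k) (κ := κ) hκ0
    (m := m1) F
    (by
      intro p hp
      rw [← hm1]
      rw [hs, Finset.mem_product] at hp
      exact many_tri hγ'0 k hk (EType E cl p.1) e2 (h𝒟mem p.1 hp.1))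
    (by
      rw [hm1']
      have h1 : η * n ≤ κ / 4 * n := by gcongr
      rw [← hn]
      linarith) hVpos
  set U : Finset V := s.biUnion X with hU
  have hUc : (U.card : ℝ) ≤ η * n := by
    have h1 : U.card ≤ s.card * (m1 + 1) :=
      Finset.card_biUnion_le_card_mul _ _ _ (fun p hp => (hX1 p hp).1.le)
    have h2 : (U.card : ℝ) ≤ s.card * (m1 + 1) := by exact_mod_cast h1
    rw [hm1'] at h2
    exact h2.trans hsn
  have hW : ((F ∪ U).card : ℝ) ≤ ρ * n := by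
    have h1 : ((F ∪ U).card : ℝ) ≤ F.card + U.card := by exact_mod_cast Finset.card_union_le _ _
    have h2 : η * n ≤ ρ / 2 * n := by gcongr
    linarith
  obtain ⟨X0, hX0d, hX0T, hX0c⟩ := hnear V E hE (by omega) hpair d hd (F ∪ U) hW
  rw [← hn] at hX0c
  set L : Finset V := univ \ ((F ∪ U) ∪ X0) with hL
  have hLc : (L.card : ℝ) ≤ ξ * n := hX0c
  have hmems : ∀ p : (Fin N × Fin N × Fin N) × Fin Q, p.1 ∈ 𝒟 → p ∈ s := by
    intro p hp
    rw [hs, Finset.mem_product]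
    exact ⟨hp, Finset.mem_univ _⟩
  rw [Finset.disjoint_union_left] at hX0d
  obtain ⟨hX0F, hX0U⟩ := hX0d
  rw [hF, Finset.disjoint_biUnion_left] at hX0F
  rw [hU, Finset.disjoint_biUnion_left] at hX0U
  obtain ⟨Z, hZ1, hZ2⟩ := finish hk hE cl 𝒟 I
    (fun v => Finset.mem_image_of_mem cl (Finset.mem_univ v)) hD0 co hco1 hco2 hco3 𝒜
    (fun A hA => (h𝒜1 A hA).2) h𝒜2 (Q := Q) X
    (fun p hp => (hX1 p (hmems p hp)).2.1)
    (fun p q hp hq hpq => hX2 p (hmems p hp) q (hmems q hq) hpq)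
    (by
      intro A hA p hp
      have h1 := (hX1 p (hmems p hp)).2.2
      rw [hF, Finset.disjoint_biUnion_left] at h1
      exact h1 A hA)
    X0 hX0T hX0F (fun p hp => hX0U p (hmems p hp)) L hL
    (by
      have h1 : (N0 : ℝ) * L.card ≤ Q := by
        have h2 : ξ ≤ q0 / (2 * (N0 + 1)) := min_le_left _ _
        calc (N0 : ℝ) * L.card ≤ (N0 + 1) * (ξ * n) := by
              gcongr
              linarith
          _ ≤ (N0 + 1) * (q0 / (2 * (N0 + 1)) * n) := by gcongr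
          _ = q0 * n / 2 := by field_simp
          _ ≤ Q := hQ2
      exact_mod_cast h1)
    (by
      intro T hT τ hτ hTτ
      have hTm : T ∈ 𝒯 := by
        rw [h𝒯, Finset.mem_filter]
        exact ⟨Finset.mem_univ _, hT, τ, hτ, hTτ⟩
      have h1 := h𝒜3 T hTm
      have h2 : (T0 : ℝ) * (N0 * L.card) ≤ η1 * n := by
        have h3 : ξ ≤ η1 / (T0 * N0 + 1) := min_le_right _ _
        calc (T0 : ℝ) * (N0 * L.card) = (T0 * N0) * L.card := by ring
          _ ≤ (T0 * N0 + 1) * (ξ * n) := by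
              gcongr
              linarith
          _ ≤ (T0 * N0 + 1) * (η1 / (T0 * N0 + 1) * n) := by gcongr
          _ = η1 * n := by field_simp
      exact_mod_cast h2.trans h1)
  exact ⟨Z, hZ1, hZ2.trans (le_max_left _ _)⟩

end Pool.Agent.R76.B50
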